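import Pool.Agent.Helper17.UF.Core

/-!
# Mirror image and reversal of pieces (project UF, MP_409f7f_co)
-/

namespace Pool.Agent.Helper17.UF

namespace St

/-- Mirror image (`y ↦ -y`). -/
def mir : St → St
  | N u v => S u v
  | S u v => N u v
  | E a b c d => E b a d c

/-- Reversal (rotation by 180 degrees about the last cell). -/
def rev : St → St
  | N u v => N v u
  | S u v => S v u
  | E a b c d => E d c b a

theorem head_rev (s : St) : s.rev.head = s.head := by cases s <;> rfl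

theorem inF_mir (s : St) (w : ℤ × ℤ) : s.mir.inF (w.1, -w.2) ↔ s.inF w := by
  obtain ⟨x, y⟩ := w
  cases s with
  | N u v => cases u <;> cases v <;> simp only [mir, inF] <;> constructor <;> intro h <;>
      simp at h ⊢ <;> omega
  | S u v => cases u <;> cases v <;> simp only [mir, inF] <;> constructor <;> intro h <;>
      simp at h ⊢ <;> omega
  | E a b c d => cases a <;> cases b <;> cases c <;> cases d <;> simp only [mir, inF] <;>
      constructor <;> intro h <;> simp at h ⊢ <;> omega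

theorem inF_rev (s : St) (v : ℤ × ℤ) : s.rev.inF v ↔ ¬ s.inF (-v - s.head.vec) := by
  obtain ⟨x, y⟩ := v
  cases s with
  | N u v => cases u <;> cases v <;> simp only [rev, inF, head, Hd.vec, Prod.fst_sub, Prod.snd_sub,
      Prod.fst_neg, Prod.snd_neg] <;> constructor <;> intro h <;> simp at h ⊢ <;> omega
  | S u v => cases u <;> cases v <;> simp only [rev, inF, head, Hd.vec, Prod.fst_sub, Prod.snd_sub,
      Prod.fst_neg, Prod.snd_neg] <;> constructor <;> intro h <;> simp at h ⊢ <;> omega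
  | E a b c d => cases a <;> cases b <;> cases c <;> cases d <;>
      simp only [rev, inF, head, Hd.vec, Prod.fst_sub, Prod.snd_sub,
      Prod.fst_neg, Prod.snd_neg] <;> constructor <;> intro h <;> simp at h ⊢ <;> omega

end St

namespace Hd

/-- Exchange of north and south. -/
def flip : Hd → Hd
  | E => E | W => W | N => S | S => N

@[simp] theorem flip_flip (h : Hd) : h.flip.flip = h := by cases h <;> rfl

theorem flip_opp (h : Hd) : h.opp.flip = h.flip.opp := by cases h <;> rfl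

theorem vec_flip (h : Hd) : h.flip.vec = (h.vec.1, -h.vec.2) := by cases h <;> rfl

end Hd

/-- Mirror image of a placed face. -/
def Pl.mir (p : Pl) : Pl := ⟨p.face, (p.pos.1, -p.pos.2), p.east⟩

/-- Rotation by 180 degrees, `c` goes to the origin. -/
def Pl.turn (c : ℤ × ℤ) (p : Pl) : Pl := ⟨p.face, c - p.pos, p.east.neg⟩

theorem dirOf_mir (σ : Bool) (p : Pl) (h : Hd) : dirOf (!σ) p.mir h = dirOf σ p h.flip := by
  cases σ <;> cases h <;> rfl

theorem dirH_turn : ∀ (σ : Bool) (d e : Dir) (h : Hd), Dir.perp d e = true →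
    dirH σ d e.neg h = dirH σ d e h.opp := by decide

theorem dirOf_turn (σ : Bool) (p : Pl) (c : ℤ × ℤ) (h : Hd)
    (hp : Dir.perp p.face.2 p.east = true) : dirOf σ (p.turn c) h = dirOf σ p h.opp :=
  dirH_turn σ _ _ h hp

theorem perp_neg : ∀ d e : Dir, Dir.perp d e.neg = Dir.perp d e := by decide

theorem Glue.mir {P : Finset Cube} {σ : Bool} {a b : Pl} (h : Glue P σ a b) :
    Glue P (!σ) a.mir b.mir := by
  obtain ⟨hd, h1, h2⟩ := h
  refine ⟨hd.flip, ?_, ?_⟩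
  · simp only [Pl.mir, h1, Hd.vec_flip, Prod.fst_add, Prod.snd_add]
    ext
    · rfl
    · simp only [Prod.snd_add]; ring
  · rw [dirOf_mir, dirOf_mir, Hd.flip_flip, ← Hd.flip_opp, Hd.flip_flip]
    exact h2

theorem Glue.turn {P : Finset Cube} {σ : Bool} {a b : Pl} (c : ℤ × ℤ)
    (ha : Dir.perp a.face.2 a.east = true) (hb : Dir.perp b.face.2 b.east = true)
    (h : Glue P σ a b) : Glue P σ (a.turn c) (b.turn c) := by
  obtain ⟨hd, h1, h2⟩ := h
  refine ⟨hd.opp, ?_, ?_⟩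
  · simp only [Pl.turn, h1, Hd.vec_opp]; abel
  · rw [dirOf_turn σ a c _ ha, dirOf_turn σ b c _ hb, Hd.opp_opp]
    exact h2

theorem Conn.image {P : Finset Cube} {σ τ : Bool} {L : Set Pl} (f : Pl → Pl)
    (hf : ∀ a ∈ L, ∀ b ∈ L, Glue P σ a b → Glue P τ (f a) (f b)) (hL : Conn P σ L) :
    Conn P τ (f '' L) := by
  rintro _ ⟨a, ha, rfl⟩ _ ⟨b, hb, rfl⟩
  refine Relation.ReflTransGen.lift f ?_ _ _ (hL a ha b hb)
  rintro x y ⟨hx, hy, hg⟩
  exact ⟨⟨x, hx, rfl⟩, ⟨y, hy, rfl⟩, hg.imp (hf x hx y hy) (hf y hy x hx)⟩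

/-- Mirror image of a piece. -/
theorem Piece.mir {P : Finset Cube} {σ : Bool} {FF : Set Face} {a b : Side} {s t : St}
    {R : Option Side} (h : Piece P σ FF a s b t R) : Piece P (!σ) FF a s.mir b t.mir R := by
  obtain ⟨L, q, w, h1, h2, h3, h4, h5, h6, h7, h8, h9, h10⟩ := h
  have hm : ∀ v : ℤ × ℤ, (v.1, -v.2) - (q.1, -q.2) = ((v - q).1, -(v - q).2) := by
    intro v
    ext
    · simp
    · simp; ring
  refine ⟨Pl.mir '' L, (q.1, -q.2), (w.1, -w.2), ?_, ?_, ?_, ?_, ?_, ?_, ?_, ?_, ?_, ?_⟩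
  · intro A
    rw [h1 A]
    constructor
    · rintro ⟨p, hp, e⟩
      exact ⟨p.mir, ⟨p, hp, rfl⟩, e⟩
    · rintro ⟨_, ⟨p, hp, rfl⟩, e⟩
      exact ⟨p, hp, e⟩
  · rintro _ ⟨p, hp, rfl⟩ _ ⟨p', hp', rfl⟩ e
    rw [h2 p hp p' hp' e]
  · rintro _ ⟨p, hp, rfl⟩ _ ⟨p', hp', rfl⟩ e
    have : p.pos = p'.pos := by
      simp only [Pl.mir, Prod.mk.injEq, neg_inj] at e
      exact Prod.ext e.1 e.2
    rw [h3 p hp p' hp' this]
  · rintro _ ⟨p, hp, rfl⟩
    exact h4 p hp
  · rintro _ ⟨p, hp, rfl⟩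
    refine ⟨(St.inF_mir s p.pos).2 (h5 p hp).1, ?_⟩
    have : (p.mir).pos - (q.1, -q.2) = ((p.pos - q).1, -(p.pos - q).2) := hm p.pos
    rw [this, St.inF_mir]
    exact (h5 p hp).2
  · intro v hv
    have e1 : v = ((v.1, -v.2).1, -(v.1, -v.2).2) := by ext <;> simp
    have e2 : v - (q.1, -q.2) = (((v.1, -v.2) - q).1, -((v.1, -v.2) - q).2) := by
      rw [← hm (v.1, -v.2)]
      simp
    rw [e2, St.inF_mir] at hv
    rw [e1, St.inF_mir]
    exact h6 _ hv
  · exact Conn.image Pl.mir (fun a _ b _ hg => Glue.mir hg) h7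
  · obtain ⟨p, hp, e1, e2, e3⟩ := h8
    refine ⟨p.mir, ⟨p, hp, rfl⟩, e1, ?_, ?_⟩
    · simp [Pl.mir, e2]
    · rw [dirOf_mir, ← e3]
      congr 1
      cases s <;> rfl
  · obtain ⟨p, hp, e1, e2, e3⟩ := h9
    refine ⟨p.mir, ⟨p, hp, rfl⟩, e1, ?_, ?_⟩
    · rw [← e2]
      cases t <;> simp [Pl.mir, St.mir, St.head, Hd.vec] <;> ring
    · rw [dirOf_mir, ← e3]
      congr 1
      cases t <;> rfl
  · intro r hr
    obtain ⟨m1, m2, m3, p, hp, hd, m4, m5, m6⟩ := h10 r hr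
    refine ⟨(St.inF_mir s w).2 m1, ?_, ?_, p.mir, ⟨p, hp, rfl⟩, hd.flip, m4, ?_, ?_⟩
    · rw [hm w, St.inF_mir]
      exact m2
    · rintro _ ⟨p, hp, rfl⟩ e
      refine m3 p hp ?_
      simp only [Pl.mir, Prod.mk.injEq, neg_inj] at e
      exact Prod.ext e.1 e.2
    · rw [dirOf_mir, Hd.flip_flip]; exact m5
    · simp only [Pl.mir, m6, Hd.vec_flip]
      ext
      · rfl
      · simp; ring

/-- Reversal of a piece. -/
theorem Piece.rev {P : Finset Cube} {σ : Bool} {FF : Set Face} {a b : Side} {s t : St}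
    {R : Option Side} (h : Piece P σ FF a s b t R) : Piece P σ FF b t.rev a s.rev R := by
  obtain ⟨L, q, w, h1, h2, h3, h4, h5, h6, h7, h8, h9, h10⟩ := h
  set c : ℤ × ℤ := q - t.head.vec with hc
  have hq : q = c + t.head.vec := by rw [hc]; abel
  have hT : ∀ v : ℤ × ℤ, t.rev.inF (c - v) ↔ ¬ t.inF (v - q) := by
    intro v
    rw [St.inF_rev]
    have : -(c - v) - t.head.vec = v - q := by rw [hq]; abel
    rw [this]
  have hS : ∀ v : ℤ × ℤ, s.rev.inF (c - v - (c + s.head.vec)) ↔ ¬ s.inF v := by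
    intro v
    rw [St.inF_rev]
    have : -(c - v - (c + s.head.vec)) - s.head.vec = v := by abel
    rw [this]
  refine ⟨Pl.turn c '' L, c + s.head.vec, c - w, ?_, ?_, ?_, ?_, ?_, ?_, ?_, ?_, ?_, ?_⟩
  · intro A
    rw [h1 A]
    constructor
    · rintro ⟨p, hp, e⟩
      exact ⟨p.turn c, ⟨p, hp, rfl⟩, e⟩
    · rintro ⟨_, ⟨p, hp, rfl⟩, e⟩
      exact ⟨p, hp, e⟩
  · rintro _ ⟨p, hp, rfl⟩ _ ⟨p', hp', rfl⟩ e
    rw [h2 p hp p' hp' e]
  · rintro _ ⟨p, hp, rfl⟩ _ ⟨p', hp', rfl⟩ e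
    have : p.pos = p'.pos := by
      simp only [Pl.turn] at e
      exact sub_right_injective e
    rw [h3 p hp p' hp' this]
  · rintro _ ⟨p, hp, rfl⟩
    have := h4 p hp
    simp only [Pl.turn, perp_neg]
    exact this
  · rintro _ ⟨p, hp, rfl⟩
    refine ⟨(hT p.pos).2 (h5 p hp).2, fun hh => ?_⟩
    exact (hS p.pos).1 hh (h5 p hp).1
  · intro v hv
    have e : v = c - (c - v) := by abel
    rw [e] at hv ⊢
    rw [hS] at hv
    rw [hT]
    exact fun hh => hv (h6 _ hh)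
  · exact Conn.image (Pl.turn c) (fun a ha b hb hg => Glue.turn c (h4 a ha) (h4 b hb) hg) h7
  · obtain ⟨p, hp, e1, e2, e3⟩ := h9
    refine ⟨p.turn c, ⟨p, hp, rfl⟩, e1, ?_, ?_⟩
    · have : c = p.pos := by rw [hc, ← e2]; abel
      simp only [Pl.turn, this]; abel
    · rw [dirOf_turn σ p c _ (h4 p hp), Hd.opp_opp, St.head_rev]
      exact e3
  · obtain ⟨p, hp, e1, e2, e3⟩ := h8
    refine ⟨p.turn c, ⟨p, hp, rfl⟩, e1, ?_, ?_⟩
    · simp only [Pl.turn, e2, St.head_rev, sub_zero]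
    · rw [dirOf_turn σ p c _ (h4 p hp), St.head_rev]
      exact e3
  · intro r hr
    obtain ⟨m1, m2, m3, p, hp, hd, m4, m5, m6⟩ := h10 r hr
    refine ⟨(hT w).2 m2, fun hh => (hS w).1 hh m1, ?_, p.turn c, ⟨p, hp, rfl⟩, hd.opp, m4, ?_, ?_⟩
    · rintro _ ⟨p, hp, rfl⟩ e
      refine m3 p hp ?_
      simp only [Pl.turn] at e
      exact sub_right_injective e
    · rw [dirOf_turn σ p c _ (h4 p hp), Hd.opp_opp]; exact m5
    · simp only [Pl.turn, m6, Hd.vec_opp]; abel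

end Pool.Agent.Helper17.UF
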