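import Pool.Agent.Helper17.UF.Sound
import Pool.Agent.Helper17.UF.Sym

/-!
# Interface of the finite certificate (project UF, MP_409f7f_co)

Classes of branches are bit masks below 32 (bits 0..3: the sides `s0..s3`, bit 4: the side `o`).
An option is a pair `(c, q)` of a class and a member number; `q = 0` unless `c` has exactly one
side child and a top child (`17, 18, 20, 24`), where `q` is `0` (the claims of `Rep 17 0`, seen in
a frame of the same orientation), `1` (the mirror image of these) or `2` (the claims of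
`Rep 17 2`).
-/

namespace Pool.Agent.Helper17.UF

/-- Relabeling of the sides by an element of the dihedral group: the side `s_k` goes to
`s_(r+k)` or to `s_(r-k)`. -/
def Lb.act (m : Bool) (r : Fin 4) : Lb → Lb
  | Lb.s0 => ofIdx r
  | Lb.s1 => if m then ofIdx (r - 1) else ofIdx (r + 1)
  | Lb.s2 => ofIdx (r + 2)
  | Lb.s3 => if m then ofIdx (r + 1) else ofIdx (r - 1)
  | Lb.o => Lb.o
  | Lb.p => Lb.p
where
  ofIdx : Fin 4 → Lb
  | 0 => Lb.s0
  | 1 => Lb.s1
  | 2 => Lb.s2
  | 3 => Lb.s3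

/-- The class `c` has a cube at the side `X`. -/
def has (c : ℕ) : Lb → Bool
  | Lb.s0 => c.testBit 0
  | Lb.s1 => c.testBit 1
  | Lb.s2 => c.testBit 2
  | Lb.s3 => c.testBit 3
  | Lb.o => c.testBit 4
  | Lb.p => false

/-- The relabeling `(m, r)` takes the class `c0` to the class `c`. -/
def imgOK (m : Bool) (r : Fin 4) (c0 c : ℕ) : Bool :=
  [Lb.s0, Lb.s1, Lb.s2, Lb.s3, Lb.o].all fun X => has c (X.act m r) == has c0 X

/-- Mirror image of a state if `m`. -/
def St.mirIf (m : Bool) (s : St) : St := if m then s.mir else s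

/-- Image of a claim under a relabeling. -/
def Clm.act (m : Bool) (r : Fin 4) (κ : Clm) : Clm :=
  ⟨κ.i.act m r, κ.s.mirIf m, κ.j.act m r, κ.g.map (Lb.act m r), κ.t.mirIf m⟩

/-- Reversal of a claim. -/
def Clm.rev (κ : Clm) : Clm := ⟨κ.j, κ.t.rev, κ.i, κ.g, κ.s.rev⟩

def Clm.revIf (b : Bool) (κ : Clm) : Clm := if b then κ.rev else κ

/-- `κ` implies `τ` by weakening. -/
def Clm.leB (κ τ : Clm) : Bool :=
  decide (κ.i = τ.i) && decide (κ.j = τ.j) && κ.s.leB τ.s && τ.t.leB κ.t &&
    (decide (κ.g = τ.g) || decide (τ.g = none))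

/-- Classes with exactly one side child and a top child. -/
def isTwo (c : ℕ) : Bool := c == 17 || c == 18 || c == 20 || c == 24

/-- Member of the image of a member. -/
def memImg (m : Bool) (c0 q0 : ℕ) : ℕ := if c0 = 17 ∧ q0 = 0 ∧ m = true then 1 else q0

/-- Canonical classes. -/
def canon : List ℕ := [0, 16, 1, 31, 3, 17, 5, 19, 15, 23, 7, 21]

/-- A family of claims: `Rep c q` for the canonical classes `c`. -/
abbrev Family := ℕ → ℕ → List Clm

/-- The claim `τ` is available for the option `(c, q)`. -/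
def Avail (Rep : Family) (c q : ℕ) (τ : Clm) : Prop :=
  ∃ c0 ∈ canon, ∃ q0 : ℕ, (c0 = 17 → q0 = 0 ∨ q0 = 2) ∧ (c0 ≠ 17 → q0 = 0) ∧
    ∃ κ ∈ Rep c0 q0, ∃ (m : Bool) (r : Fin 4) (rv : Bool), imgOK m r c0 c = true ∧
      memImg m c0 q0 = q ∧ ((κ.act m r).revIf rv).leB τ = true

/-- Allowed options of the child at the side `X` of a cube of class `c`. -/
def okOpt (c : ℕ) (X : Lb) (k : ℕ × ℕ) : Bool :=
  decide (k.1 < 32) && (if isTwo k.1 then decide (k.2 < 3) else decide (k.2 = 0)) &&
    ([Lb.s0, Lb.s1, Lb.s2, Lb.s3].all fun m =>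
      !(has k.1 m) || (decide (X.ordL m ≠ Lb.p) && !(has c (X.ordL m))))

/-- All the claims of `L` have routes in a cube of class `c` whose children have the options
`K`. -/
def Reach (Rep : Family) (c : ℕ) (K : Lb → ℕ × ℕ) (L : List Clm) : Prop :=
  ∀ κ ∈ L, ∃ steps : List Step,
    routeB (fun X => !(has c X)) κ.j κ.t κ.g steps κ.i Lb.p κ.s [] none = true ∧
    ∀ Xτ ∈ needs steps κ.i, Avail Rep (K Xτ.1).1 (K Xτ.1).2 Xτ.2

/-- Mirror image of a class with respect to the side `s0`. -/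
def mirC (c : ℕ) : ℕ :=
  (if has c Lb.s0 then 1 else 0) + (if has c Lb.s3 then 2 else 0) +
  (if has c Lb.s2 then 4 else 0) + (if has c Lb.s1 then 8 else 0) +
  (if has c Lb.o then 16 else 0)

/-- Mirror image of an option. -/
def mirO (k : ℕ × ℕ) : ℕ × ℕ :=
  (mirC k.1, if isTwo k.1 then (if k.2 = 0 then 1 else if k.2 = 1 then 0 else k.2) else k.2)

/-- The finite certificate. -/
structure Certificate (Rep : Family) : Prop where
  /-- Canonical classes other than 17. -/
  one : ∀ c ∈ canon, c ≠ 17 → ∀ K : Lb → ℕ × ℕ, (∀ X, has c X = true → okOpt c X (K X) = true) →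
    Reach Rep c K (Rep c 0)
  /-- The class 17. -/
  two : ∀ K : Lb → ℕ × ℕ, (∀ X, has 17 X = true → okOpt 17 X (K X) = true) →
    Reach Rep 17 K (Rep 17 0) ∨ Reach Rep 17 (fun X => mirO (K X)) (Rep 17 0) ∨
      (Reach Rep 17 K (Rep 17 2) ∧ Reach Rep 17 (fun X => mirO (K X)) (Rep 17 2))
  /-- Every option has a claim without a reserved cell. -/
  fin : ∀ c < 32, ∀ q : ℕ, (if isTwo c then q < 3 else q = 0) →
    ∃ τ : Clm, τ.g = none ∧ Avail Rep c q τ

end Pool.Agent.Helper17.UF
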