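import Pool.Agent.Helper17.UF.Core

/-!
# Composition of pieces, filling of a reserved cell (project UF, MP_409f7f_co)
-/

namespace Pool.Agent.Helper17.UF

theorem Conn.mono_rel {P : Finset Cube} {σ : Bool} {L L' : Set Pl} (hL : L ⊆ L') {a b : Pl}
    (h : Relation.ReflTransGen
      (fun x y => x ∈ L ∧ y ∈ L ∧ (Glue P σ x y ∨ Glue P σ y x)) a b) :
    Relation.ReflTransGen
      (fun x y => x ∈ L' ∧ y ∈ L' ∧ (Glue P σ x y ∨ Glue P σ y x)) a b :=
  Relation.ReflTransGen.mono (fun _ _ hh => ⟨hL hh.1, hL hh.2.1, hh.2.2⟩) _ _ h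

/-- Two connected sets joined by one gluing. -/
theorem Conn.union {P : Finset Cube} {σ : Bool} {L M : Set Pl} (hL : Conn P σ L)
    (hM : Conn P σ M) {p q : Pl} (hp : p ∈ L) (hq : q ∈ M) (hg : Glue P σ p q) :
    Conn P σ (L ∪ M) := by
  have key : ∀ a ∈ L ∪ M, Relation.ReflTransGen
      (fun x y => x ∈ L ∪ M ∧ y ∈ L ∪ M ∧ (Glue P σ x y ∨ Glue P σ y x)) a p := by
    intro a ha
    rcases ha with ha | ha
    · exact Conn.mono_rel Set.subset_union_left (hL a ha p hp)
    · refine (Conn.mono_rel Set.subset_union_right (hM a ha q hq)).trans ?_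
      exact Relation.ReflTransGen.single ⟨Or.inr hq, Or.inl hp, Or.inr hg⟩
  have key' : ∀ a ∈ L ∪ M, Relation.ReflTransGen
      (fun x y => x ∈ L ∪ M ∧ y ∈ L ∪ M ∧ (Glue P σ x y ∨ Glue P σ y x)) p a := by
    intro a ha
    rcases ha with ha | ha
    · exact Conn.mono_rel Set.subset_union_left (hL p hp a ha)
    · refine Relation.ReflTransGen.trans (Relation.ReflTransGen.single
        ⟨Or.inl hp, Or.inr hq, Or.inl hg⟩) ?_
      exact Conn.mono_rel Set.subset_union_right (hM q hq a ha)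
  exact fun a ha b hb => (key a ha).trans (key' b hb)

theorem Conn.shift {P : Finset Cube} {σ : Bool} {L : Set Pl} (q : ℤ × ℤ) (hL : Conn P σ L) :
    Conn P σ (Pl.shift q '' L) := by
  rintro _ ⟨a, ha, rfl⟩ _ ⟨b, hb, rfl⟩
  refine Relation.ReflTransGen.lift (Pl.shift q) ?_ _ _ (hL a ha b hb)
  rintro x y ⟨hx, hy, hg⟩
  exact ⟨⟨x, hx, rfl⟩, ⟨y, hy, rfl⟩, hg.imp (Glue.shift q) (Glue.shift q)⟩

theorem Conn.singleton (P : Finset Cube) (σ : Bool) (p : Pl) : Conn P σ {p} := by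
  rintro a ha b hb
  rw [Set.mem_singleton_iff] at ha hb
  subst ha; subst hb
  exact Relation.ReflTransGen.refl

/-- Composition of two pieces. -/
theorem Piece.compose {P : Finset Cube} {σ : Bool} {FF GG : Set Face} {a b a' b' : Side}
    {s t s' t' : St} {R R' Rr : Option Side}
    (h : Piece P σ FF a s b t R) (h' : Piece P σ GG a' s' b' t' R')
    (hdis : Disjoint FF GG) (hn : nbr P b.1 b.2 = a') (hst : St.le s' t)
    (hR : Rr = R ∨ Rr = R') :
    Piece P σ (FF ∪ GG) a s b' t' Rr := by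
  obtain ⟨L, q, w, h1, h2, h3, h4, h5, h6, h7, h8, h9, h10⟩ := h
  obtain ⟨M, q', w', k1, k2, k3, k4, k5, k6, k7, k8, k9, k10⟩ := h'
  have hsub : ∀ v : ℤ × ℤ, v - (q + q') = v - q - q' := fun v => by abel
  -- cells of the second part lie in `q + F_t`
  have hM : ∀ p ∈ M, t.inF ((p.shift q).pos - q) := by
    intro p hp
    have : (p.shift q).pos - q = p.pos := by simp [Pl.shift]
    rw [this]
    exact hst.2 _ (k5 p hp).1
  have hnest : ∀ v, t'.inF (v - (q + q')) → t.inF (v - q) := by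
    intro v hv
    rw [hsub] at hv
    exact hst.2 _ (k6 _ hv)
  refine ⟨L ∪ Pl.shift q '' M, q + q', (if Rr = R then w else q + w'), ?_, ?_, ?_, ?_, ?_, ?_, ?_,
    ?_, ?_, ?_⟩
  · intro A
    constructor
    · rintro (hA | hA)
      · obtain ⟨p, hp, e⟩ := (h1 A).1 hA
        exact ⟨p, Or.inl hp, e⟩
      · obtain ⟨p, hp, e⟩ := (k1 A).1 hA
        exact ⟨p.shift q, Or.inr ⟨p, hp, rfl⟩, e⟩
    · rintro ⟨p, hp | ⟨p, hp, rfl⟩, e⟩
      · exact Or.inl ((h1 A).2 ⟨p, hp, e⟩)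
      · exact Or.inr ((k1 A).2 ⟨p, hp, e⟩)
  · rintro p (hp | ⟨p, hp, rfl⟩) p' (hp' | ⟨p', hp', rfl⟩) e
    · exact h2 p hp p' hp' e
    · exfalso
      refine Set.disjoint_left.1 hdis ((h1 p.face).2 ⟨p, hp, rfl⟩) ?_
      exact (k1 _).2 ⟨p', hp', by rw [e]; rfl⟩
    · exfalso
      refine Set.disjoint_left.1 hdis ((h1 p'.face).2 ⟨p', hp', rfl⟩) ?_
      exact (k1 _).2 ⟨p, hp, by rw [← e]; rfl⟩
    · rw [k2 p hp p' hp' e]
  · rintro p (hp | ⟨p, hp, rfl⟩) p' (hp' | ⟨p', hp', rfl⟩) e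
    · exact h3 p hp p' hp' e
    · exfalso
      exact (h5 p hp).2 (by rw [e]; exact hM p' hp')
    · exfalso
      exact (h5 p' hp').2 (by rw [← e]; exact hM p hp)
    · have : p.pos = p'.pos := by
        simp only [Pl.shift] at e
        exact add_left_cancel e
      rw [k3 p hp p' hp' this]
  · rintro p (hp | ⟨p, hp, rfl⟩)
    · exact h4 p hp
    · exact k4 p hp
  · rintro p (hp | ⟨p, hp, rfl⟩)
    · exact ⟨(h5 p hp).1, fun hh => (h5 p hp).2 (hnest _ hh)⟩
    · refine ⟨h6 _ (hM p hp), fun hh => (k5 p hp).2 ?_⟩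
      rw [hsub] at hh
      have : (p.shift q).pos - q = p.pos := by simp [Pl.shift]
      rwa [this] at hh
  · exact fun v hv => h6 _ (hnest v hv)
  · obtain ⟨p, hp, e1, e2, e3⟩ := h9
    obtain ⟨p', hp', f1, f2, f3⟩ := k8
    refine Conn.union h7 (Conn.shift q k7) hp ⟨p', hp', rfl⟩ ?_
    refine ⟨t.head, ?_, ?_⟩
    · simp only [Pl.shift, f2, e2, add_zero]
    · rw [dirOf_shift, e1, e3, hn]
      have : (p'.shift q).face = p'.face := rfl
      rw [this, f1, ← hst.1, f3]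
  · obtain ⟨p, hp, e1, e2, e3⟩ := h8
    exact ⟨p, Or.inl hp, e1, e2, e3⟩
  · obtain ⟨p', hp', f1, f2, f3⟩ := k9
    refine ⟨p'.shift q, Or.inr ⟨p', hp', rfl⟩, f1, ?_, ?_⟩
    · simp only [Pl.shift]; rw [← f2]; abel
    · rw [dirOf_shift]; exact f3
  · intro r hr
    by_cases hRR : Rr = R
    · rw [if_pos hRR]
      obtain ⟨m1, m2, m3, p, hp, hd, m4, m5, m6⟩ := h10 r (by rw [← hRR]; exact hr)
      refine ⟨m1, fun hh => m2 (hnest _ hh), ?_, p, Or.inl hp, hd, m4, m5, m6⟩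
      rintro p0 (hp0 | ⟨p0, hp0, rfl⟩) e
      · exact m3 p0 hp0 e
      · exact m2 (by rw [← e]; exact hM p0 hp0)
    · rw [if_neg hRR]
      have hRR' : Rr = R' := hR.resolve_left hRR
      obtain ⟨m1, m2, m3, p, hp, hd, m4, m5, m6⟩ := k10 r (by rw [← hRR']; exact hr)
      have hw : t.inF (q + w' - q) := by
        have : q + w' - q = w' := by abel
        rw [this]
        exact hst.2 _ m1
      refine ⟨h6 _ hw, ?_, ?_, p.shift q, Or.inr ⟨p, hp, rfl⟩, hd, m4, ?_, ?_⟩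
      · intro hh
        rw [hsub] at hh
        have : q + w' - q = w' := by abel
        rw [this] at hh
        exact m2 hh
      · rintro p0 (hp0 | ⟨p0, hp0, rfl⟩) e
        · exact (h5 p0 hp0).2 (by rw [e]; exact hw)
        · simp only [Pl.shift] at e
          exact m3 p0 hp0 (add_left_cancel e)
      · rw [dirOf_shift]; exact m5
      · simp only [Pl.shift, m6]; abel

/-- Filling the reserved cell with the face across the reserved side. -/
theorem Piece.fill {P : Finset Cube} {σ : Bool} {FF : Set Face} {a b r : Side} {s t : St}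
    (h : Piece P σ FF a s b t (some r)) {C : Face} {back : Dir}
    (hn : nbr P r.1 r.2 = (C, back)) (hC : C ∉ FF) (hperp : Dir.perp C.2 back = true) :
    Piece P σ (FF ∪ {C}) a s b t none := by
  obtain ⟨L, q, w, h1, h2, h3, h4, h5, h6, h7, h8, h9, h10⟩ := h
  obtain ⟨m1, m2, m3, p, hp, hd, m4, m5, m6⟩ := h10 r rfl
  -- the placement of `C` whose side facing back is `back`
  obtain ⟨e, he, heq⟩ := exists_east σ hd.opp C.2 back hperp
  set c : Pl := ⟨C, w, e⟩ with hc
  have hg : Glue P σ p c := by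
    refine ⟨hd, m6, ?_⟩
    rw [m4, m5, hn]
    exact Prod.ext rfl heq.symm
  refine ⟨L ∪ {c}, q, w, ?_, ?_, ?_, ?_, ?_, h6, ?_, ?_, ?_, by simp⟩
  · intro A
    constructor
    · rintro (hA | hA)
      · obtain ⟨p, hp, e⟩ := (h1 A).1 hA
        exact ⟨p, Or.inl hp, e⟩
      · exact ⟨c, Or.inr rfl, hA.symm⟩
    · rintro ⟨p, hp | hp, e⟩
      · exact Or.inl ((h1 A).2 ⟨p, hp, e⟩)
      · rw [Set.mem_singleton_iff] at hp
        subst hp
        exact Or.inr e.symm
  · rintro x (hx | hx) y (hy | hy) e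
    · exact h2 x hx y hy e
    · rw [Set.mem_singleton_iff] at hy
      subst hy
      exact absurd ((h1 C).2 ⟨x, hx, e⟩) hC
    · rw [Set.mem_singleton_iff] at hx
      subst hx
      exact absurd ((h1 C).2 ⟨y, hy, e.symm⟩) hC
    · rw [Set.mem_singleton_iff] at hx hy
      rw [hx, hy]
  · rintro x (hx | hx) y (hy | hy) e
    · exact h3 x hx y hy e
    · rw [Set.mem_singleton_iff] at hy
      subst hy
      exact absurd e (m3 x hx)
    · rw [Set.mem_singleton_iff] at hx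
      subst hx
      exact absurd e.symm (m3 y hy)
    · rw [Set.mem_singleton_iff] at hx hy
      rw [hx, hy]
  · rintro x (hx | hx)
    · exact h4 x hx
    · rw [Set.mem_singleton_iff] at hx
      subst hx
      exact he
  · rintro x (hx | hx)
    · exact h5 x hx
    · rw [Set.mem_singleton_iff] at hx
      subst hx
      exact ⟨m1, m2⟩
  · exact Conn.union h7 (Conn.singleton P σ c) hp rfl hg
  · obtain ⟨p, hp, e1, e2, e3⟩ := h8
    exact ⟨p, Or.inl hp, e1, e2, e3⟩
  · obtain ⟨p, hp, e1, e2, e3⟩ := h9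
    exact ⟨p, Or.inl hp, e1, e2, e3⟩

end Pool.Agent.Helper17.UF
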