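import Mathlib

/-!
# Polycubes, faces, development (project UF, MP_409f7f_co)
-/

namespace Pool.Agent.Helper17.UF

/-- Lattice points (cubes are indexed by their lower corner). -/
abbrev Cube := ℤ × ℤ × ℤ

/-- The six axis directions. -/
inductive Dir | px | nx | py | ny | pz | nz
  deriving DecidableEq, Fintype

namespace Dir

def neg : Dir → Dir
  | px => nx | nx => px | py => ny | ny => py | pz => nz | nz => pz

def vec : Dir → Cube
  | px => (1, 0, 0) | nx => (-1, 0, 0) | py => (0, 1, 0) | ny => (0, -1, 0)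
  | pz => (0, 0, 1) | nz => (0, 0, -1)

def axis : Dir → Fin 3
  | px => 0 | nx => 0 | py => 1 | ny => 1 | pz => 2 | nz => 2

/-- Cross product of two perpendicular directions (junk value for parallel ones). -/
def cross : Dir → Dir → Dir
  | px, py => pz | px, ny => nz | px, pz => ny | px, nz => py
  | nx, py => nz | nx, ny => pz | nx, pz => py | nx, nz => ny
  | py, px => nz | py, nx => pz | py, pz => px | py, nz => nx
  | ny, px => pz | ny, nx => nz | ny, pz => nx | ny, nz => px
  | pz, px => py | pz, nx => ny | pz, py => nx | pz, ny => px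
  | nz, px => ny | nz, nx => py | nz, py => px | nz, ny => nx
  | a, _ => a

def perp (a b : Dir) : Bool := decide (a.axis ≠ b.axis)

@[simp] theorem neg_neg (a : Dir) : a.neg.neg = a := by cases a <;> rfl

theorem vec_neg (a : Dir) : a.neg.vec = -a.vec := by cases a <;> rfl

end Dir

/-- A face is a cube together with an outward direction. -/
abbrev Face := Cube × Dir

/-- The boundary faces of a polycube. -/
def IsFace (P : Finset Cube) (A : Face) : Prop := A.1 ∈ P ∧ A.1 + A.2.vec ∉ P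

/-- Crossing the side `t` of the face `A`: the next face and the direction that leads back. -/
def nbr (P : Finset Cube) (A : Face) (t : Dir) : Face × Dir :=
  if A.1 + t.vec + A.2.vec ∈ P then ((A.1 + t.vec + A.2.vec, t.neg), A.2.neg)
  else if A.1 + t.vec ∈ P then ((A.1 + t.vec, A.2), t.neg)
  else ((A.1, t), A.2)

/-- Headings in the plane. -/
inductive Hd | E | N | W | S
  deriving DecidableEq, Fintype

namespace Hd

def opp : Hd → Hd
  | E => W | W => E | N => S | S => N

def vec : Hd → ℤ × ℤ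
  | E => (1, 0) | W => (-1, 0) | N => (0, 1) | S => (0, -1)

@[simp] theorem opp_opp (h : Hd) : h.opp.opp = h := by cases h <;> rfl

theorem vec_opp (h : Hd) : h.opp.vec = -h.vec := by cases h <;> rfl

end Hd

/-- A placed face: position of its unit cell and the direction of space that points east. -/
structure Pl where
  face : Face
  pos : ℤ × ℤ
  east : Dir

/-- The direction of space that corresponds to a heading on a face with normal `d` and east
direction `e`; `σ = true` is the outer orientation. -/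
def dirH (σ : Bool) (d e : Dir) : Hd → Dir
  | Hd.E => e
  | Hd.W => e.neg
  | Hd.N => if σ then Dir.cross d e else (Dir.cross d e).neg
  | Hd.S => if σ then (Dir.cross d e).neg else Dir.cross d e

/-- The direction of space that corresponds to a heading on a placed face. -/
def dirOf (σ : Bool) (p : Pl) (h : Hd) : Dir := dirH σ p.face.2 p.east h

theorem exists_east : ∀ (σ : Bool) (hd : Hd) (d back : Dir), Dir.perp d back = true →
    ∃ e : Dir, Dir.perp d e = true ∧ dirH σ d e hd = back := by decide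

/-- `b` is placed next to `a` in heading `h`, as the development of the surface prescribes. -/
def Glue (P : Finset Cube) (σ : Bool) (a b : Pl) : Prop :=
  ∃ h : Hd, b.pos = a.pos + h.vec ∧ nbr P a.face (dirOf σ a h) = (b.face, dirOf σ b h.opp)

/-- Any two members of `L` are joined by gluings inside `L`. -/
def Conn (P : Finset Cube) (σ : Bool) (L : Set Pl) : Prop :=
  ∀ a ∈ L, ∀ b ∈ L, Relation.ReflTransGen
    (fun x y => x ∈ L ∧ y ∈ L ∧ (Glue P σ x y ∨ Glue P σ y x)) a b

/-- Separator states. -/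
inductive St
  | N (u v : Bool)
  | S (u v : Bool)
  | E (a b c d : Bool)
  deriving DecidableEq

namespace St

def head : St → Hd
  | N _ _ => Hd.N
  | S _ _ => Hd.S
  | E _ _ _ _ => Hd.E

/-- The region of a state. -/
def inF : St → ℤ × ℤ → Prop
  | N u v, w => 2 ≤ w.1 ∨ (w.1 = 1 ∧ (0 ≤ w.2 ∨ u = false)) ∨ (w.1 = 0 ∧ 0 ≤ w.2) ∨
      (w.1 = -1 ∧ 0 ≤ w.2 ∧ v = true)
  | S u v, w => 2 ≤ w.1 ∨ (w.1 = 1 ∧ (w.2 ≤ 0 ∨ u = false)) ∨ (w.1 = 0 ∧ w.2 ≤ 0) ∨
      (w.1 = -1 ∧ w.2 ≤ 0 ∧ v = true)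
  | E a b c d, w => 1 ≤ w.1 ∨ (w.1 = 0 ∧ (w.2 = 0 ∨ (0 < w.2 ∧ a = false) ∨
      (w.2 < 0 ∧ b = false))) ∨ (w.1 = -1 ∧ ((0 < w.2 ∧ c = true) ∨ (w.2 < 0 ∧ d = true)))

end St

/-- A side of a face: a face with one of the directions perpendicular to its normal. -/
abbrev Side := Face × Dir

/-- Translation of a placed face. -/
def Pl.shift (q : ℤ × ℤ) (p : Pl) : Pl := ⟨p.face, q + p.pos, p.east⟩

/-- A piece of net for the set of faces `FF`, entered over the side `a` in state `s` and left over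
the side `b` in state `t`, with an optional reserved cell across the side in `R`. -/
def Piece (P : Finset Cube) (σ : Bool) (FF : Set Face) (a : Side) (s : St) (b : Side) (t : St)
    (R : Option Side) : Prop :=
  ∃ (L : Set Pl) (q : ℤ × ℤ) (w : ℤ × ℤ),
    (∀ A, A ∈ FF ↔ ∃ p ∈ L, p.face = A) ∧
    (∀ p ∈ L, ∀ p' ∈ L, p.face = p'.face → p = p') ∧
    (∀ p ∈ L, ∀ p' ∈ L, p.pos = p'.pos → p = p') ∧
    (∀ p ∈ L, Dir.perp p.face.2 p.east = true) ∧
    (∀ p ∈ L, s.inF p.pos ∧ ¬ t.inF (p.pos - q)) ∧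
    (∀ v, t.inF (v - q) → s.inF v) ∧
    Conn P σ L ∧
    (∃ p ∈ L, p.face = a.1 ∧ p.pos = 0 ∧ dirOf σ p s.head.opp = a.2) ∧
    (∃ p ∈ L, p.face = b.1 ∧ p.pos + t.head.vec = q ∧ dirOf σ p t.head = b.2) ∧
    (∀ r, R = some r → s.inF w ∧ ¬ t.inF (w - q) ∧ (∀ p ∈ L, p.pos ≠ w) ∧
      ∃ p ∈ L, ∃ h : Hd, p.face = r.1 ∧ dirOf σ p h = r.2 ∧ w = p.pos + h.vec)

/-- Inclusion of regions, same heading. -/
def St.le (s s' : St) : Prop := s.head = s'.head ∧ ∀ v, s.inF v → s'.inF v

theorem Glue.shift {P : Finset Cube} {σ : Bool} {a b : Pl} (q : ℤ × ℤ) (h : Glue P σ a b) :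
    Glue P σ (a.shift q) (b.shift q) := by
  obtain ⟨hd, h1, h2⟩ := h
  refine ⟨hd, ?_, ?_⟩
  · simp only [Pl.shift, h1]; abel
  · exact h2

theorem dirOf_shift (σ : Bool) (p : Pl) (q : ℤ × ℤ) (h : Hd) :
    dirOf σ (p.shift q) h = dirOf σ p h := rfl

/-- Weakening: a larger entry region and a smaller exit region. -/
theorem Piece.weaken {P : Finset Cube} {σ : Bool} {FF : Set Face} {a b : Side} {s t s' t' : St}
    {R : Option Side} (h : Piece P σ FF a s b t R) (hs : St.le s s') (ht : St.le t' t) :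
    Piece P σ FF a s' b t' R := by
  obtain ⟨L, q, w, h1, h2, h3, h4, h5, h6, h7, h8, h9, h10⟩ := h
  refine ⟨L, q, w, h1, h2, h3, h4, ?_, ?_, h7, ?_, ?_, ?_⟩
  · exact fun p hp => ⟨hs.2 _ (h5 p hp).1, fun hh => (h5 p hp).2 (ht.2 _ hh)⟩
  · exact fun v hv => hs.2 _ (h6 v (ht.2 _ hv))
  · obtain ⟨p, hp, e1, e2, e3⟩ := h8
    exact ⟨p, hp, e1, e2, by rw [← hs.1]; exact e3⟩
  · obtain ⟨p, hp, e1, e2, e3⟩ := h9
    exact ⟨p, hp, e1, by rw [ht.1]; exact e2, by rw [ht.1]; exact e3⟩
  · intro r hr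
    obtain ⟨k1, k2, k3, k4⟩ := h10 r hr
    exact ⟨hs.2 _ k1, fun hh => k2 (ht.2 _ hh), k3, k4⟩

/-- Forgetting a reserved cell. -/
theorem Piece.forget {P : Finset Cube} {σ : Bool} {FF : Set Face} {a b : Side} {s t : St}
    {R : Option Side} (h : Piece P σ FF a s b t R) : Piece P σ FF a s b t none := by
  obtain ⟨L, q, w, h1, h2, h3, h4, h5, h6, h7, h8, h9, h10⟩ := h
  exact ⟨L, q, w, h1, h2, h3, h4, h5, h6, h7, h8, h9, by simp⟩

end Pool.Agent.Helper17.UF
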