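import Pool.Agent.Helper17.UF.Geom

/-!
# A combinatorial net gives an edge unfolding (project UF, MP_409f7f_co)
-/

namespace Pool.Agent.Helper17.UF

/-- The map of a placed face to the plane. -/
noncomputable def plc (σ : Bool) (p : Pl) (x : E3) : E2 :=
  !₂[(p.pos.1 : ℝ) + (co (dirOf σ p Hd.E) x - base (dirOf σ p Hd.E) p.face.1),
    (p.pos.2 : ℝ) + (co (dirOf σ p Hd.N) x - base (dirOf σ p Hd.N) p.face.1)]

/-- Coordinate of the plane along a heading. -/
noncomputable def coH : Hd → E2 → ℝ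
  | Hd.E, z => z 0
  | Hd.W, z => -z 0
  | Hd.N, z => z 1
  | Hd.S, z => -z 1

/-- Minimal value of the coordinate on a unit cell. -/
def baseH : Hd → ℤ × ℤ → ℤ
  | Hd.E, q => q.1
  | Hd.W, q => -q.1 - 1
  | Hd.N, q => q.2
  | Hd.S, q => -q.2 - 1

theorem dirH_W (σ : Bool) (d e : Dir) : dirH σ d e Hd.W = (dirH σ d e Hd.E).neg := rfl

theorem dirH_S : ∀ (σ : Bool) (d e : Dir), dirH σ d e Hd.S = (dirH σ d e Hd.N).neg := by decide

theorem coH_plc (σ : Bool) (p : Pl) (x : E3) (h : Hd) :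
    coH h (plc σ p x) = baseH h p.pos + (co (dirOf σ p h) x - base (dirOf σ p h) p.face.1) := by
  cases h with
  | E => simp [coH, plc, baseH]
  | N => simp [coH, plc, baseH]
  | W =>
    have : dirOf σ p Hd.W = (dirOf σ p Hd.E).neg := dirH_W σ _ _
    rw [this, co_neg, base_neg]
    simp only [coH, plc, baseH]
    push_cast
    simp
    ring
  | S =>
    have : dirOf σ p Hd.S = (dirOf σ p Hd.N).neg := dirH_S σ _ _
    rw [this, co_neg, base_neg]
    simp only [coH, plc, baseH]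
    push_cast
    simp
    ring

theorem coH_opp (h : Hd) (z : E2) : coH h.opp z = -coH h z := by
  cases h <;> simp [coH, Hd.opp]

theorem baseH_opp (h : Hd) (q : ℤ × ℤ) : baseH h.opp q = -baseH h q - 1 := by
  cases h <;> simp [baseH, Hd.opp]

/-- Rotation of a heading. -/
def Hd.left : Hd → Hd
  | Hd.E => Hd.N | Hd.N => Hd.W | Hd.W => Hd.S | Hd.S => Hd.E

theorem baseH_add (h : Hd) (q : ℤ × ℤ) : baseH h (q + h.vec) = baseH h q + 1 := by
  obtain ⟨a, b⟩ := q
  cases h <;> simp [baseH, Hd.vec] <;> ring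

theorem baseH_left (h : Hd) (q : ℤ × ℤ) : baseH h.left (q + h.vec) = baseH h.left q := by
  obtain ⟨a, b⟩ := q
  cases h <;> simp [baseH, Hd.vec, Hd.left]

theorem E2_ext {z w : E2} (h : Hd) (h1 : coH h z = coH h w) (h2 : coH h.left z = coH h.left w) :
    z = w := by
  have key : z 0 = w 0 ∧ z 1 = w 1 := by
    cases h <;> simp only [coH, Hd.left, neg_inj] at h1 h2
    · exact ⟨h1, h2⟩
    · exact ⟨h2, h1⟩
    · exact ⟨h1, h2⟩
    · exact ⟨h2, h1⟩
  ext i
  fin_cases i
  · exact key.1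
  · exact key.2

theorem dirH_left : ∀ (σ : Bool) (d e : Dir), Dir.perp d e = true → ∀ h : Hd,
    dirH σ d e h.left = crσ σ d (dirH σ d e h) := by decide

theorem perp_dirH : ∀ (σ : Bool) (d e : Dir), Dir.perp d e = true → ∀ h : Hd,
    Dir.perp d (dirH σ d e h) = true := by decide

theorem crσ_nbr {P : Finset Cube} {v : Cube} (σ : Bool) {d t : Dir} (h : Dir.perp d t = true) :
    crσ σ (nbr P (v, d) t).1.2 (nbr P (v, d) t).2 = (crσ σ d t).neg := by
  have k1 : ∀ (σ : Bool) (d t : Dir), Dir.perp d t = true →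
      crσ σ t.neg d.neg = (crσ σ d t).neg ∧ crσ σ d t.neg = (crσ σ d t).neg ∧
      crσ σ t d = (crσ σ d t).neg := by decide
  obtain ⟨a, b, c⟩ := k1 σ d t h
  rcases nbr_cases P v d t with ⟨-, e⟩ | ⟨-, -, e⟩ | ⟨-, -, e⟩
  · rw [e]; exact a
  · rw [e]; exact b
  · rw [e]; exact c

theorem base_nbr {P : Finset Cube} {v : Cube} (σ : Bool) {d t : Dir} (h : Dir.perp d t = true) :
    base (crσ σ d t) (nbr P (v, d) t).1.1 = base (crσ σ d t) v := by
  have k1 : ∀ (σ : Bool) (d t : Dir), Dir.perp d t = true →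
      Dir.perp (crσ σ d t) d = true ∧ Dir.perp (crσ σ d t) t = true := by decide
  obtain ⟨a, b⟩ := k1 σ d t h
  rcases nbr_cases P v d t with ⟨-, e⟩ | ⟨-, -, e⟩ | ⟨-, -, e⟩
  · rw [e]
    simp only
    rw [base_perp _ a, base_perp _ b]
  · rw [e]
    simp only
    rw [base_perp _ b]
  · rw [e]

/-- The perpendicularity of the neighbour. -/
theorem perp_nbr {P : Finset Cube} {v : Cube} {d t : Dir} (h : Dir.perp d t = true) :
    Dir.perp (nbr P (v, d) t).1.2 (nbr P (v, d) t).2 = true := by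
  have k1 : ∀ d t : Dir, Dir.perp d t = true → Dir.perp t.neg d.neg = true ∧
      Dir.perp d t.neg = true ∧ Dir.perp t d = true := by decide
  obtain ⟨a, b, c⟩ := k1 d t h
  rcases nbr_cases P v d t with ⟨-, e⟩ | ⟨-, -, e⟩ | ⟨-, -, e⟩
  · rw [e]; exact a
  · rw [e]; exact b
  · rw [e]; exact c

theorem co_of_side {v : Cube} {x : E3} {d t : Dir} (h : Dir.perp d t = true)
    (hx : x ∈ sideOf (v, d) t) : co t x = base t v + 1 := ((mem_side h).1 hx).2.1

/-- Glued faces are developed consistently. -/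
theorem glue_eq {P : Finset Cube} {σ : Bool} {a b : Pl} {h : Hd}
    (ha : Dir.perp a.face.2 a.east = true) (hb : Dir.perp b.face.2 b.east = true)
    (hpos : b.pos = a.pos + h.vec)
    (hn : nbr P a.face (dirOf σ a h) = (b.face, dirOf σ b h.opp)) {x : E3}
    (hx : x ∈ sideOf a.face (dirOf σ a h)) : plc σ a x = plc σ b x := by
  have hat : Dir.perp a.face.2 (dirOf σ a h) = true := perp_dirH σ _ _ ha h
  have hbt : Dir.perp b.face.2 (dirOf σ b h.opp) = true := perp_dirH σ _ _ hb h.opp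
  have hside := side_nbr (P := P) (v := a.face.1) hat
  have hcr := crσ_nbr (P := P) (v := a.face.1) σ hat
  have hbase := base_nbr (P := P) (v := a.face.1) σ hat
  have hn' : nbr P (a.face.1, a.face.2) (dirOf σ a h) = (b.face, dirOf σ b h.opp) := hn
  rw [hn'] at hside hcr hbase
  simp only at hside hcr hbase
  have hxb : x ∈ sideOf b.face (dirOf σ b h.opp) := by rw [hside]; exact hx
  have c1 : co (dirOf σ a h) x = base (dirOf σ a h) a.face.1 + 1 := co_of_side hat hx
  have c2 : co (dirOf σ b h.opp) x = base (dirOf σ b h.opp) b.face.1 + 1 := co_of_side hbt hxb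
  -- the common direction along the edge
  have l1 : dirOf σ a h.left = crσ σ a.face.2 (dirOf σ a h) := dirH_left σ _ _ ha h
  have l2 : dirOf σ b h.opp.left = crσ σ b.face.2 (dirOf σ b h.opp) := dirH_left σ _ _ hb h.opp
  have l3 : dirOf σ b h.opp.left = (dirOf σ b h.left).neg := by
    have key : ∀ (σ : Bool) (d e : Dir) (h : Hd),
        dirH σ d e h.opp.left = (dirH σ d e h.left).neg := by decide
    exact key σ _ _ h
  have l4 : dirOf σ b h.left = dirOf σ a h.left := by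
    have : (dirOf σ b h.left).neg = (dirOf σ a h.left).neg := by
      rw [← l3, l2, hcr, l1]
    have := congrArg Dir.neg this
    rwa [Dir.neg_neg, Dir.neg_neg] at this
  refine E2_ext h ?_ ?_
  · rw [coH_plc, c1]
    have e2 := coH_plc σ b x h.opp
    rw [c2, coH_opp, baseH_opp, hpos, baseH_add] at e2
    push_cast at e2
    linarith
  · rw [coH_plc, coH_plc, l4, hpos, baseH_left, l1, hbase]

/-- The sum of squares of the three coordinates. -/
theorem sq_sum : ∀ (σ : Bool) (d e : Dir), Dir.perp d e = true → ∀ x : E3,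
    (co (dirH σ d e Hd.E) x) ^ 2 + (co (dirH σ d e Hd.N) x) ^ 2 + (co d x) ^ 2 =
      (x 0) ^ 2 + (x 1) ^ 2 + (x 2) ^ 2 := by
  intro σ d e h x
  cases σ <;> cases d <;> cases e <;> first
    | (exact absurd h (by decide))
    | (simp [dirH, Dir.cross, Dir.neg, co]; done)
    | (simp [dirH, Dir.cross, Dir.neg, co]; ring)

theorem co_sub (u : Dir) (x y : E3) : co u (x - y) = co u x - co u y := by
  cases u <;> simp [co] <;> ring

theorem plc_isometry {σ : Bool} {p : Pl} (hp : Dir.perp p.face.2 p.east = true) {x y : E3}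
    (hx : x ∈ square p.face) (hy : y ∈ square p.face) :
    dist (plc σ p x) (plc σ p y) = dist x y := by
  have hd : co p.face.2 (x - y) = 0 := by
    rw [co_sub]
    have h1 := ((mem_square (v := p.face.1) hp).1 hx).1
    have h2 := ((mem_square (v := p.face.1) hp).1 hy).1
    rw [h1, h2]; ring
  have hs := sq_sum σ p.face.2 p.east hp (x - y)
  rw [hd] at hs
  rw [EuclideanSpace.dist_eq, EuclideanSpace.dist_eq]
  congr 1
  rw [Fin.sum_univ_two, Fin.sum_univ_three]
  simp only [Real.dist_eq, sq_abs]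
  have e0 : plc σ p x 0 - plc σ p y 0 = co (dirH σ p.face.2 p.east Hd.E) (x - y) := by
    rw [co_sub]
    simp only [plc]
    simp [dirOf]
  have e1 : plc σ p x 1 - plc σ p y 1 = co (dirH σ p.face.2 p.east Hd.N) (x - y) := by
    rw [co_sub]
    simp only [plc]
    simp [dirOf]
  rw [e0, e1]
  have f0 : x 0 - y 0 = (x - y) 0 := rfl
  have f1 : x 1 - y 1 = (x - y) 1 := rfl
  have f2 : x 2 - y 2 = (x - y) 2 := rfl
  rw [f0, f1, f2]
  linarith

theorem co_square {A : Face} {u : Dir} {x : E3} (hx : x ∈ unitCube A.1) :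
    (base u A.1 : ℝ) ≤ co u x ∧ co u x ≤ base u A.1 + 1 := by
  have key : ∀ u : Dir, ∃ t : Dir, Dir.perp u t = true := by decide
  obtain ⟨t, ht⟩ := key u
  exact ((mem_unitCube ht).1 hx).1

/-- The image of a square lies in its unit cell. -/
theorem plc_cell {σ : Bool} {p : Pl} {z : E2} (hz : z ∈ plc σ p '' square p.face) :
    ((p.pos.1 : ℝ) ≤ z 0 ∧ z 0 ≤ p.pos.1 + 1) ∧ ((p.pos.2 : ℝ) ≤ z 1 ∧ z 1 ≤ p.pos.2 + 1) := by
  obtain ⟨x, hx, rfl⟩ := hz
  have h1 := co_square (A := p.face) (u := dirOf σ p Hd.E) hx.1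
  have h2 := co_square (A := p.face) (u := dirOf σ p Hd.N) hx.1
  have e0 : plc σ p x 0 = (p.pos.1 : ℝ) + (co (dirOf σ p Hd.E) x -
      base (dirOf σ p Hd.E) p.face.1) := by simp [plc]
  have e1 : plc σ p x 1 = (p.pos.2 : ℝ) + (co (dirOf σ p Hd.N) x -
      base (dirOf σ p Hd.N) p.face.1) := by simp [plc]
  rw [e0, e1]
  refine ⟨⟨?_, ?_⟩, ⟨?_, ?_⟩⟩ <;> linarith [h1.1, h1.2, h2.1, h2.2]

theorem interior_lt {S : Set E2} {i : Fin 2} {c : ℝ} (hS : ∀ z ∈ S, z i ≤ c) {z : E2}
    (hz : z ∈ interior S) : z i < c := by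
  rw [mem_interior_iff_mem_nhds, Metric.mem_nhds_iff] at hz
  obtain ⟨ε, hε, hb⟩ := hz
  have hmem : z + EuclideanSpace.single i (ε / 2) ∈ Metric.ball z ε := by
    rw [Metric.mem_ball, dist_eq_norm]
    have : z + EuclideanSpace.single i (ε / 2) - z = EuclideanSpace.single i (ε / 2) := by abel
    rw [this, EuclideanSpace.norm_single, Real.norm_eq_abs, abs_of_pos (by linarith)]
    linarith
  have := hS _ (hb hmem)
  have e : (z + EuclideanSpace.single i (ε / 2)) i = z i + ε / 2 := by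
    simp
  rw [e] at this
  linarith

/-- Cells in different positions have disjoint interiors. -/
theorem disjoint_cells {S S' : Set E2} {q q' : ℤ × ℤ} (hq : q ≠ q')
    (hS : ∀ z ∈ S, ((q.1 : ℝ) ≤ z 0 ∧ z 0 ≤ q.1 + 1) ∧ ((q.2 : ℝ) ≤ z 1 ∧ z 1 ≤ q.2 + 1))
    (hS' : ∀ z ∈ S', ((q'.1 : ℝ) ≤ z 0 ∧ z 0 ≤ q'.1 + 1) ∧
      ((q'.2 : ℝ) ≤ z 1 ∧ z 1 ≤ q'.2 + 1)) :
    Disjoint (interior S) (interior S') := by
  rw [Set.disjoint_left]
  intro z hz hz'
  have a0 := interior_lt (i := 0) (fun w hw => (hS w hw).1.2) hz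
  have a1 := interior_lt (i := 1) (fun w hw => (hS w hw).2.2) hz
  have b0 := interior_lt (i := 0) (fun w hw => (hS' w hw).1.2) hz'
  have b1 := interior_lt (i := 1) (fun w hw => (hS' w hw).2.2) hz'
  have c := hS z (interior_subset hz)
  have c' := hS' z (interior_subset hz')
  apply hq
  have e1 : q.1 = q'.1 := by
    have h1 : (q.1 : ℝ) < q'.1 + 1 := lt_of_le_of_lt c.1.1 b0
    have h2 : (q'.1 : ℝ) < q.1 + 1 := lt_of_le_of_lt c'.1.1 a0
    norm_cast at h1 h2
    omega
  have e2 : q.2 = q'.2 := by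
    have h1 : (q.2 : ℝ) < q'.2 + 1 := lt_of_le_of_lt c.2.1 b1
    have h2 : (q'.2 : ℝ) < q.2 + 1 := lt_of_le_of_lt c'.2.1 a1
    norm_cast at h1 h2
    omega
  exact Prod.ext e1 e2

/-- A combinatorial net gives an edge unfolding. -/
theorem net_unfolding {P : Finset Cube} (hgood : GoodPoly P) {σ : Bool} {L : Set Pl}
    (hL : Net P σ L) : HasEdgeUnfolding P := by
  classical
  obtain ⟨h1, h2, h3, h4, h5⟩ := hL
  -- the placed face of a boundary face
  have hex : ∀ A, IsFace P A → ∃ p ∈ L, p.face = A := fun A hA => (h1 A).1 hA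
  set φ : Face → E3 → E2 := fun A => if h : ∃ p ∈ L, p.face = A then plc σ h.choose else
    fun _ => 0 with hφ
  have hφp : ∀ p ∈ L, φ p.face = plc σ p := by
    intro p hp
    have hh : ∃ p' ∈ L, p'.face = p.face := ⟨p, hp, rfl⟩
    have : hh.choose = p := h2 _ hh.choose_spec.1 _ hp hh.choose_spec.2
    simp only [hφ]
    rw [dif_pos hh, this]
  -- uncut edges
  let U : Set (Set E3) := {e | ∃ a ∈ L, ∃ b ∈ L, ∃ h : Hd, b.pos = a.pos + h.vec ∧
    nbr P a.face (dirOf σ a h) = (b.face, dirOf σ b h.opp) ∧ e = sideOf a.face (dirOf σ a h)}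
  have hUout : ∀ e, IsEdge P e → e ∉ {e | IsEdge P e ∧ e ∉ U} → e ∈ U := by
    intro e he hn
    by_contra hc
    exact hn ⟨he, hc⟩
  refine ⟨{e | IsEdge P e ∧ e ∉ U}, φ, fun e he => he.1, ?_, ?_, ?_, ?_⟩
  · intro A hA x hx y hy
    obtain ⟨p, hp, rfl⟩ := hex A hA
    rw [hφp p hp]
    exact plc_isometry (h4 p hp) hx hy
  · intro A B hA hB e he hne heA heB x hx
    obtain ⟨a, ha, b, hb, h, hpos, hn, rfl⟩ := hUout e he hne
    have hat : Dir.perp a.face.2 (dirOf σ a h) = true := perp_dirH σ _ _ (h4 a ha) h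
    have hFa : IsFace P a.face := (h1 _).2 ⟨a, ha, rfl⟩
    have hg := glue_eq (h4 a ha) (h4 b hb) hpos hn hx
    have key : ∀ C, IsFace P C → sideOf a.face (dirOf σ a h) ⊆ square C →
        φ C x = plc σ a x := by
      intro C hC hs
      rcases faces_of_side hgood hat hFa hC hs with hCe | hCe
      · have : C = a.face := hCe
        rw [this, hφp a ha]
      · have hn' : nbr P (a.face.1, a.face.2) (dirOf σ a h) = (b.face, dirOf σ b h.opp) := hn
        rw [hn'] at hCe
        simp only at hCe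
        rw [hCe, hφp b hb, hg]
    rw [key A hA heA, key B hB heB]
  · intro A B hA hB hAB
    obtain ⟨p, hp, rfl⟩ := hex A hA
    obtain ⟨p', hp', rfl⟩ := hex B hB
    rw [hφp p hp, hφp p' hp']
    refine disjoint_cells (q := p.pos) (q' := p'.pos) ?_ (fun z hz => plc_cell hz)
      (fun z hz => plc_cell hz)
    intro he
    exact hAB (by rw [h3 p hp p' hp' he])
  · intro A B hA hB
    obtain ⟨p, hp, rfl⟩ := hex A hA
    obtain ⟨p', hp', rfl⟩ := hex B hB
    have hstep : ∀ a ∈ L, ∀ b ∈ L, Glue P σ a b → ∃ e, IsEdge P e ∧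
        e ∉ {e | IsEdge P e ∧ e ∉ U} ∧ e ⊆ square a.face ∧ e ⊆ square b.face := by
      intro a ha b hb hg
      obtain ⟨h, hpos, hn⟩ := hg
      have hat : Dir.perp a.face.2 (dirOf σ a h) = true := perp_dirH σ _ _ (h4 a ha) h
      have hFa : IsFace P a.face := (h1 _).2 ⟨a, ha, rfl⟩
      have hU : sideOf a.face (dirOf σ a h) ∈ U := ⟨a, ha, b, hb, h, hpos, hn, rfl⟩
      refine ⟨sideOf a.face (dirOf σ a h), ⟨a.face, _, hFa, hat, rfl⟩, fun hc => hc.2 hU,
        side_subset _ _, ?_⟩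
      have hside := side_nbr (P := P) (v := a.face.1) hat
      have hn' : nbr P (a.face.1, a.face.2) (dirOf σ a h) = (b.face, dirOf σ b h.opp) := hn
      rw [hn'] at hside
      simp only at hside
      have hse : sideOf a.face (dirOf σ a h) = sideOf b.face (dirOf σ b h.opp) := hside.symm
      rw [hse]
      exact side_subset _ _
    refine Relation.ReflTransGen.lift Pl.face ?_ _ _ (h5 p hp p' hp')
    rintro a b ⟨ha, hb, hg⟩
    refine ⟨(h1 _).2 ⟨a, ha, rfl⟩, (h1 _).2 ⟨b, hb, rfl⟩, ?_⟩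
    rcases hg with hg | hg
    · exact hstep a ha b hb hg
    · obtain ⟨e, e1, e2, e3, e4⟩ := hstep b hb a ha hg
      exact ⟨e, e1, e2, e4, e3⟩

end Pool.Agent.Helper17.UF
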