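import Pool.Agent.Helper17.UF.Induct

/-!
# The root step: a net of the whole surface (project UF, MP_409f7f_co)
-/

namespace Pool.Agent.Helper17.UF

/-- A net of the boundary of `P`: every boundary face is placed exactly once, on pairwise
different unit cells, and the placed faces are connected by gluings. -/
def Net (P : Finset Cube) (σ : Bool) (L : Set Pl) : Prop :=
  (∀ A, IsFace P A ↔ ∃ p ∈ L, p.face = A) ∧
  (∀ p ∈ L, ∀ p' ∈ L, p.face = p'.face → p = p') ∧
  (∀ p ∈ L, ∀ p' ∈ L, p.pos = p'.pos → p = p') ∧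
  (∀ p ∈ L, Dir.perp p.face.2 p.east = true) ∧
  Conn P σ L

/-- The cells of an explicit list as placed faces of the cube `y`. -/
theorem cells_conn {P : Finset Cube} {σ : Bool} {n l : Dir} {y : Cube}
    (hnl : Dir.perp n l = true) (hy : y ∈ P) (hgood : GoodPoly P) {cells : List Cell}
    (hperp : ∀ c ∈ cells, c.lab.perp c.e = true)
    (hexp : ∀ c ∈ cells, y + (frame σ n l c.lab).vec ∉ P)
    (hconn : ∃ c0 cs, cells = c0 :: cs ∧ connB [c0] cs = true) :
    Conn P σ ((fun c : Cell => c.pl σ n l y) '' {c | c ∈ cells}) := by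
  obtain ⟨c0, cs, hcs, hB⟩ := hconn
  have := connB_conn (P := P) (σ := σ) (f := fun c : Cell => c.pl σ n l y)
    (D := fun c => c ∈ cells)
    (fun a b ha hb hab => adjB_glue hnl hy (hperp a ha) (hperp b hb) (hexp a ha) (hexp b hb)
      (hgood y hy _ _ ?_) hab) cs [c0]
    (fun c hc => by rw [hcs]; rw [List.mem_singleton] at hc; rw [hc]; exact List.mem_cons_self)
    (fun c hc => by rw [hcs]; exact List.mem_cons_of_mem _ hc) hB ?_
  · have e : {c | c ∈ [c0] ∨ c ∈ cs} = {c | c ∈ cells} := by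
      ext x
      rw [hcs]
      simp only [Set.mem_ofPred_eq, List.mem_cons, List.not_mem_nil, or_false]
    rw [e] at this
    exact this
  · rw [frame_perp σ n l hnl]
    simp only [adjB, adjH, Bool.or_eq_true, Bool.and_eq_true, decide_eq_true_eq] at hab
    have hpa := hperp a ha
    have hh : ∃ hd, Lb.lH a.lab a.e hd = b.lab := by
      rcases hab with ((hh | hh) | hh) | hh
      exacts [⟨_, hh.1.2⟩, ⟨_, hh.1.2⟩, ⟨_, hh.1.2⟩, ⟨_, hh.1.2⟩]
    obtain ⟨hd, hh⟩ := hh
    rw [← hh]
    have key : ∀ (X e : Lb) (hd : Hd), X.perp e = true → X.perp (Lb.lH X e hd) = true := by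
      decide
    exact key _ _ _ hpa
  · have e : (fun c : Cell => c.pl σ n l y) '' {c | c ∈ [c0]} = {c0.pl σ n l y} := by
      ext p
      simp
    rw [e]
    exact Conn.singleton P σ _

/-- The net of a single cube. -/
def oneCells : List Cell :=
  [⟨Lb.o, (0, 0), Lb.s0⟩, ⟨Lb.s0, (1, 0), Lb.p⟩, ⟨Lb.s2, (-1, 0), Lb.o⟩, ⟨Lb.s1, (0, 1), Lb.s0⟩,
    ⟨Lb.s3, (0, -1), Lb.s0⟩, ⟨Lb.p, (2, 0), Lb.s2⟩]

/-- The cells of the root cube behind an entry with heading east. -/
def eCells : List Cell :=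
  [⟨Lb.s0, (-1, 0), Lb.p⟩, ⟨Lb.o, (-2, 0), Lb.s0⟩, ⟨Lb.s1, (-2, 1), Lb.s0⟩,
    ⟨Lb.s3, (-2, -1), Lb.s0⟩, ⟨Lb.s2, (-3, 0), Lb.o⟩]

/-- The cells of the root cube behind an entry with heading north. -/
def nCells : List Cell :=
  [⟨Lb.s0, (0, -1), Lb.s3⟩, ⟨Lb.s1, (-1, -1), Lb.s0⟩, ⟨Lb.s2, (-2, -1), Lb.s1⟩,
    ⟨Lb.s3, (-3, -1), Lb.s2⟩, ⟨Lb.o, (0, -2), Lb.s3⟩]

theorem single_net {P : Finset Cube} {r : Cube} (hP : ∀ c, c ∈ P ↔ c = r) (hgood : GoodPoly P) :
    ∃ L : Set Pl, Net P true L := by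
  have hr : r ∈ P := (hP r).2 rfl
  have hne : ∀ d : Dir, r + d.vec ∉ P := by
    intro d hd
    rw [hP] at hd
    have : d.vec = 0 := by
      have := congrArg (fun x => x - r) hd
      simpa using this
    revert this
    cases d <;> decide
  have hnl : Dir.perp Dir.pz Dir.px = true := by decide
  refine ⟨(fun c : Cell => c.pl true Dir.pz Dir.px r) '' {c | c ∈ oneCells}, ?_, ?_, ?_, ?_, ?_⟩
  · intro A
    constructor
    · rintro ⟨h1, -⟩
      rw [hP] at h1
      obtain ⟨v, d⟩ := A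
      simp only at h1
      subst h1
      obtain ⟨X, hX⟩ := frame_surj true Dir.pz Dir.px hnl d
      have key : ∀ X : Lb, ∃ c ∈ oneCells, c.lab = X := by decide
      obtain ⟨c, hc, hcX⟩ := key X
      refine ⟨_, ⟨c, hc, rfl⟩, ?_⟩
      simp only [Cell.pl, hcX, hX]
    · rintro ⟨_, ⟨c, hc, rfl⟩, rfl⟩
      exact ⟨hr, hne _⟩
  · rintro _ ⟨c, hc, rfl⟩ _ ⟨c', hc', rfl⟩ e
    have key : ∀ c ∈ oneCells, ∀ c' ∈ oneCells, c.lab = c'.lab → c = c' := by decide
    rw [key c hc c' hc' (frame_inj true _ _ hnl _ _ (Prod.ext_iff.1 e).2)]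
  · rintro _ ⟨c, hc, rfl⟩ _ ⟨c', hc', rfl⟩ e
    have key : ∀ c ∈ oneCells, ∀ c' ∈ oneCells, c.pos = c'.pos → c = c' := by decide
    rw [key c hc c' hc' e]
  · rintro _ ⟨c, hc, rfl⟩
    have key : ∀ c ∈ oneCells, c.lab.perp c.e = true := by decide
    have := key c hc
    rw [← frame_perp true Dir.pz Dir.px hnl] at this
    exact this
  · exact cells_conn hnl hr hgood (by decide) (fun c _ => hne _) ⟨_, _, rfl, by decide⟩

theorem el_perp (P : Finset Cube) (y : Cube) (u v : Dir) :
    Dir.perp (el P y u v).1.2 (el P y u v).2 = Dir.perp u v := by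
  have h1 : ∀ u v : Dir, Dir.perp v u.neg = Dir.perp u v := by decide
  have h2 : ∀ u v : Dir, Dir.perp u.neg v.neg = Dir.perp u v := by decide
  by_cases c1 : y + u.vec ∈ P
  · by_cases c2 : y + u.vec + v.vec ∈ P
    · simp only [el, c1, c2, not_true_eq_false, if_false]
      exact h2 u v
    · simp only [el, c1, c2, not_true_eq_false, not_false_eq_true, if_false, if_true]
      exact h1 u v
  · simp only [el, c1, not_false_eq_true, if_true]

theorem perp_dirOf : ∀ (σ : Bool) (d e : Dir) (h : Hd), Dir.perp d e = true →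
    Dir.perp d (dirH σ d e h) = true := by decide

/-- A leaf cube and the claim of its branch give a net. -/
theorem leaf_net {P : Finset Cube} {σ : Bool} {r : Cube} {n : Dir}
    (hG : (cubeGraph P).IsAcyclic) (hgood : GoodPoly P) (hr : r ∈ P) (hy : r + n.vec ∈ P)
    (hleaf : ∀ u : Dir, u ≠ n → r + u.vec ∉ P)
    (hcon : ∀ c, c ∈ P ↔ c = r ∨ c ∈ Br (cubeGraph P) r (r + n.vec))
    {d : Dir} (hd : Dir.perp n d = true) {b : Side} {s t : St} (hS : s.head ≠ Hd.S)
    (hp : Piece P σ (branchFaces P r (r + n.vec)) (el P (r + n.vec) d n.neg) s b t none) :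
    ∃ L : Set Pl, Net P σ L := by
  obtain ⟨L, q, w, h1, h2, h3, h4, h5, h6, h7, h8, h9, h10⟩ := hp
  have hnn : ∀ n d : Dir, Dir.perp n d = true → Dir.perp n.neg d = true := by decide
  have hnl := hnn n d hd
  -- the cells of the root cube
  obtain ⟨cells, hpos, hcl, hinj, hposinj, hpp, hconn, hentry⟩ : ∃ cells : List Cell,
      (∀ c ∈ cells, ¬ s.inF c.pos) ∧ (∀ X : Lb, X ≠ Lb.p ↔ ∃ c ∈ cells, c.lab = X) ∧
      (∀ c ∈ cells, ∀ c' ∈ cells, c.lab = c'.lab → c = c') ∧
      (∀ c ∈ cells, ∀ c' ∈ cells, c.pos = c'.pos → c = c') ∧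
      (∀ c ∈ cells, c.lab.perp c.e = true) ∧
      (∃ c0 cs, cells = c0 :: cs ∧ connB [c0] cs = true) ∧
      (∃ c ∈ cells, c.lab = Lb.s0 ∧ 0 = c.pos + s.head.vec ∧ Lb.lH c.lab c.e s.head = Lb.p) := by
    cases s with
    | N u v =>
      refine ⟨nCells, ?_, by decide, by decide, by decide, by decide, ⟨_, _, rfl, by decide⟩,
        by simp only [St.head]; decide⟩
      intro c hc
      have : c.pos.1 ≤ 0 ∧ c.pos.2 ≤ -1 := by
        revert hc
        revert c
        decide
      cases u <;> cases v <;> simp only [St.inF] <;> intro h <;> simp at h <;> omega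
    | S u v => exact absurd rfl hS
    | E a b c d =>
      refine ⟨eCells, ?_, by decide, by decide, by decide, by decide, ⟨_, _, rfl, by decide⟩,
        by simp only [St.head]; decide⟩
      intro c hc
      have : c.pos.1 ≤ -2 ∨ (c.pos.1 = -1 ∧ c.pos.2 = 0) := by
        revert hc
        revert c
        decide
      simp only [St.inF]
      intro h
      omega
  have hexp : ∀ c ∈ cells, r + (frame σ n.neg d c.lab).vec ∉ P := by
    intro c hc
    apply hleaf
    intro he
    have : frame σ n.neg d c.lab = frame σ n.neg d Lb.p := by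
      rw [he]; exact (Dir.neg_neg n).symm
    exact (hcl c.lab).2 ⟨c, hc, rfl⟩ (frame_inj σ _ _ hnl _ _ this)
  have hdisj : ∀ c ∈ cells, ∀ p ∈ L, (c.pl σ n.neg d r).face ≠ p.face := by
    intro c hc p hp' e
    have := (h1 p.face).2 ⟨p, hp', rfl⟩
    rw [← e] at this
    exact not_mem_Br_root this.2
  have hpdisj : ∀ c ∈ cells, ∀ p ∈ L, (c.pl σ n.neg d r).pos ≠ p.pos := by
    intro c hc p hp' e
    refine hpos c hc ?_
    have : (c.pl σ n.neg d r).pos = c.pos := rfl
    rw [← this, e]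
    exact (h5 p hp').1
  refine ⟨(fun c : Cell => c.pl σ n.neg d r) '' {c | c ∈ cells} ∪ L, ?_, ?_, ?_, ?_, ?_⟩
  · intro A
    constructor
    · rintro ⟨hA1, hA2⟩
      rw [hcon] at hA1
      rcases hA1 with hA1 | hA1
      · obtain ⟨v, u⟩ := A
        simp only at hA1 hA2
        subst hA1
        obtain ⟨X, hX⟩ := frame_surj σ n.neg d hnl u
        have hXp : X ≠ Lb.p := by
          rintro rfl
          have : u = n := by rw [← hX]; exact Dir.neg_neg n
          rw [this] at hA2
          exact hA2 hy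
        obtain ⟨c, hc, hcX⟩ := (hcl X).1 hXp
        refine ⟨_, Or.inl ⟨c, hc, rfl⟩, ?_⟩
        simp only [Cell.pl, hcX, hX]
      · obtain ⟨p, hp', e⟩ := (h1 A).1 ⟨⟨(hcon A.1).2 (Or.inr hA1), hA2⟩, hA1⟩
        exact ⟨p, Or.inr hp', e⟩
    · rintro ⟨_, ⟨c, hc, rfl⟩ | hp', rfl⟩
      · exact ⟨hr, hexp c hc⟩
      · exact ((h1 _).2 ⟨_, hp', rfl⟩).1
  · rintro _ (⟨c, hc, rfl⟩ | hp') _ (⟨c', hc', rfl⟩ | hp'') e
    · rw [hinj c hc c' hc' (frame_inj σ _ _ hnl _ _ (Prod.ext_iff.1 e).2)]
    · exact absurd e (hdisj c hc _ hp'')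
    · exact absurd e.symm (hdisj c' hc' _ hp')
    · exact h2 _ hp' _ hp'' e
  · rintro _ (⟨c, hc, rfl⟩ | hp') _ (⟨c', hc', rfl⟩ | hp'') e
    · rw [hposinj c hc c' hc' e]
    · exact absurd e (hpdisj c hc _ hp'')
    · exact absurd e.symm (hpdisj c' hc' _ hp')
    · exact h3 _ hp' _ hp'' e
  · rintro _ (⟨c, hc, rfl⟩ | hp')
    · have := hpp c hc
      rw [← frame_perp σ n.neg d hnl] at this
      exact this
    · exact h4 _ hp'
  · obtain ⟨c, hc, e1, e2, e3⟩ := hentry
    obtain ⟨p, hp', f1, f2, f3⟩ := h8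
    refine Conn.union (cells_conn hnl hr hgood hpp hexp hconn) h7 (p := c.pl σ n.neg d r) (q := p)
      ⟨c, hc, rfl⟩ hp' ⟨s.head, ?_, ?_⟩
    · rw [f2]
      exact e2
    · have hc1 : (c.pl σ n.neg d r).face = (r, d) := by
        simp only [Cell.pl, e1]
        rfl
      have hc2 : dirOf σ (c.pl σ n.neg d r) s.head = n := by
        have := dirH_frame σ n.neg d hnl _ _ (hpp c hc) s.head
        rw [e3] at this
        exact this.trans (Dir.neg_neg n)
      rw [hc1, hc2, f1, f3]
      have hdn : d ≠ n := by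
        rintro rfl
        revert hd
        cases d <;> decide
      have hrd : r + d.vec ∉ P := hleaf d hdn
      have hdn' : Dir.perp d n = true := by
        revert hd
        cases n <;> cases d <;> decide
      have hcr := crossing hr (hgood r hr d n hdn')
      rw [el_exposed hrd] at hcr
      rw [hcr, el_child hy (hgood r hr n d hd)]

/-- Every good finite polycube tree has a net. -/
theorem exists_net {Rep : Family} (cert : Certificate Rep) {P : Finset Cube}
    (hne : P.Nonempty) (hconn : ∀ a ∈ P, ∀ b ∈ P, (cubeGraph P).Reachable a b)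
    (hG : (cubeGraph P).IsAcyclic) (hgood : GoodPoly P) : ∃ (σ : Bool) (L : Set Pl), Net P σ L := by
  obtain ⟨r0, hr0⟩ := hne
  have hedge : ∀ a b, (cubeGraph P).Adj a b → a ∈ (P : Set Cube) ∧ b ∈ (P : Set Cube) :=
    fun a b h => ⟨h.1, h.2.1⟩
  by_cases hE : ∃ a b, (cubeGraph P).Adj a b
  · obtain ⟨r, y, hry, hleaf⟩ := exists_leaf hG (Finset.finite_toSet P) hedge hE
    obtain ⟨hr, hy, n, rfl⟩ := hry
    obtain ⟨l, hl⟩ : ∃ l : Dir, Dir.perp n l = true := by
      have key : ∀ n : Dir, ∃ l : Dir, Dir.perp n l = true := by decide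
      exact key n
    have hcon : ∀ c, c ∈ P ↔ c = r ∨ c ∈ Br (cubeGraph P) r (r + n.vec) := by
      intro c
      have := mem_iff_root (P := (P : Set Cube)) hedge (fun a ha b hb => hconn a ha b hb) hr c
      rw [Finset.mem_coe] at this
      rw [this]
      constructor
      · rintro (h | ⟨z, hz, hc⟩)
        · exact Or.inl h
        · rw [hleaf z hz] at hc
          exact Or.inr hc
      · rintro (h | h)
        · exact Or.inl h
        · exact Or.inr ⟨_, cubeGraph_adj hr hy, h⟩
    have hleaf' : ∀ u : Dir, u ≠ n → r + u.vec ∉ P := by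
      intro u hu hP
      have := hleaf _ (cubeGraph_adj hr hP)
      exact hu (vec_injective (add_left_cancel this))
    have hrn : r + n.vec + n.neg.vec = r := by
      rw [Dir.vec_neg]; abel
    obtain ⟨κ, hκ, hB⟩ := exists_claim cert hG hgood hl hy (by rw [hrn]; exact hr) true
    unfold BClaim at hB
    rw [hκ, hrn] at hB
    simp only [Option.map_none] at hB
    set d := frame true n l κ.i with hd
    -- the entry side is a side
    have hdn : Dir.perp n d = true := by
      obtain ⟨L, q, w, h1, h2, h3, h4, h5, h6, h7, h8, h9, h10⟩ := hB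
      obtain ⟨p, hp, f1, f2, f3⟩ := h8
      have h := perp_dirOf true _ _ κ.s.head.opp (h4 p hp)
      change Dir.perp p.face.2 (dirOf true p κ.s.head.opp) = true at h
      rw [f3, f1, el_perp] at h
      revert h
      generalize d = d'
      have key : ∀ d n : Dir, Dir.perp d n.neg = true → Dir.perp n d = true := by decide
      exact key _ _
    by_cases hS : κ.s.head = Hd.S
    · have hm := hB.mir
      obtain ⟨L, hL⟩ := leaf_net hG hgood hr hy hleaf' hcon hdn
        (by
          cases hs : κ.s with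
          | N u v => rw [hs] at hS; simp [St.head] at hS
          | S u v => simp [St.mir, St.head]
          | E a b c d => rw [hs] at hS; simp [St.head] at hS) hm
      exact ⟨_, L, hL⟩
    · obtain ⟨L, hL⟩ := leaf_net hG hgood hr hy hleaf' hcon hdn hS hB
      exact ⟨_, L, hL⟩
  · have hP : ∀ c, c ∈ P ↔ c = r0 := by
      intro c
      have := mem_iff_root (P := (P : Set Cube)) hedge (fun a ha b hb => hconn a ha b hb) hr0 c
      rw [Finset.mem_coe] at this
      rw [this]
      constructor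
      · rintro (h | ⟨z, hz, -⟩)
        · exact h
        · exact absurd ⟨_, _, hz⟩ hE
      · exact Or.inl
    obtain ⟨L, hL⟩ := single_net hP hgood
    exact ⟨true, L, hL⟩

end Pool.Agent.Helper17.UF
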