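import Pool.Agent.Helper17.UF.Statement
import Pool.Agent.Helper17.UF.Root

/-!
# From combinatorial nets to geometric edge unfoldings (project UF, MP_409f7f_co)
-/

namespace Pool.Agent.Helper17.UF

/-- Coordinate along a direction. -/
noncomputable def co : Dir → E3 → ℝ
  | Dir.px, x => x 0
  | Dir.nx, x => -x 0
  | Dir.py, x => x 1
  | Dir.ny, x => -x 1
  | Dir.pz, x => x 2
  | Dir.nz, x => -x 2

/-- Minimal value of the coordinate on a cube. -/
def base : Dir → Cube → ℤ
  | Dir.px, v => v.1
  | Dir.nx, v => -v.1 - 1
  | Dir.py, v => v.2.1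
  | Dir.ny, v => -v.2.1 - 1
  | Dir.pz, v => v.2.2
  | Dir.nz, v => -v.2.2 - 1

theorem co_neg (u : Dir) (x : E3) : co u.neg x = -co u x := by
  cases u <;> simp [co, Dir.neg]

theorem base_neg (u : Dir) (v : Cube) : base u.neg v = -base u v - 1 := by
  cases u <;> simp [base, Dir.neg]

theorem base_self (u : Dir) (v : Cube) : base u (v + u.vec) = base u v + 1 := by
  obtain ⟨a, b, c⟩ := v
  cases u <;> simp [base, Dir.vec] <;> ring

theorem base_perp {u d : Dir} (v : Cube) (h : Dir.perp u d = true) :
    base u (v + d.vec) = base u v := by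
  obtain ⟨a, b, c⟩ := v
  cases u <;> cases d <;> first | (exact absurd h (by decide)) | (simp [base, Dir.vec])

theorem mem_unitCube {v : Cube} {x : E3} {d t : Dir} (h : Dir.perp d t = true) :
    x ∈ unitCube v ↔ ((base d v : ℝ) ≤ co d x ∧ co d x ≤ base d v + 1) ∧
      ((base t v : ℝ) ≤ co t x ∧ co t x ≤ base t v + 1) ∧
      ((base (Dir.cross d t) v : ℝ) ≤ co (Dir.cross d t) x ∧
        co (Dir.cross d t) x ≤ base (Dir.cross d t) v + 1) := by
  cases d <;> cases t <;> first | (exact absurd h (by decide)) | (exact Iff.rfl) | (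
    simp only [unitCube, base, co, Dir.cross, Set.mem_ofPred_eq, Int.cast_sub, Int.cast_neg,
      Int.cast_one]
    constructor
    · rintro ⟨⟨h1, h2⟩, ⟨h3, h4⟩, ⟨h5, h6⟩⟩
      refine ⟨⟨?_, ?_⟩, ⟨?_, ?_⟩, ⟨?_, ?_⟩⟩ <;> linarith
    · rintro ⟨⟨h1, h2⟩, ⟨h3, h4⟩, ⟨h5, h6⟩⟩
      refine ⟨⟨?_, ?_⟩, ⟨?_, ?_⟩, ⟨?_, ?_⟩⟩ <;> linarith)

theorem cross_perp : ∀ d t : Dir, Dir.perp d t = true →
    Dir.perp (Dir.cross d t) d = true ∧ Dir.perp (Dir.cross d t) t = true := by decide

theorem perp_comm : ∀ d t : Dir, Dir.perp d t = Dir.perp t d := by decide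

theorem mem_square {v : Cube} {x : E3} {d t : Dir} (h : Dir.perp d t = true) :
    x ∈ square (v, d) ↔ co d x = base d v + 1 ∧
      ((base t v : ℝ) ≤ co t x ∧ co t x ≤ base t v + 1) ∧
      ((base (Dir.cross d t) v : ℝ) ≤ co (Dir.cross d t) x ∧
        co (Dir.cross d t) x ≤ base (Dir.cross d t) v + 1) := by
  have h1 : base t (v + d.vec) = base t v := base_perp v (by rw [perp_comm]; exact h)
  have h2 : base (Dir.cross d t) (v + d.vec) = base (Dir.cross d t) v :=
    base_perp v (cross_perp d t h).1
  unfold square
  rw [Set.mem_inter_iff, mem_unitCube h, mem_unitCube h, h1, h2, base_self]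
  push_cast
  constructor
  · rintro ⟨⟨⟨a1, a2⟩, a3, a4⟩, ⟨b1, b2⟩, -, -⟩
    exact ⟨le_antisymm a2 b1, a3, a4⟩
  · rintro ⟨a1, a2, a3⟩
    refine ⟨⟨⟨by linarith, by linarith⟩, a2, a3⟩, ⟨by linarith, by linarith⟩, a2, a3⟩

theorem mem_side {v : Cube} {x : E3} {d t : Dir} (h : Dir.perp d t = true) :
    x ∈ sideOf (v, d) t ↔ co d x = base d v + 1 ∧ co t x = base t v + 1 ∧
      ((base (Dir.cross d t) v : ℝ) ≤ co (Dir.cross d t) x ∧
        co (Dir.cross d t) x ≤ base (Dir.cross d t) v + 1) := by
  have h' : Dir.perp t d = true := by rw [perp_comm]; exact h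
  have hc : ∀ d t : Dir, Dir.perp d t = true → Dir.cross t d = (Dir.cross d t).neg := by decide
  unfold sideOf
  rw [Set.mem_inter_iff, mem_square h, mem_square h', hc d t h, co_neg, base_neg]
  push_cast
  constructor
  · rintro ⟨⟨a1, a2, a3⟩, b1, b2, b3⟩
    exact ⟨a1, b1, a3⟩
  · rintro ⟨a1, a2, a3, a4⟩
    refine ⟨⟨a1, ⟨by linarith, by linarith⟩, a3, a4⟩, a2, ⟨by linarith, by linarith⟩, by linarith,
      by linarith⟩

theorem side_subset (A : Face) (t : Dir) : sideOf A t ⊆ square A := fun _ h => h.1

/-- The three cases of the neighbour. -/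
theorem nbr_cases (P : Finset Cube) (v : Cube) (d t : Dir) :
    (v + t.vec + d.vec ∈ P ∧ nbr P (v, d) t = ((v + t.vec + d.vec, t.neg), d.neg)) ∨
    (v + t.vec + d.vec ∉ P ∧ v + t.vec ∈ P ∧ nbr P (v, d) t = ((v + t.vec, d), t.neg)) ∨
    (v + t.vec + d.vec ∉ P ∧ v + t.vec ∉ P ∧ nbr P (v, d) t = ((v, t), d)) := by
  by_cases h1 : v + t.vec + d.vec ∈ P
  · left; exact ⟨h1, by simp only [nbr, h1, if_true]⟩
  · right
    by_cases h2 : v + t.vec ∈ P
    · left; exact ⟨h1, h2, by simp only [nbr, h1, h2, if_true, if_false]⟩
    · right; exact ⟨h1, h2, by simp only [nbr, h1, h2, if_false]⟩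

/-- The neighbour shares the side. -/
theorem side_nbr {P : Finset Cube} {v : Cube} {d t : Dir} (h : Dir.perp d t = true) :
    sideOf (nbr P (v, d) t).1 (nbr P (v, d) t).2 = sideOf (v, d) t := by
  have h' : Dir.perp t d = true := by rw [perp_comm]; exact h
  have hw := cross_perp d t h
  have b1 : base t (v + t.vec + d.vec) = base t v + 1 := by
    rw [base_perp _ h', base_self]
  have b2 : base d (v + t.vec + d.vec) = base d v + 1 := by
    rw [base_self, base_perp _ h]
  have b3 : base (Dir.cross d t) (v + t.vec + d.vec) = base (Dir.cross d t) v := by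
    rw [base_perp _ hw.1, base_perp _ hw.2]
  have b4 : base (Dir.cross d t) (v + t.vec) = base (Dir.cross d t) v := base_perp _ hw.2
  have b5 : base d (v + t.vec) = base d v := base_perp _ h
  rcases nbr_cases P v d t with ⟨-, e⟩ | ⟨-, -, e⟩ | ⟨-, -, e⟩
  · have hp : ∀ d t : Dir, Dir.perp d t = true → Dir.perp t.neg d.neg = true := by decide
    have hc : ∀ d t : Dir, Dir.perp d t = true →
        Dir.cross t.neg d.neg = (Dir.cross d t).neg := by decide
    rw [e]
    ext x
    rw [mem_side (hp d t h), mem_side h, hc d t h]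
    simp only [co_neg, base_neg, b1, b2, b3]
    push_cast
    constructor
    · rintro ⟨a1, a2, a3, a4⟩
      exact ⟨by linarith, by linarith, by linarith, by linarith⟩
    · rintro ⟨a1, a2, a3, a4⟩
      exact ⟨by linarith, by linarith, by linarith, by linarith⟩
  · have hp : ∀ d t : Dir, Dir.perp d t = true → Dir.perp d t.neg = true := by decide
    have hc : ∀ d t : Dir, Dir.perp d t = true →
        Dir.cross d t.neg = (Dir.cross d t).neg := by decide
    rw [e]
    ext x
    rw [mem_side (hp d t h), mem_side h, hc d t h]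
    simp only [co_neg, base_neg, b4, b5, base_self]
    push_cast
    constructor
    · rintro ⟨a1, a2, a3, a4⟩
      exact ⟨by linarith, by linarith, by linarith, by linarith⟩
    · rintro ⟨a1, a2, a3, a4⟩
      exact ⟨by linarith, by linarith, by linarith, by linarith⟩
  · have hc : ∀ d t : Dir, Dir.perp d t = true →
        Dir.cross t d = (Dir.cross d t).neg := by decide
    rw [e]
    ext x
    rw [mem_side h', mem_side h, hc d t h]
    simp only [co_neg, base_neg]
    push_cast
    constructor
    · rintro ⟨a1, a2, a3, a4⟩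
      exact ⟨by linarith, by linarith, by linarith, by linarith⟩
    · rintro ⟨a1, a2, a3, a4⟩
      exact ⟨by linarith, by linarith, by linarith, by linarith⟩

/-- Sign of a direction. -/
noncomputable def sg : Dir → ℝ
  | Dir.px => 1 | Dir.nx => -1 | Dir.py => 1 | Dir.ny => -1 | Dir.pz => 1 | Dir.nz => -1

/-- A point with prescribed coordinates along three perpendicular directions. -/
theorem exists_point {d t : Dir} (h : Dir.perp d t = true) (a b c : ℝ) :
    ∃ x : E3, co d x = a ∧ co t x = b ∧ co (Dir.cross d t) x = c := by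
  refine ⟨!₂[if d.axis = 0 then sg d * a else if t.axis = 0 then sg t * b else
      sg (Dir.cross d t) * c, if d.axis = 1 then sg d * a else if t.axis = 1 then sg t * b else
      sg (Dir.cross d t) * c, if d.axis = 2 then sg d * a else if t.axis = 2 then sg t * b else
      sg (Dir.cross d t) * c], ?_⟩
  cases d <;> cases t <;> first
    | (exact absurd h (by decide))
    | simp [co, Dir.cross, Dir.axis, sg]

/-- The cubes that contain a given edge. -/
theorem cube_of_side {v v' : Cube} {d t : Dir} (h : Dir.perp d t = true)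
    (hs : sideOf (v, d) t ⊆ unitCube v') :
    v' = v ∨ v' = v + d.vec ∨ v' = v + t.vec ∨ v' = v + t.vec + d.vec := by
  obtain ⟨x, x1, x2, x3⟩ := exists_point h (base d v + 1) (base t v + 1) (base (Dir.cross d t) v)
  obtain ⟨y, y1, y2, y3⟩ := exists_point h (base d v + 1) (base t v + 1)
    (base (Dir.cross d t) v + 1)
  have hx := hs ((mem_side h).2 ⟨x1, x2, by rw [x3], by rw [x3]; linarith⟩)
  have hy := hs ((mem_side h).2 ⟨y1, y2, by rw [y3]; linarith, by rw [y3]⟩)
  rw [mem_unitCube h, x1, x2, x3] at hx
  rw [mem_unitCube h, y1, y2, y3] at hy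
  obtain ⟨⟨a1, a2⟩, ⟨a3, a4⟩, a5, a6⟩ := hx
  obtain ⟨-, -, b5, b6⟩ := hy
  norm_cast at a1 a2 a3 a4 a5 a6 b5 b6
  obtain ⟨p, q, r⟩ := v
  obtain ⟨p', q', r'⟩ := v'
  cases d <;> cases t <;> first
    | (exact absurd h (by decide))
    | (simp only [base, Dir.cross, Dir.vec, Prod.mk_add_mk, Prod.mk.injEq] at *
       omega)

/-- An edge lies on at most two boundary squares. -/
theorem faces_of_side {P : Finset Cube} (hgood : GoodPoly P) {v : Cube} {d t : Dir}
    (h : Dir.perp d t = true) (hF : IsFace P (v, d)) {B : Face} (hB : IsFace P B)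
    (hs : sideOf (v, d) t ⊆ square B) : B = (v, d) ∨ B = (nbr P (v, d) t).1 := by
  obtain ⟨w, u⟩ := B
  obtain ⟨hv, hvd⟩ := hF
  obtain ⟨hw, hwu⟩ := hB
  simp only at hv hvd hw hwu
  have c1 := cube_of_side h (hs.trans (fun _ hx => hx.1))
  have c2 := cube_of_side h (hs.trans (fun _ hx => hx.2))
  simp only at c1 c2
  have hvd' : v + t.vec + d.vec = v + d.vec + t.vec := by abel
  -- combinatorics of the four cubes
  have inj : ∀ a b : Dir, a.vec = b.vec → a = b := fun a b hab => vec_injective hab
  have e0 : ∀ u : Dir, u.vec ≠ 0 := by decide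
  have ed : w + u.vec = v → w = v + t.vec + d.vec → False := by
    intro h1 h2
    have : u.vec + t.vec + d.vec = 0 := by
      rw [h2] at h1
      have := congrArg (fun z => z - v) h1
      simp only [sub_self] at this
      rw [← this]; abel
    revert this h
    have key : ∀ u t d : Dir, Dir.perp d t = true → u.vec + t.vec + d.vec = 0 → False := by decide
    exact fun h this => key u t d h this
  have good1 := hgood v hv d t h
  rcases nbr_cases P v d t with ⟨g1, e⟩ | ⟨g1, g2, e⟩ | ⟨g1, g2, e⟩
  · -- concave edge
    have hvt : v + t.vec ∈ P := by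
      by_contra hc
      have := good1.2 hvd hc
      rw [← hvd'] at this
      exact this g1
    have hwu' : w + u.vec = v + d.vec := by
      rcases c2 with c2 | c2 | c2 | c2
      · rw [c2] at hwu; exact absurd hv hwu
      · exact c2
      · rw [c2] at hwu; exact absurd hvt hwu
      · rw [c2] at hwu; exact absurd g1 hwu
    rw [e]
    rcases c1 with c1 | c1 | c1 | c1
    · left
      rw [c1] at hwu' ⊢
      rw [inj u d (add_left_cancel hwu')]
    · rw [c1] at hw; exact absurd hw hvd
    · exfalso
      rw [c1] at hwu'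
      have : t.vec + u.vec - d.vec = 0 := by
        have := congrArg (fun z => z - v - d.vec) hwu'
        rw [show v + d.vec - v - d.vec = 0 by abel] at this
        rw [← this]; abel
      have key : ∀ u t d : Dir, Dir.perp d t = true → t.vec + u.vec - d.vec = 0 → False := by
        decide
      exact key u t d h this
    · right
      rw [c1] at hwu' ⊢
      have : u.vec = t.neg.vec := by
        rw [Dir.vec_neg]
        have := congrArg (fun z => z - v - t.vec - d.vec) hwu'
        rw [show v + t.vec + d.vec + u.vec - v - t.vec - d.vec = u.vec by abel] at this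
        rw [this]; abel
      rw [inj u t.neg this]
  · -- flat edge
    rw [e]
    rcases c1 with c1 | c1 | c1 | c1
    · left
      subst c1
      rcases c2 with c2 | c2 | c2 | c2
      · exact absurd (by simpa using c2) (e0 u)
      · rw [inj u d (add_left_cancel c2)]
      · rw [c2] at hwu; exact absurd g2 hwu
      · exfalso
        have : u.vec - t.vec - d.vec = 0 := by
          have := congrArg (fun z => z - w - t.vec - d.vec) c2
          rw [show w + t.vec + d.vec - w - t.vec - d.vec = 0 by abel] at this
          rw [← this]; abel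
        have key : ∀ u t d : Dir, Dir.perp d t = true → u.vec - t.vec - d.vec = 0 → False := by
          decide
        exact key u t d h this
    · rw [c1] at hw; exact absurd hw hvd
    · right
      rw [c1] at c2 hwu ⊢
      have hu : u = d := by
        rcases c2 with c2 | c2 | c2 | c2
        · rw [c2] at hwu; exact absurd hv hwu
        · exfalso
          have : t.vec + u.vec - d.vec = 0 := by
            have := congrArg (fun z => z - v - d.vec) c2
            rw [show v + d.vec - v - d.vec = 0 by abel] at this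
            rw [← this]; abel
          have key : ∀ u t d : Dir, Dir.perp d t = true → t.vec + u.vec - d.vec = 0 → False := by
            decide
          exact key u t d h this
        · exact absurd (by simpa using c2) (e0 u)
        · exact inj u d (add_left_cancel c2)
      rw [hu]
    · rw [c1] at hw; exact absurd hw g1
  · -- convex edge
    rw [e]
    rcases c1 with c1 | c1 | c1 | c1
    · subst c1
      rcases c2 with c2 | c2 | c2 | c2
      · exact absurd (by simpa using c2) (e0 u)
      · left
        rw [inj u d (add_left_cancel c2)]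
      · right
        rw [inj u t (add_left_cancel c2)]
      · exfalso
        have : u.vec - t.vec - d.vec = 0 := by
          have := congrArg (fun z => z - w - t.vec - d.vec) c2
          rw [show w + t.vec + d.vec - w - t.vec - d.vec = 0 by abel] at this
          rw [← this]; abel
        have key : ∀ u t d : Dir, Dir.perp d t = true → u.vec - t.vec - d.vec = 0 → False := by
          decide
        exact key u t d h this
    · rw [c1] at hw; exact absurd hw hvd
    · rw [c1] at hw; exact absurd hw g2
    · rw [c1] at hw; exact absurd hw g1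

end Pool.Agent.Helper17.UF
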