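import Pool.Agent.Helper17.UF.Transfer

/-!
# Induction over the branches (project UF, MP_409f7f_co)
-/

namespace Pool.Agent.Helper17.UF

variable {Rep : Family} {P : Finset Cube}

/-- The invariant of the branch at `y` seen from `y - n`. -/
def Inv (Rep : Family) (P : Finset Cube) (y : Cube) (n : Dir) : Prop :=
  (∀ c ∈ canon, c ≠ 17 → ∀ (σ : Bool) (l : Dir), Dir.perp n l = true → cls P σ y n l = c →
    ∀ κ ∈ Rep c 0, BClaim P σ y n l κ) ∧
  ((∃ (σ : Bool) (l : Dir), Dir.perp n l = true ∧ cls P σ y n l = 17 ∧
      ∀ κ ∈ Rep 17 0, BClaim P σ y n l κ) ∨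
    (∀ (σ : Bool) (l : Dir), Dir.perp n l = true → cls P σ y n l = 17 →
      ∀ κ ∈ Rep 17 2, BClaim P σ y n l κ))

theorem isTwo_of_img : ∀ (m : Bool) (r : Fin 4) (c : ℕ), c < 32 → imgOK m r 17 c = true →
    isTwo c = true := by decide

theorem isTwo_mirC : ∀ c < 32, isTwo (mirC c) = isTwo c := by decide

theorem inv_opt {y : Cube} {n : Dir} (h : Inv Rep P y n) :
    ∃ Q : Bool → Dir → ℕ, ∀ (σ : Bool) (l : Dir), Dir.perp n l = true →
      (if isTwo (cls P σ y n l) = true then Q σ l < 3 else Q σ l = 0) ∧
      (∀ τ, Avail Rep (cls P σ y n l) (Q σ l) τ → BClaim P σ y n l τ) ∧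
      mirO (cls P σ y n l, Q σ l) = (cls P (!σ) y n l, Q (!σ) l) := by
  obtain ⟨h1, h2 | h2⟩ := h
  · obtain ⟨σ0, l0, hl0, hc0, hA⟩ := h2
    refine ⟨fun σ l => if isTwo (cls P σ y n l) = true then (if σ = σ0 then 0 else 1) else 0, ?_⟩
    intro σ l hnl
    refine ⟨?_, ?_, ?_⟩
    · simp only
      split_ifs <;> simp
    · rintro τ ⟨c0, hcan, q0, hq1, hq2, κ, hκ, m, r, rv, himg, hmem, hle⟩
      have hcls := cls_act hnl m r (canon_lt c0 hcan) himg
      have hperp := perp_frame_act σ n l hnl m r
      refine (BClaim.revIf rv (BClaim.act hnl m r ?_)).weaken hle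
      by_cases hc : c0 = 17
      · subst hc
        have htwo := isTwo_of_img m r _ cls_lt himg
        simp only [htwo, if_true] at hmem
        have hq : q0 = 0 ∧ xor σ m = σ0 := by
          rcases hq1 rfl with hq | hq
          · subst hq
            refine ⟨rfl, ?_⟩
            by_cases hs : σ = σ0
            · subst hs
              simp only [if_true] at hmem
              cases m with
              | false => exact Bool.xor_false _
              | true => simp [memImg] at hmem
            · simp only [hs, if_false] at hmem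
              cases m with
              | false => simp [memImg] at hmem
              | true =>
                rw [Bool.xor_true]
                revert hs
                cases σ <;> cases σ0 <;> simp
          · subst hq
            exfalso
            revert hmem
            simp only [memImg]
            split_ifs <;> simp_all
        obtain ⟨hq, hσ⟩ := hq
        subst hq
        have hside : frame σ n l (Lb.s0.act m r) = l0 := by
          refine side_unique hl0 hc0 hperp ?_
          have h17 : has 17 Lb.s0 = true := by decide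
          rw [← hcls, has_cls (by decide)] at h17
          exact h17
        rw [hσ, hside]
        exact hA κ hκ
      · have := hq2 hc
        subst this
        exact h1 c0 hcan hc _ _ hperp hcls κ hκ
    · have hm := cls_mir (P := P) (σ := σ) (y := y) hnl
      have h2 := isTwo_mirC _ (cls_lt (P := P) (σ := σ) (y := y) (n := n) (l := l))
      rw [← hm] at h2
      simp only [mirO, h2]
      rw [← hm]
      refine Prod.ext rfl ?_
      simp only
      by_cases ht : isTwo (cls P σ y n l) = true
      · simp only [ht, if_true]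
        cases σ <;> cases σ0 <;> simp
      · simp only [ht, if_false]
        rfl
  · refine ⟨fun σ l => if isTwo (cls P σ y n l) = true then 2 else 0, ?_⟩
    intro σ l hnl
    refine ⟨?_, ?_, ?_⟩
    · simp only
      split_ifs <;> simp
    · rintro τ ⟨c0, hcan, q0, hq1, hq2, κ, hκ, m, r, rv, himg, hmem, hle⟩
      have hcls := cls_act hnl m r (canon_lt c0 hcan) himg
      have hperp := perp_frame_act σ n l hnl m r
      refine (BClaim.revIf rv (BClaim.act hnl m r ?_)).weaken hle
      by_cases hc : c0 = 17
      · subst hc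
        have htwo := isTwo_of_img m r _ cls_lt himg
        simp only [htwo, if_true] at hmem
        have hq : q0 = 2 := by
          rcases hq1 rfl with hq | hq
          · subst hq
            exfalso
            revert hmem
            cases m <;> simp [memImg]
          · exact hq
        subst hq
        exact h2 _ _ hperp hcls κ hκ
      · have := hq2 hc
        subst this
        exact h1 c0 hcan hc _ _ hperp hcls κ hκ
    · have hm := cls_mir (P := P) (σ := σ) (y := y) hnl
      have h2 := isTwo_mirC _ (cls_lt (P := P) (σ := σ) (y := y) (n := n) (l := l))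
      rw [← hm] at h2
      simp only [mirO, h2]
      rw [← hm]
      refine Prod.ext rfl ?_
      simp only
      by_cases ht : isTwo (cls P σ y n l) = true
      · simp only [ht, if_true]
        rfl
      · simp only [ht, if_false]
        rfl

/-- The children whose claims a valid route uses. -/
theorem needs_kid {ex : Lb → Bool} {j0 : Lb} {t0 : St} {G : Option Lb} :
    ∀ (steps : List Step) (Z F : Lb) (cur : St) (used : List Lb) (car : Option Lb),
      routeB ex j0 t0 G steps Z F cur used car = true →
      ∀ Xκ ∈ needs steps Z, ex Xκ.1 = false ∧ Xκ.1 ≠ Lb.p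
  | [], _, _, _, _, _, _, Xκ, h => by simp only [needs] at h; exact absurd h (List.not_mem_nil)
  | Step.seg s cells q F' Z' t C :: rs, Z, F, cur, used, car, hr, Xκ, h => by
    simp only [routeB, Bool.and_eq_true] at hr
    simp only [needs] at h
    exact needs_kid rs _ _ _ _ _ hr.2 Xκ h
  | Step.kid κ :: rs, Z, F, cur, used, car, hr, Xκ, h => by
    simp only [routeB, Bool.and_eq_true, decide_eq_true_eq, Bool.not_eq_true'] at hr
    obtain ⟨⟨⟨⟨⟨⟨⟨⟨⟨⟨h1, h2⟩, -⟩, -⟩, -⟩, -⟩, -⟩, -⟩, -⟩, -⟩, h11⟩ := hr
    simp only [needs] at h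
    rcases List.mem_cons.1 h with rfl | h
    · exact ⟨h2, h1⟩
    · exact needs_kid rs _ _ _ _ _ h11 Xκ h

/-- Options of the children of `y` in a frame, for a choice of members. -/
noncomputable def kidOpt (P : Finset Cube) (Q : Dir → Bool → Dir → ℕ) (y : Cube) (n : Dir)
    (σ : Bool) (l : Dir) (X : Lb) : ℕ × ℕ :=
  (cls P σ (y + (frame σ n l X).vec) (frame σ n l X) (frame σ n l (X.ordL Lb.s0)),
    Q (frame σ n l X) σ (frame σ n l (X.ordL Lb.s0)))

theorem perp_ordL : ∀ X : Lb, X ≠ Lb.p → ∀ m : Lb, m ≠ Lb.o → m ≠ Lb.p →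
    X.perp (X.ordL m) = true := by decide

/-- From routes to claims. -/
theorem reach_claims {y : Cube} {n l : Dir} {σ : Bool} (hy : NodeOK P y)
    (hnl : Dir.perp n l = true) (hb : y + n.neg.vec ∈ P) {Q : Dir → Bool → Dir → ℕ}
    (hQ : ∀ u : Dir, u ≠ n.neg → y + u.vec ∈ P → ∀ (σ : Bool) (l : Dir),
      Dir.perp u l = true → ∀ τ, Avail Rep (cls P σ (y + u.vec) u l) (Q u σ l) τ →
        BClaim P σ (y + u.vec) u l τ) {L : List Clm} {K : Lb → ℕ × ℕ}
    (hK : ∀ X, has (cls P σ y n l) X = true → K X = kidOpt P Q y n σ l X)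
    (hR : Reach Rep (cls P σ y n l) K L) : ∀ κ ∈ L, BClaim P σ y n l κ := by
  intro κ hκ
  obtain ⟨steps, hr, hn⟩ := hR κ hκ
  refine route_sound hy hnl hb (ex := fun X => !(has (cls P σ y n l) X)) ?_ hr ?_
  · intro X hX
    rw [Bool.not_eq_true', ← Bool.not_eq_true, has_cls hX]
  · intro Xκ hX
    obtain ⟨h1, h2⟩ := needs_kid steps _ _ _ _ _ hr Xκ hX
    have h1' : has (cls P σ y n l) Xκ.1 = true := by
      simpa using h1
    have hav := hn Xκ hX
    rw [hK Xκ.1 h1'] at hav
    have hP := (has_cls h2).1 h1'
    refine hQ (frame σ n l Xκ.1) ?_ hP σ _ ?_ Xκ.2 hav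
    · intro hc
      exact h2 (frame_inj σ n l hnl Xκ.1 Lb.p hc)
    · rw [frame_perp σ n l hnl]
      exact perp_ordL _ h2 _ (by decide) (by decide)

/-- The options of the children are allowed. -/
theorem kidOpt_ok {y : Cube} {n l : Dir} {σ : Bool} (hy : NodeOK P y)
    (hnl : Dir.perp n l = true) (hb : y + n.neg.vec ∈ P) {Q : Dir → Bool → Dir → ℕ}
    (hQ : ∀ u : Dir, u ≠ n.neg → y + u.vec ∈ P → ∀ (σ : Bool) (l : Dir),
      Dir.perp u l = true →
      (if isTwo (cls P σ (y + u.vec) u l) = true then Q u σ l < 3 else Q u σ l = 0)) :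
    ∀ X, has (cls P σ y n l) X = true →
      okOpt (cls P σ y n l) X (kidOpt P Q y n σ l X) = true := by
  intro X hX
  have hXp : X ≠ Lb.p := by
    rintro rfl
    exact absurd hX (by simp [has])
  have hXP := (has_cls hXp).1 hX
  have hperp0 : Dir.perp (frame σ n l X) (frame σ n l (X.ordL Lb.s0)) = true := by
    rw [frame_perp σ n l hnl]
    exact perp_ordL _ hXp _ (by decide) (by decide)
  simp only [okOpt, Bool.and_eq_true, decide_eq_true_eq]
  refine ⟨⟨cls_lt, ?_⟩, ?_⟩
  · have := hQ (frame σ n l X) (fun hc => hXp (frame_inj σ n l hnl X Lb.p hc)) hXP σ _ hperp0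
    simp only [kidOpt]
    split_ifs at this ⊢ with h
    · simpa using this
    · simpa using this
  · rw [List.all_eq_true]
    intro m hm
    have hmo : m ≠ Lb.o ∧ m ≠ Lb.p := by
      revert hm
      revert m
      decide
    rw [Bool.or_eq_true, Bool.not_eq_true', Bool.and_eq_true, decide_eq_true_eq,
      Bool.not_eq_true']
    by_cases hk : has (kidOpt P Q y n σ l X).1 m = true
    · right
      rw [show (kidOpt P Q y n σ l X).1 = cls P σ (y + (frame σ n l X).vec) (frame σ n l X)
        (frame σ n l (X.ordL Lb.s0)) from rfl, has_cls hmo.2,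
        frame_child σ n l hnl X m hXp] at hk
      have hgood : GoodEdge P y (frame σ n l X) (frame σ n l (X.ordL m)) := by
        apply hy.good
        rw [frame_perp σ n l hnl]
        exact perp_ordL _ hXp _ hmo.1 hmo.2
      have hnot : y + (frame σ n l (X.ordL m)).vec ∉ P := fun hc => hgood.1 hXP hc hk
      have hne : X.ordL m ≠ Lb.p := by
        intro hc
        rw [hc] at hnot
        exact hnot hb
      refine ⟨hne, ?_⟩
      rw [← Bool.not_eq_true, has_cls hne]
      exact hnot
    · left
      simpa using hk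

/-- The step of the induction. -/
theorem inv_step (cert : Certificate Rep) {y : Cube} {n : Dir} (hy : NodeOK P y)
    (hb : y + n.neg.vec ∈ P)
    (ih : ∀ u : Dir, u ≠ n.neg → y + u.vec ∈ P → Inv Rep P (y + u.vec) u) : Inv Rep P y n := by
  have hex : ∀ u : Dir, ∃ Q : Bool → Dir → ℕ, u ≠ n.neg → y + u.vec ∈ P →
      ∀ (σ : Bool) (l : Dir), Dir.perp u l = true →
      (if isTwo (cls P σ (y + u.vec) u l) = true then Q σ l < 3 else Q σ l = 0) ∧
      (∀ τ, Avail Rep (cls P σ (y + u.vec) u l) (Q σ l) τ → BClaim P σ (y + u.vec) u l τ) ∧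
      mirO (cls P σ (y + u.vec) u l, Q σ l) = (cls P (!σ) (y + u.vec) u l, Q (!σ) l) := by
    intro u
    by_cases hu : u ≠ n.neg ∧ y + u.vec ∈ P
    · obtain ⟨Q, hQ⟩ := inv_opt (ih u hu.1 hu.2)
      exact ⟨Q, fun _ _ => hQ⟩
    · exact ⟨fun _ _ => 0, fun h1 h2 => absurd ⟨h1, h2⟩ hu⟩
  choose Q hQ using hex
  have hQ1 : ∀ u : Dir, u ≠ n.neg → y + u.vec ∈ P → ∀ (σ : Bool) (l : Dir),
      Dir.perp u l = true →
      (if isTwo (cls P σ (y + u.vec) u l) = true then Q u σ l < 3 else Q u σ l = 0) :=
    fun u h1 h2 σ l h3 => (hQ u h1 h2 σ l h3).1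
  have hQ2 : ∀ u : Dir, u ≠ n.neg → y + u.vec ∈ P → ∀ (σ : Bool) (l : Dir),
      Dir.perp u l = true → ∀ τ, Avail Rep (cls P σ (y + u.vec) u l) (Q u σ l) τ →
        BClaim P σ (y + u.vec) u l τ :=
    fun u h1 h2 σ l h3 => (hQ u h1 h2 σ l h3).2.1
  refine ⟨?_, ?_⟩
  · intro c hc hc17 σ l hnl hcls
    subst hcls
    exact reach_claims hy hnl hb hQ2 (fun _ _ => rfl)
      (cert.one _ hc hc17 _ (kidOpt_ok hy hnl hb hQ1))
  · by_cases hfr : ∃ (σ : Bool) (l : Dir), Dir.perp n l = true ∧ cls P σ y n l = 17
    · obtain ⟨σ, l, hnl, hcls⟩ := hfr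
      have hcls' : cls P (!σ) y n l = 17 := by
        rw [cls_mir hnl, hcls]
        rfl
      -- options of the children in the mirrored frame
      have hmir : ∀ X, has 17 X = true →
          mirO (kidOpt P Q y n σ l X) = kidOpt P Q y n (!σ) l X := by
        intro X hX
        have hcase : X = Lb.s0 ∨ X = Lb.o := by
          revert hX
          revert X
          decide
        have hXp : X ≠ Lb.p := by
          rcases hcase with rfl | rfl <;> decide
        have hXP : y + (frame σ n l X).vec ∈ P := by
          rw [← has_cls hXp, hcls]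
          exact hX
        have hperp0 : Dir.perp (frame σ n l X) (frame σ n l (X.ordL Lb.s0)) = true := by
          rw [frame_perp σ n l hnl]
          exact perp_ordL _ hXp _ (by decide) (by decide)
        have := (hQ (frame σ n l X) (fun hc => hXp (frame_inj σ n l hnl X Lb.p hc)) hXP σ _
          hperp0).2.2
        rcases hcase with rfl | rfl
        · exact this
        · exact this
      have hok : ∀ X, has 17 X = true → okOpt 17 X (kidOpt P Q y n σ l X) = true := by
        have := kidOpt_ok (σ := σ) hy hnl hb hQ1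
        rw [hcls] at this
        exact this
      rcases cert.two _ hok with h | h | ⟨h, h'⟩
      · left
        refine ⟨σ, l, hnl, hcls, ?_⟩
        refine reach_claims (K := kidOpt P Q y n σ l) hy hnl hb hQ2 (fun _ _ => rfl) ?_
        rw [hcls]
        exact h
      · left
        refine ⟨!σ, l, hnl, hcls', ?_⟩
        refine reach_claims (K := fun X => mirO (kidOpt P Q y n σ l X)) hy hnl hb hQ2 ?_ ?_
        · rw [hcls']
          exact hmir
        · rw [hcls']
          exact h
      · right
        intro σ' l' hnl' hc17'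
        have hl : l' = l := by
          refine side_unique hnl hcls hnl' ?_
          have h17 : has 17 Lb.s0 = true := by decide
          rw [← hc17', has_cls (by decide)] at h17
          exact h17
        subst hl
        have hσ : σ' = σ ∨ σ' = !σ := by
          cases σ <;> cases σ' <;> simp
        rcases hσ with rfl | rfl
        · refine reach_claims (K := kidOpt P Q y n σ' l') hy hnl hb hQ2 (fun _ _ => rfl) ?_
          rw [hcls]
          exact h
        · refine reach_claims (K := fun X => mirO (kidOpt P Q y n σ l' X)) hy hnl hb hQ2 ?_ ?_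
          · rw [hcls']
            exact hmir
          · rw [hcls']
            exact h'
    · right
      intro σ l hnl hcls
      exact absurd ⟨σ, l, hnl, hcls⟩ hfr

/-- Local goodness of a polycube. -/
def GoodPoly (P : Finset Cube) : Prop :=
  ∀ y ∈ P, ∀ u v : Dir, Dir.perp u v = true → GoodEdge P y u v

/-- The invariant holds for every branch. -/
theorem inv_all (cert : Certificate Rep) (hG : (cubeGraph P).IsAcyclic) (hgood : GoodPoly P)
    {y : Cube} {n : Dir} (hy : y ∈ P) (hb : y + n.neg.vec ∈ P) : Inv Rep P y n := by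
  have key : ∀ b y, (cubeGraph P).Adj b y → ∀ n : Dir, y = b + n.vec → Inv Rep P y n := by
    refine branch_induction (P := (P : Set Cube)) hG (Finset.finite_toSet P)
      (fun a b h => ⟨h.1, h.2.1⟩)
      (fun b y => ∀ n : Dir, y = b + n.vec → Inv Rep P y n) ?_
    intro b y hby ih n hn
    have hbe : b = y + n.neg.vec := by
      rw [hn, Dir.vec_neg]; abel
    refine inv_step cert ⟨hby.2.1, hG, hgood y hby.2.1⟩ ?_ ?_
    · rw [← hbe]; exact hby.1
    · intro u hu hP
      refine ih (y + u.vec) (cubeGraph_adj hby.2.1 hP) ?_ u rfl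
      intro hc
      rw [hbe] at hc
      exact hu (vec_injective (add_left_cancel hc))
  refine key (y + n.neg.vec) y (cubeGraph_adj hy hb).symm n ?_
  rw [Dir.vec_neg]; abel

/-- Every branch has a claim without a reserved cell. -/
theorem exists_claim (cert : Certificate Rep) (hG : (cubeGraph P).IsAcyclic)
    (hgood : GoodPoly P) {y : Cube} {n l : Dir} (hnl : Dir.perp n l = true) (hy : y ∈ P)
    (hb : y + n.neg.vec ∈ P) (σ : Bool) : ∃ κ : Clm, κ.g = none ∧ BClaim P σ y n l κ := by
  obtain ⟨Q, hQ⟩ := inv_opt (inv_all cert hG hgood hy hb)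
  obtain ⟨h1, h2, -⟩ := hQ σ l hnl
  obtain ⟨τ, h3, h4⟩ := cert.fin _ cls_lt (Q σ l) h1
  exact ⟨τ, h3, h2 τ h4⟩

end Pool.Agent.Helper17.UF
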