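import Mathlib

/-!
# Branches of a finite forest (project UF, MP_409f7f_co)

`G` is an acyclic graph all of whose edges lie in a finite set.  `Br G b y` is the set of vertices
that can be reached from `y` by a walk that avoids `b`.
-/

namespace Pool.Agent.Helper17.UF

open SimpleGraph

variable {V : Type*} (G : SimpleGraph V)

/-- The branch at `y` seen from `b`. -/
def Br (b y : V) : Set V := {c | ∃ p : G.Walk y c, b ∉ p.support}

variable {G}

theorem self_mem_Br {b y : V} (h : b ≠ y) : y ∈ Br G b y :=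
  ⟨Walk.nil, by simpa using h⟩

theorem not_mem_Br_root {b y : V} : b ∉ Br G b y := by
  rintro ⟨p, hp⟩
  exact hp p.end_mem_support

/-- Walks avoiding a vertex can be made paths. -/
theorem exists_path_avoid {b y c : V} (h : c ∈ Br G b y) :
    ∃ p : G.Path y c, b ∉ (p : G.Walk y c).support := by
  classical
  obtain ⟨p, hp⟩ := h
  exact ⟨p.toPath, fun hb => hp (p.support_toPath_subset_support hb)⟩

theorem Br_step {b y c c' : V} (h : c ∈ Br G b y) (ha : G.Adj c c') (hb : c' ≠ b) :
    c' ∈ Br G b y := by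
  obtain ⟨p, hp⟩ := h
  refine ⟨p.append (Walk.cons ha Walk.nil), ?_⟩
  intro hm
  rw [Walk.mem_support_append_iff] at hm
  rcases hm with hm | hm
  · exact hp hm
  · simp only [Walk.support_cons, Walk.support_nil, List.mem_cons, List.not_mem_nil, or_false] at hm
    rcases hm with rfl | rfl
    · exact hp p.end_mem_support
    · exact hb rfl

/-- In an acyclic graph two different neighbours of `y` are not joined by a walk avoiding `y`. -/
theorem not_mem_Br_of_adj (hG : G.IsAcyclic) {y z w : V} (hz : G.Adj y z) (hw : G.Adj y w)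
    (hne : z ≠ w) : w ∉ Br G y z := by
  classical
  intro h
  obtain ⟨p, hp⟩ := exists_path_avoid h
  have hq : (Walk.cons hz.symm (Walk.cons hw Walk.nil) : G.Walk z w).IsPath := by
    rw [Walk.cons_isPath_iff, Walk.cons_isPath_iff]
    refine ⟨⟨Walk.IsPath.nil, by simpa using hw.ne⟩, ?_⟩
    simp only [Walk.support_cons, Walk.support_nil, List.mem_cons, List.not_mem_nil, or_false,
      not_or]
    exact ⟨hz.ne', hne⟩
  have := (hG.subsingleton_path z w).elim p ⟨_, hq⟩
  apply hp
  rw [this]
  simp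

theorem Br_subset_Br (hG : G.IsAcyclic) {b y z : V} (hb : G.Adj b y) (hz : G.Adj y z)
    (hne : z ≠ b) : Br G y z ⊆ Br G b y := by
  classical
  rintro c ⟨p, hp⟩
  refine ⟨Walk.cons hz p, ?_⟩
  rw [Walk.support_cons, List.mem_cons, not_or]
  refine ⟨hb.ne, fun hm => ?_⟩
  exact not_mem_Br_of_adj hG hz hb.symm hne
    ⟨p.takeUntil b hm, fun h => hp (p.support_takeUntil_subset_support hm h)⟩

/-- Decomposition of a branch. -/
theorem mem_Br_iff (hG : G.IsAcyclic) {b y : V} (hb : G.Adj b y) (c : V) :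
    c ∈ Br G b y ↔ c = y ∨ ∃ z, G.Adj y z ∧ z ≠ b ∧ c ∈ Br G y z := by
  classical
  constructor
  · intro h
    obtain ⟨p, hp⟩ := exists_path_avoid h
    obtain ⟨p, hpp⟩ := p
    cases p with
    | nil => exact Or.inl rfl
    | @cons _ z _ hz q =>
      right
      rw [Walk.cons_isPath_iff] at hpp
      refine ⟨z, hz, ?_, q, hpp.2⟩
      rintro rfl
      apply hp
      simp
  · rintro (rfl | ⟨z, hz, hne, hc⟩)
    · exact self_mem_Br hb.ne
    · exact Br_subset_Br hG hb hz hne hc

theorem Br_disjoint (hG : G.IsAcyclic) {y z w : V} (hz : G.Adj y z) (hw : G.Adj y w)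
    (hne : z ≠ w) : Disjoint (Br G y z) (Br G y w) := by
  rw [Set.disjoint_left]
  rintro c ⟨p, hp⟩ ⟨q, hq⟩
  refine not_mem_Br_of_adj hG hz hw hne ⟨p.append q.reverse, ?_⟩
  rw [Walk.mem_support_append_iff]
  simp only [Walk.support_reverse, List.mem_reverse, not_or]
  exact ⟨hp, hq⟩

/-- No edge leaves a branch except the neck. -/
theorem Br_boundary (hG : G.IsAcyclic) {y z c c' : V} (hz : G.Adj y z) (hc : c ∈ Br G y z)
    (ha : G.Adj c c') : c' ∈ Br G y z ∨ (c = z ∧ c' = y) := by
  classical
  by_cases h : c' = y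
  · right
    subst h
    refine ⟨?_, rfl⟩
    by_contra hne
    exact not_mem_Br_of_adj hG hz ha.symm (Ne.symm hne) hc
  · exact Or.inl (Br_step hc ha h)

theorem Br_subset_of_edges {P : Set V} (hP : ∀ a b, G.Adj a b → a ∈ P ∧ b ∈ P) {b y : V}
    (hb : G.Adj b y) : Br G b y ⊆ P := by
  have key : ∀ {u c : V}, G.Walk u c → u ∈ P → c ∈ P := by
    intro u c p
    induction p with
    | nil => exact fun h => h
    | cons h q ih => exact fun _ => ih (hP _ _ h).2
  rintro c ⟨p, -⟩
  exact key p (hP _ _ hb).2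

theorem Br_ssubset (hG : G.IsAcyclic) {b y z : V} (hb : G.Adj b y) (hz : G.Adj y z)
    (hne : z ≠ b) : Br G y z ⊂ Br G b y := by
  refine ⟨Br_subset_Br hG hb hz hne, fun h => ?_⟩
  exact not_mem_Br_root (h (self_mem_Br hb.ne))

/-- Induction over the branches of a finite forest. -/
theorem branch_induction (hG : G.IsAcyclic) {P : Set V} (hfin : P.Finite)
    (hP : ∀ a b, G.Adj a b → a ∈ P ∧ b ∈ P) (motive : V → V → Prop)
    (step : ∀ b y, G.Adj b y → (∀ z, G.Adj y z → z ≠ b → motive y z) → motive b y)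
    (b y : V) (hb : G.Adj b y) : motive b y := by
  have key : ∀ n : ℕ, ∀ b y, G.Adj b y → (Br G b y).ncard = n → motive b y := by
    intro n
    induction n using Nat.strong_induction_on with
    | _ n ih =>
      intro b y hb hn
      refine step b y hb (fun z hz hne => ?_)
      have hlt : (Br G y z).ncard < n := by
        rw [← hn]
        exact Set.ncard_lt_ncard (Br_ssubset hG hb hz hne)
          (hfin.subset (Br_subset_of_edges hP hb))
      exact ih _ hlt y z hz rfl
  exact key _ b y hb rfl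

/-- In a connected forest the whole set is a vertex together with its branches. -/
theorem mem_iff_root {P : Set V} (hP : ∀ a b, G.Adj a b → a ∈ P ∧ b ∈ P)
    (hconn : ∀ a ∈ P, ∀ b ∈ P, G.Reachable a b) {r : V} (hr : r ∈ P) (c : V) :
    c ∈ P ↔ c = r ∨ ∃ z, G.Adj r z ∧ c ∈ Br G r z := by
  classical
  constructor
  · intro hc
    obtain ⟨p⟩ := hconn r hr c hc
    obtain ⟨p, hpp⟩ := p.toPath
    cases p with
    | nil => exact Or.inl rfl
    | @cons _ z _ hz q =>
      right
      rw [Walk.cons_isPath_iff] at hpp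
      exact ⟨z, hz, q, hpp.2⟩
  · rintro (rfl | ⟨z, hz, hc⟩)
    · exact hr
    · exact Br_subset_of_edges hP hz hc

/-- A finite forest with an edge has a leaf. -/
theorem exists_leaf (hG : G.IsAcyclic) {P : Set V} (hfin : P.Finite)
    (hP : ∀ a b, G.Adj a b → a ∈ P ∧ b ∈ P) (hne : ∃ a b, G.Adj a b) :
    ∃ r y, G.Adj r y ∧ ∀ z, G.Adj r z → z = y := by
  by_contra hcon
  push Not at hcon
  obtain ⟨a, b, hab⟩ := hne
  refine branch_induction hG hfin hP (fun _ _ => False) ?_ a b hab
  intro b y hb ih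
  obtain ⟨z, hz, hzb⟩ := hcon y b hb.symm
  exact ih z hz hzb

end Pool.Agent.Helper17.UF
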