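import Pool.Agent.Helper17.UF.Core
import Pool.Agent.Helper17.UF.Tree

/-!
# Local structure at a cube: frames, edge elements, crossing lemma, faces of a branch
(project UF, MP_409f7f_co)
-/

namespace Pool.Agent.Helper17.UF

/-- The adjacency graph of a polycube. -/
def cubeGraph (P : Finset Cube) : SimpleGraph Cube where
  Adj a b := a ∈ P ∧ b ∈ P ∧ ∃ d : Dir, b = a + d.vec
  symm := ⟨by
    rintro a b ⟨ha, hb, d, rfl⟩
    refine ⟨hb, ha, d.neg, ?_⟩
    rw [Dir.vec_neg]; abel⟩
  loopless := ⟨by
    rintro a ⟨-, -, d, hd⟩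
    have : d.vec = 0 := by
      have := congrArg (fun x => x - a) hd
      simpa using this.symm
    revert this
    cases d <;> decide⟩

/-- The side element on the `u`-side of the cube edge `(u, v)` of the cube `y`. -/
def el (P : Finset Cube) (y : Cube) (u v : Dir) : Side :=
  if y + u.vec ∉ P then ((y, u), v)
  else if y + u.vec + v.vec ∉ P then ((y + u.vec, v), u.neg)
  else ((y + u.vec + v.vec, u.neg), v.neg)

/-- Local goodness of a polycube at the cube edge `(u, v)` of `y`. -/
def GoodEdge (P : Finset Cube) (y : Cube) (u v : Dir) : Prop :=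
  (y + u.vec ∈ P → y + v.vec ∈ P → y + u.vec + v.vec ∉ P) ∧
  (y + u.vec ∉ P → y + v.vec ∉ P → y + u.vec + v.vec ∉ P)

theorem GoodEdge.symm {P : Finset Cube} {y : Cube} {u v : Dir} (h : GoodEdge P y u v) :
    GoodEdge P y v u := by
  have e : y + v.vec + u.vec = y + u.vec + v.vec := by abel
  refine ⟨fun a b => ?_, fun a b => ?_⟩
  · rw [e]; exact h.1 b a
  · rw [e]; exact h.2 b a

/-- The two edge elements at a cube edge are neighbours on the surface. -/
theorem crossing {P : Finset Cube} {y : Cube} {u v : Dir} (hy : y ∈ P)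
    (h : GoodEdge P y u v) :
    nbr P (el P y u v).1 (el P y u v).2 = el P y v u := by
  have c1 : y + u.vec + v.vec = y + v.vec + u.vec := by abel
  have c2 : y + u.vec + u.neg.vec = y := by rw [Dir.vec_neg]; abel
  have c3 : y + u.vec + u.neg.vec + v.vec = y + v.vec := by rw [Dir.vec_neg]; abel
  have c4 : y + u.vec + v.vec + v.neg.vec + u.neg.vec = y := by
    rw [Dir.vec_neg, Dir.vec_neg]; abel
  by_cases hu : y + u.vec ∈ P <;> by_cases hv : y + v.vec ∈ P
  · -- both occupied
    have huv : y + u.vec + v.vec ∉ P := h.1 hu hv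
    have hvu : y + v.vec + u.vec ∉ P := by rw [← c1]; exact huv
    simp only [el, hu, hv, huv, hvu, not_true_eq_false, not_false_eq_true, if_true, if_false,
      nbr, c3, Dir.neg_neg]
  · by_cases huv : y + u.vec + v.vec ∈ P
    · simp only [el, hu, hv, huv, not_true_eq_false, not_false_eq_true, if_true, if_false,
        nbr, c4, hy, Dir.neg_neg]
    · simp only [el, hu, hv, huv, not_true_eq_false, not_false_eq_true, if_true, if_false,
        nbr, c2, hy, Dir.neg_neg]
  · by_cases huv : y + u.vec + v.vec ∈ P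
    · have hvu : y + v.vec + u.vec ∈ P := by rw [← c1]; exact huv
      simp only [el, hu, hv, hvu, not_true_eq_false, not_false_eq_true, if_true, if_false,
        nbr]
    · have hvu : y + v.vec + u.vec ∉ P := by rw [← c1]; exact huv
      simp only [el, hu, hv, hvu, not_true_eq_false, not_false_eq_true, if_true, if_false,
        nbr]
  · have huv : y + u.vec + v.vec ∉ P := h.2 hu hv
    have hvu : y + v.vec + u.vec ∉ P := by rw [← c1]; exact huv
    simp only [el, hu, hv, hvu, not_true_eq_false, not_false_eq_true, if_true, if_false,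
      nbr]

/-- The element of a side that carries a cube, seen from that cube. -/
theorem el_child {P : Finset Cube} {y : Cube} {u v : Dir} (hu : y + u.vec ∈ P)
    (h : GoodEdge P y u v) : el P y u v = el P (y + u.vec) v u.neg := by
  have c : y + u.vec + v.vec + u.neg.vec = y + v.vec := by rw [Dir.vec_neg]; abel
  by_cases huv : y + u.vec + v.vec ∈ P
  · have hv : y + v.vec ∉ P := fun hv => h.1 hu hv huv
    simp only [el, hu, huv, not_true_eq_false, not_false_eq_true, if_true, if_false, c, hv]
  · simp only [el, hu, huv, not_true_eq_false, not_false_eq_true, if_true, if_false]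

theorem el_exposed {P : Finset Cube} {y : Cube} {u : Dir} (hu : y + u.vec ∉ P) (v : Dir) :
    el P y u v = ((y, u), v) := by
  simp only [el, hu, not_false_eq_true, if_true]

/-- Faces of the branch at `y` seen from `b`. -/
def branchFaces (P : Finset Cube) (b y : Cube) : Set Face :=
  {A | IsFace P A ∧ A.1 ∈ Br (cubeGraph P) b y}

/-- Faces that belong to the side `u` of `y`. -/
def sideFaces (P : Finset Cube) (y : Cube) (u : Dir) : Set Face :=
  {A | (y + u.vec ∉ P ∧ A = (y, u)) ∨ (y + u.vec ∈ P ∧ A ∈ branchFaces P y (y + u.vec))}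

theorem sideFaces_exposed {P : Finset Cube} {y : Cube} {u : Dir} (hu : y + u.vec ∉ P) :
    sideFaces P y u = {(y, u)} := by
  ext A
  simp only [sideFaces, hu, not_false_eq_true, true_and, false_and, or_false, Set.mem_ofPred_eq,
    Set.mem_singleton_iff]

theorem sideFaces_branch {P : Finset Cube} {y : Cube} {u : Dir} (hu : y + u.vec ∈ P) :
    sideFaces P y u = branchFaces P y (y + u.vec) := by
  ext A
  simp only [sideFaces, hu, not_true_eq_false, true_and, false_and, false_or, Set.mem_ofPred_eq]

theorem cubeGraph_adj {P : Finset Cube} {y : Cube} {u : Dir} (hy : y ∈ P)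
    (hu : y + u.vec ∈ P) : (cubeGraph P).Adj y (y + u.vec) := ⟨hy, hu, u, rfl⟩

theorem vec_injective : Function.Injective Dir.vec := by
  intro a b h
  revert h
  cases a <;> cases b <;> decide

/-- The faces of a branch are the faces of the sides of its root cube. -/
theorem branchFaces_eq {P : Finset Cube} (hG : (cubeGraph P).IsAcyclic) {y : Cube} {n : Dir}
    (hy : y ∈ P) (hb : y + n.neg.vec ∈ P) :
    branchFaces P (y + n.neg.vec) y = {A | ∃ u : Dir, u ≠ n.neg ∧ A ∈ sideFaces P y u} := by
  have hadj : (cubeGraph P).Adj (y + n.neg.vec) y := (cubeGraph_adj hy hb).symm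
  ext A
  constructor
  · rintro ⟨hA, hbr⟩
    rw [mem_Br_iff hG hadj] at hbr
    rcases hbr with h | ⟨z, hz, hne, h⟩
    · obtain ⟨c, d⟩ := A
      simp only at h
      subst h
      refine ⟨d, ?_, Or.inl ⟨hA.2, rfl⟩⟩
      rintro rfl
      exact hA.2 hb
    · obtain ⟨-, hzP, d, rfl⟩ := hz
      refine ⟨d, ?_, Or.inr ⟨hzP, hA, h⟩⟩
      rintro rfl
      exact hne rfl
  · rintro ⟨u, hu, ⟨hP, rfl⟩ | ⟨hP, hA⟩⟩
    · exact ⟨⟨hy, hP⟩, (mem_Br_iff hG hadj _).2 (Or.inl rfl)⟩
    · refine ⟨hA.1, (mem_Br_iff hG hadj _).2 (Or.inr ⟨_, cubeGraph_adj hy hP, ?_, hA.2⟩)⟩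
      intro h
      exact hu (vec_injective (add_left_cancel h))

/-- Different sides have disjoint face sets. -/
theorem sideFaces_disjoint {P : Finset Cube} (hG : (cubeGraph P).IsAcyclic) {y : Cube}
    (hy : y ∈ P) {u v : Dir} (huv : u ≠ v) : Disjoint (sideFaces P y u) (sideFaces P y v) := by
  rw [Set.disjoint_left]
  rintro A (⟨-, rfl⟩ | ⟨hu, hA⟩) (⟨-, h⟩ | ⟨hv, hB⟩)
  · exact huv (Prod.ext_iff.1 h).2
  · exact not_mem_Br_root hB.2
  · subst h
    exact not_mem_Br_root hA.2
  · refine Set.disjoint_left.1 (Br_disjoint hG (cubeGraph_adj hy hu) (cubeGraph_adj hy hv) ?_)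
      hA.2 hB.2
    intro h
    exact huv (vec_injective (add_left_cancel h))

end Pool.Agent.Helper17.UF
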