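import Pool.Agent.Helper17.UF.Segment

/-!
# Routes through a cube and their soundness (project UF, MP_409f7f_co)
-/

namespace Pool.Agent.Helper17.UF

namespace St

/-- Boolean version of the region. -/
def inFb : St → ℤ → ℤ → Bool
  | N u v, x, y => decide (2 ≤ x) || (decide (x = 1) && (decide (0 ≤ y) || !u)) ||
      (decide (x = 0) && decide (0 ≤ y)) || (decide (x = -1) && decide (0 ≤ y) && v)
  | S u v, x, y => decide (2 ≤ x) || (decide (x = 1) && (decide (y ≤ 0) || !u)) ||
      (decide (x = 0) && decide (y ≤ 0)) || (decide (x = -1) && decide (y ≤ 0) && v)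
  | E a b c d, x, y => decide (1 ≤ x) || (decide (x = 0) && (decide (y = 0) ||
      (decide (0 < y) && !a) || (decide (y < 0) && !b))) ||
      (decide (x = -1) && ((decide (0 < y) && c) || (decide (y < 0) && d)))

theorem inFb_iff (s : St) (w : ℤ × ℤ) : s.inFb w.1 w.2 = true ↔ s.inF w := by
  obtain ⟨x, y⟩ := w
  cases s with
  | N u v => cases u <;> cases v <;> simp [inFb, inF, or_assoc]
  | S u v => cases u <;> cases v <;> simp [inFb, inF, or_assoc]
  | E a b c d => cases a <;> cases b <;> cases c <;> cases d <;> simp [inFb, inF, or_assoc]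

/-- Boolean inclusion of regions with the same heading. -/
def leB : St → St → Bool
  | N u v, N u' v' => (u || !u') && (!v || v')
  | S u v, S u' v' => (u || !u') && (!v || v')
  | E a b c d, E a' b' c' d' => (a || !a') && (b || !b') && (!c || c') && (!d || d')
  | _, _ => false

theorem leB_le {s s' : St} (h : leB s s' = true) : St.le s s' := by
  cases s with
  | N u v =>
    cases s' with
    | N u' v' =>
      refine ⟨rfl, ?_⟩
      rintro ⟨x, y⟩
      revert h
      cases u <;> cases v <;> cases u' <;> cases v' <;> simp [leB, inF] <;> omega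
    | S _ _ => simp [leB] at h
    | E _ _ _ _ => simp [leB] at h
  | S u v =>
    cases s' with
    | S u' v' =>
      refine ⟨rfl, ?_⟩
      rintro ⟨x, y⟩
      revert h
      cases u <;> cases v <;> cases u' <;> cases v' <;> simp [leB, inF] <;> omega
    | N _ _ => simp [leB] at h
    | E _ _ _ _ => simp [leB] at h
  | E a b c d =>
    cases s' with
    | E a' b' c' d' =>
      refine ⟨rfl, ?_⟩
      rintro ⟨x, y⟩
      simp only [leB, Bool.and_eq_true, Bool.or_eq_true, Bool.not_eq_true'] at h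
      obtain ⟨⟨⟨h1, h2⟩, h3⟩, h4⟩ := h
      simp only [inF]
      rintro (hx | ⟨hx, hy | ⟨hy, ha⟩ | ⟨hy, hb⟩⟩ | ⟨hx, ⟨hy, hc⟩ | ⟨hy, hd⟩⟩)
      · exact Or.inl hx
      · exact Or.inr (Or.inl ⟨hx, Or.inl hy⟩)
      · refine Or.inr (Or.inl ⟨hx, Or.inr (Or.inl ⟨hy, ?_⟩)⟩)
        rcases h1 with h1 | h1
        · rw [ha] at h1; exact absurd h1 (by decide)
        · exact h1
      · refine Or.inr (Or.inl ⟨hx, Or.inr (Or.inr ⟨hy, ?_⟩)⟩)
        rcases h2 with h2 | h2
        · rw [hb] at h2; exact absurd h2 (by decide)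
        · exact h2
      · refine Or.inr (Or.inr ⟨hx, Or.inl ⟨hy, ?_⟩⟩)
        rcases h3 with h3 | h3
        · rw [hc] at h3; exact absurd h3 (by decide)
        · exact h3
      · refine Or.inr (Or.inr ⟨hx, Or.inr ⟨hy, ?_⟩⟩)
        rcases h4 with h4 | h4
        · rw [hd] at h4; exact absurd h4 (by decide)
        · exact h4
    | N _ _ => simp [leB] at h
    | S _ _ => simp [leB] at h

/-- Clamping to an interval. -/
theorem inFb_clamp (s : St) (x y x' y' : ℤ)
    (hx : x = x' ∨ (2 ≤ x ∧ 2 ≤ x') ∨ (x ≤ -2 ∧ x' ≤ -2))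
    (hy : y = y' ∨ (1 ≤ y ∧ 1 ≤ y') ∨ (y ≤ -1 ∧ y' ≤ -1)) :
    s.inF (x, y) ↔ s.inF (x', y') := by
  cases s with
  | N u v => cases u <;> cases v <;> simp only [inF] <;> constructor <;> intro h <;>
      simp at h ⊢ <;> omega
  | S u v => cases u <;> cases v <;> simp only [inF] <;> constructor <;> intro h <;>
      simp at h ⊢ <;> omega
  | E a b c d => cases a <;> cases b <;> cases c <;> cases d <;> simp only [inF] <;>
      constructor <;> intro h <;> simp at h ⊢ <;> omega

/-- Boolean check of nestedness `q + F_t ⊆ F_s` on a finite window. -/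
def nestB (s t : St) (q : ℤ × ℤ) : Bool :=
  (List.range 13).all fun i => (List.range 13).all fun j =>
    !(t.inFb ((i : ℤ) - 6 - q.1) ((j : ℤ) - 6 - q.2)) || s.inFb ((i : ℤ) - 6) ((j : ℤ) - 6)

theorem nestB_nest {s t : St} {q : ℤ × ℤ} (h : nestB s t q = true)
    (h1 : -4 ≤ q.1) (h2 : q.1 ≤ 4) (h3 : -5 ≤ q.2) (h4 : q.2 ≤ 5) :
    ∀ v, t.inF (v - q) → s.inF v := by
  rintro ⟨x, y⟩ hv
  obtain ⟨qx, qy⟩ := q
  simp only at h1 h2 h3 h4
  have hv' : t.inF (x - qx, y - qy) := hv
  -- clamp the point into the window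
  obtain ⟨x', hx1, hx2, hx3, hx4⟩ : ∃ x' : ℤ, -6 ≤ x' ∧ x' ≤ 6 ∧
      (x = x' ∨ (2 ≤ x ∧ 2 ≤ x') ∨ (x ≤ -2 ∧ x' ≤ -2)) ∧
      (x - qx = x' - qx ∨ (2 ≤ x - qx ∧ 2 ≤ x' - qx) ∨ (x - qx ≤ -2 ∧ x' - qx ≤ -2)) := by
    by_cases c1 : 6 < x
    · exact ⟨6, by omega, by omega, by omega, by omega⟩
    · by_cases c2 : x < -6
      · exact ⟨-6, by omega, by omega, by omega, by omega⟩
      · exact ⟨x, by omega, by omega, by omega, by omega⟩
  obtain ⟨y', hy1, hy2, hy3, hy4⟩ : ∃ y' : ℤ, -6 ≤ y' ∧ y' ≤ 6 ∧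
      (y = y' ∨ (1 ≤ y ∧ 1 ≤ y') ∨ (y ≤ -1 ∧ y' ≤ -1)) ∧
      (y - qy = y' - qy ∨ (1 ≤ y - qy ∧ 1 ≤ y' - qy) ∨ (y - qy ≤ -1 ∧ y' - qy ≤ -1)) := by
    by_cases c1 : 6 < y
    · exact ⟨6, by omega, by omega, by omega, by omega⟩
    · by_cases c2 : y < -6
      · exact ⟨-6, by omega, by omega, by omega, by omega⟩
      · exact ⟨y, by omega, by omega, by omega, by omega⟩
  rw [inFb_clamp s x y x' y' hx3 hy3]
  rw [inFb_clamp t (x - qx) (y - qy) (x' - qx) (y' - qy) hx4 hy4] at hv'
  simp only [nestB, List.all_eq_true, List.mem_range, Bool.or_eq_true, Bool.not_eq_true'] at h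
  have hh := h (x' + 6).toNat (by omega) (y' + 6).toNat (by omega)
  have ex : (((x' + 6).toNat : ℕ) : ℤ) = x' + 6 := Int.toNat_of_nonneg (by omega)
  have ey : (((y' + 6).toNat : ℕ) : ℤ) = y' + 6 := Int.toNat_of_nonneg (by omega)
  rw [ex, ey] at hh
  have e1 : x' + 6 - 6 = x' := by ring
  have e2 : y' + 6 - 6 = y' := by ring
  rw [e1, e2] at hh
  rcases hh with hh | hh
  · exfalso
    have := (inFb_iff t (x' - qx, y' - qy)).2 hv'
    simp only at this
    rw [this] at hh
    exact absurd hh (by decide)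
  · exact (inFb_iff s (x', y')).1 hh

end St

namespace Lb

/-- Labels of the parent for the labels of the child at side `X`. -/
def ordL : Lb → Lb → Lb
  | s0, s0 => p | s0, s1 => s1 | s0, s2 => o | s0, s3 => s3 | s0, o => s0 | s0, p => s2
  | s1, s0 => p | s1, s1 => s2 | s1, s2 => o | s1, s3 => s0 | s1, o => s1 | s1, p => s3
  | s2, s0 => p | s2, s1 => s3 | s2, s2 => o | s2, s3 => s1 | s2, o => s2 | s2, p => s0
  | s3, s0 => p | s3, s1 => s0 | s3, s2 => o | s3, s3 => s2 | s3, o => s3 | s3, p => s1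
  | o, m => m
  | p, m => m

end Lb

theorem frame_child : ∀ (σ : Bool) (n l : Dir), Dir.perp n l = true → ∀ X m : Lb, X ≠ Lb.p →
    frame σ (frame σ n l X) (frame σ n l (X.ordL Lb.s0)) m = frame σ n l (X.ordL m) := by decide

/-- A claim: entry side, entry state, exit side, exit state, carried side. -/
structure Clm where
  i : Lb
  s : St
  j : Lb
  g : Option Lb
  t : St
  deriving DecidableEq

/-- The claim `κ` holds for the branch at `y` with normal `n` (the parent cube is `y - n`). -/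
def BClaim (P : Finset Cube) (σ : Bool) (y : Cube) (n l : Dir) (κ : Clm) : Prop :=
  Piece P σ (branchFaces P (y + n.neg.vec) y) (el P y (frame σ n l κ.i) n.neg) κ.s
    (el P y (frame σ n l κ.j) n.neg) κ.t (κ.g.map fun k => el P y (frame σ n l k) n.neg)

/-- Steps of a route. -/
inductive Step
  | seg (s : St) (cells : List Cell) (q : ℤ × ℤ) (F Z : Lb) (t : St) (C : Option Lb)
  | kid (κ : Clm)

/-- Boolean validity of a segment entered at `X` from `Y`. -/
def segB (cells : List Cell) (s t : St) (q : ℤ × ℤ) (X Y F Z : Lb) (C : Option Lb) : Bool :=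
  decide ((cells.map Cell.lab).Nodup) && decide ((cells.map Cell.pos).Nodup) &&
  (cells.all fun c => c.lab.perp c.e && s.inFb c.pos.1 c.pos.2 &&
    !(t.inFb (c.pos.1 - q.1) (c.pos.2 - q.2))) &&
  s.nestB t q && decide (-4 ≤ q.1) && decide (q.1 ≤ 4) && decide (-5 ≤ q.2) &&
  decide (q.2 ≤ 5) &&
  (match cells with
    | [] => false
    | c0 :: cs => connB [c0] cs) &&
  (cells.any fun c => decide (c.lab = X) && decide (c.pos = 0) &&
    decide (Lb.lH c.lab c.e s.head.opp = Y)) &&
  (cells.any fun c => decide (c.lab = F) && decide (c.pos + t.head.vec = q) &&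
    decide (Lb.lH c.lab c.e t.head = Z)) &&
  (match C with
    | none => true
    | some k => cells.any fun c => [Hd.E, Hd.N, Hd.W, Hd.S].any fun h =>
        decide (c.lab = k) && decide (Lb.lH c.lab c.e h = Lb.p) &&
        s.inFb (c.pos.1 + h.vec.1) (c.pos.2 + h.vec.2) &&
        !(t.inFb (c.pos.1 + h.vec.1 - q.1) (c.pos.2 + h.vec.2 - q.2)) &&
        cells.all fun c' => decide (c'.pos ≠ c.pos + h.vec))

theorem segB_ok {cells : List Cell} {s t : St} {q : ℤ × ℤ} {X Y F Z : Lb} {C : Option Lb}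
    (h : segB cells s t q X Y F Z C = true) : SegOK cells s t q X Y F Z C := by
  simp only [segB, Bool.and_eq_true, decide_eq_true_eq] at h
  obtain ⟨⟨⟨⟨⟨⟨⟨⟨⟨⟨⟨h1, h2⟩, h3⟩, h4⟩, h5⟩, h6⟩, h7⟩, h8⟩, h9⟩, h10⟩, h11⟩, h12⟩ := h
  rw [List.all_eq_true] at h3
  refine ⟨h1, h2, ?_, ?_, ?_, ?_, ?_, ?_, ?_⟩
  · intro c hc
    have := h3 c hc
    simp only [Bool.and_eq_true] at this
    exact this.1.1
  · intro c hc
    have := h3 c hc
    simp only [Bool.and_eq_true, Bool.not_eq_true'] at this
    refine ⟨(St.inFb_iff s c.pos).1 this.1.2, fun hh => ?_⟩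
    have hh' := (St.inFb_iff t (c.pos - q)).2 hh
    have e : t.inFb (c.pos - q).1 (c.pos - q).2 = t.inFb (c.pos.1 - q.1) (c.pos.2 - q.2) := rfl
    rw [e, this.2] at hh'
    exact absurd hh' (by decide)
  · exact St.nestB_nest h4 h5 h6 h7 h8
  · cases cells with
    | nil => simp at h9
    | cons c0 cs => exact ⟨c0, cs, rfl, h9⟩
  · rw [List.any_eq_true] at h10
    obtain ⟨c, hc, hh⟩ := h10
    simp only [Bool.and_eq_true, decide_eq_true_eq] at hh
    exact ⟨c, hc, hh.1.1, hh.1.2, hh.2⟩
  · rw [List.any_eq_true] at h11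
    obtain ⟨c, hc, hh⟩ := h11
    simp only [Bool.and_eq_true, decide_eq_true_eq] at hh
    exact ⟨c, hc, hh.1.1, hh.1.2, hh.2⟩
  · intro k hk
    subst hk
    simp only [List.any_eq_true, Bool.and_eq_true, decide_eq_true_eq, List.all_eq_true,
      Bool.not_eq_true'] at h12
    obtain ⟨c, hc, hd, -, ⟨⟨⟨e1, e2⟩, e3⟩, e4⟩, e5⟩ := h12
    refine ⟨c, hc, hd, e1, e2, (St.inFb_iff s (c.pos + hd.vec)).1 e3, fun hh => ?_, e5⟩
    have hh' := (St.inFb_iff t (c.pos + hd.vec - q)).2 hh
    have e : t.inFb (c.pos + hd.vec - q).1 (c.pos + hd.vec - q).2 =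
      t.inFb (c.pos.1 + hd.vec.1 - q.1) (c.pos.2 + hd.vec.2 - q.2) := rfl
    rw [e, e4] at hh'
    exact absurd hh' (by decide)

/-- Labels that a claim of the child at `Z` fills. -/
def fillOf (Z : Lb) (κ : Clm) : Option Lb :=
  match κ.g with
  | none => none
  | some m => if Z.ordL m = Lb.p then none else some (Z.ordL m)

/-- Carried label after a claim of the child at `Z`. -/
def carryOf (Z : Lb) (κ : Clm) : Option Lb :=
  match κ.g with
  | none => none
  | some m => if Z.ordL m = Lb.p then some Z else none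

/-- The child claims a route uses. -/
def needs : List Step → Lb → List (Lb × Clm)
  | [], _ => []
  | Step.seg _ _ _ _ Z' _ _ :: rs, _ => needs rs Z'
  | Step.kid κ :: rs, Z => (Z, κ) :: needs rs (Z.ordL κ.j)

/-- Boolean validity of a route; `Z` is the next side, `F` the side it is entered from. -/
def routeB (ex : Lb → Bool) (j0 : Lb) (t0 : St) (G : Option Lb) :
    List Step → Lb → Lb → St → List Lb → Option Lb → Bool
  | [], Z, F, cur, used, car => decide (Z = Lb.p) && decide (F = j0) && t0.leB cur &&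
      ([Lb.s0, Lb.s1, Lb.s2, Lb.s3, Lb.o].all fun X => decide (X ∈ used)) &&
      decide (car = G)
  | Step.seg s cells q F' Z' t C :: rs, Z, F, cur, used, car =>
      s.leB cur && F.perp Z && decide (Z ≠ Lb.p) && segB cells s t q Z F F' Z' C &&
      (cells.all fun c => ex c.lab && decide (c.lab ≠ Lb.p) && decide (c.lab ∉ used)) &&
      (decide (car = none) || decide (C = none)) &&
      routeB ex j0 t0 G rs Z' F' t (cells.map Cell.lab ++ used) (car.or C)
  | Step.kid κ :: rs, Z, F, cur, used, car =>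
      decide (Z ≠ Lb.p) && !(ex Z) && F.perp Z && decide (Z ∉ used) && decide (Z.ordL κ.i = F) &&
      Z.perp (Z.ordL κ.j) && κ.s.leB cur &&
      (match κ.g with
        | none => true
        | some m => Z.perp (Z.ordL m)) &&
      (match fillOf Z κ with
        | none => true
        | some W => ex W && decide (W ∉ used) && decide (W ≠ Z)) &&
      (decide (car = none) || decide (carryOf Z κ = none)) &&
      routeB ex j0 t0 G rs (Z.ordL κ.j) Z κ.t
        ((fillOf Z κ).toList ++ Z :: used) (car.or (carryOf Z κ))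

/-- Faces of a list of sides. -/
def facesOf (P : Finset Cube) (σ : Bool) (n l : Dir) (y : Cube) (used : List Lb) : Set Face :=
  {A | ∃ X ∈ used, A ∈ sideFaces P y (frame σ n l X)}

/-- Local hypotheses at the cube `y`. -/
structure NodeOK (P : Finset Cube) (y : Cube) : Prop where
  mem : y ∈ P
  acyc : (cubeGraph P).IsAcyclic
  good : ∀ u v : Dir, Dir.perp u v = true → GoodEdge P y u v

section sound

variable {P : Finset Cube} {σ : Bool} {n l : Dir} {y : Cube}

theorem facesOf_disjoint (hy : NodeOK P y) (hnl : Dir.perp n l = true) {L M : List Lb}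
    (h : ∀ X ∈ L, X ∉ M) : Disjoint (facesOf P σ n l y L) (facesOf P σ n l y M) := by
  rw [Set.disjoint_left]
  rintro A ⟨X, hX, hA⟩ ⟨Y, hY, hB⟩
  have hne : frame σ n l X ≠ frame σ n l Y := by
    intro e
    have := frame_inj σ n l hnl X Y e
    subst this
    exact h X hX hY
  exact Set.disjoint_left.1 (sideFaces_disjoint hy.acyc hy.mem hne) hA hB

theorem facesOf_append (L M : List Lb) :
    facesOf P σ n l y (L ++ M) = facesOf P σ n l y M ∪ facesOf P σ n l y L := by
  ext A
  constructor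
  · rintro ⟨X, hX, hA⟩
    rcases List.mem_append.1 hX with hX | hX
    · exact Or.inr ⟨X, hX, hA⟩
    · exact Or.inl ⟨X, hX, hA⟩
  · rintro (⟨X, hX, hA⟩ | ⟨X, hX, hA⟩)
    · exact ⟨X, List.mem_append_right _ hX, hA⟩
    · exact ⟨X, List.mem_append_left _ hX, hA⟩

/-- Progress of a route. -/
def Prog (P : Finset Cube) (σ : Bool) (n l : Dir) (y : Cube) (i0 : Lb) (s0 : St)
    (Z F : Lb) (cur : St) (used : List Lb) (car : Option Lb) : Prop :=
  (used = [] ∧ car = none ∧ Z = i0 ∧ F = Lb.p ∧ cur = s0) ∨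
  Piece P σ (facesOf P σ n l y used) (el P y (frame σ n l i0) (frame σ n l Lb.p)) s0
    (el P y (frame σ n l F) (frame σ n l Z)) cur
    (car.map fun k => el P y (frame σ n l k) (frame σ n l Lb.p))

theorem prog_step (hy : NodeOK P y) (hnl : Dir.perp n l = true) {i0 : Lb} {s0 : St}
    {Z F F' Z' : Lb} {cur s t : St} {used labs : List Lb} {car C : Option Lb}
    (hpr : Prog P σ n l y i0 s0 Z F cur used car)
    (hst : Piece P σ (facesOf P σ n l y labs) (el P y (frame σ n l Z) (frame σ n l F)) s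
      (el P y (frame σ n l F') (frame σ n l Z')) t
      (C.map fun k => el P y (frame σ n l k) (frame σ n l Lb.p)))
    (hs : St.le s cur) (hFZ : F.perp Z = true) (hd : ∀ X ∈ labs, X ∉ used)
    (hc : car = none ∨ C = none) :
    Prog P σ n l y i0 s0 Z' F' t (labs ++ used) (car.or C) := by
  right
  rcases hpr with ⟨rfl, rfl, rfl, rfl, rfl⟩ | hpr
  · simp only [List.append_nil, Option.none_or]
    exact hst.weaken hs ⟨rfl, fun _ h => h⟩
  · have hg : GoodEdge P y (frame σ n l F) (frame σ n l Z) := by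
      apply hy.good
      rw [frame_perp σ n l hnl]
      exact hFZ
    have hcr := crossing hy.mem hg
    rw [facesOf_append]
    refine hpr.compose hst ?_ hcr hs ?_
    · exact (facesOf_disjoint hy hnl hd).symm
    · rcases hc with rfl | rfl
      · right; simp
      · left; simp

end sound

end Pool.Agent.Helper17.UF
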