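import Pool.Agent.Helper17.UF.Node
import Pool.Agent.Helper17.UF.Compose

/-!
# Labels, frames and explicit segments (project UF, MP_409f7f_co)
-/

namespace Pool.Agent.Helper17.UF

/-- Labels of the sides of a cube: four neck sides, the outer side `o`, the parent side `p`. -/
inductive Lb | s0 | s1 | s2 | s3 | o | p
  deriving DecidableEq, Fintype

namespace Lb

def opp : Lb → Lb
  | s0 => s2 | s1 => s3 | s2 => s0 | s3 => s1 | o => p | p => o

def crs : Lb → Lb → Lb
  | o, s0 => s1 | o, s1 => s2 | o, s2 => s3 | o, s3 => s0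
  | p, s0 => s3 | p, s3 => s2 | p, s2 => s1 | p, s1 => s0
  | s0, s1 => o | s0, o => s3 | s0, s3 => p | s0, p => s1
  | s1, s2 => o | s1, o => s0 | s1, s0 => p | s1, p => s2
  | s2, s3 => o | s2, o => s1 | s2, s1 => p | s2, p => s3
  | s3, s0 => o | s3, o => s2 | s3, s2 => p | s3, p => s0
  | a, _ => a

def perp : Lb → Lb → Bool
  | s0, s0 => false | s0, s2 => false | s2, s0 => false | s2, s2 => false
  | s1, s1 => false | s1, s3 => false | s3, s1 => false | s3, s3 => false
  | o, o => false | o, p => false | p, o => false | p, p => false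
  | _, _ => true

/-- The label that lies in heading `h` of a face `X` whose east side is `e`. -/
def lH (X e : Lb) : Hd → Lb
  | Hd.E => e
  | Hd.W => e.opp
  | Hd.N => crs X e
  | Hd.S => (crs X e).opp

end Lb

/-- Oriented cross product. -/
def crσ (σ : Bool) (a b : Dir) : Dir := if σ then Dir.cross a b else (Dir.cross a b).neg

/-- The frame with normal `n` and first side `l`. -/
def frame (σ : Bool) (n l : Dir) : Lb → Dir
  | Lb.s0 => l
  | Lb.s1 => crσ σ n l
  | Lb.s2 => l.neg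
  | Lb.s3 => (crσ σ n l).neg
  | Lb.o => n
  | Lb.p => n.neg

theorem frame_opp : ∀ (σ : Bool) (n l : Dir) (X : Lb),
    frame σ n l X.opp = (frame σ n l X).neg := by decide

theorem frame_perp : ∀ (σ : Bool) (n l : Dir), Dir.perp n l = true → ∀ X Y : Lb,
    Dir.perp (frame σ n l X) (frame σ n l Y) = X.perp Y := by decide

theorem frame_crs : ∀ (σ : Bool) (n l : Dir), Dir.perp n l = true → ∀ X Y : Lb,
    X.perp Y = true → frame σ n l (X.crs Y) = crσ σ (frame σ n l X) (frame σ n l Y) := by decide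

theorem frame_inj : ∀ (σ : Bool) (n l : Dir), Dir.perp n l = true → ∀ X Y : Lb,
    frame σ n l X = frame σ n l Y → X = Y := by decide

theorem frame_surj : ∀ (σ : Bool) (n l : Dir), Dir.perp n l = true → ∀ d : Dir,
    ∃ X : Lb, frame σ n l X = d := by decide

theorem dirH_frame (σ : Bool) (n l : Dir) (hnl : Dir.perp n l = true) (X e : Lb)
    (hXe : X.perp e = true) (h : Hd) :
    dirH σ (frame σ n l X) (frame σ n l e) h = frame σ n l (Lb.lH X e h) := by
  have key := frame_crs σ n l hnl X e hXe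
  have hopp := frame_opp σ n l
  cases h with
  | E => rfl
  | W => exact (hopp e).symm
  | N =>
    simp only [dirH, Lb.lH, key, crσ]
  | S =>
    simp only [dirH, Lb.lH, hopp, key, crσ]
    cases σ <;> simp

/-- An abstract placed face of the root cube. -/
structure Cell where
  lab : Lb
  pos : ℤ × ℤ
  e : Lb
  deriving DecidableEq

/-- The placed face of a cell. -/
def Cell.pl (σ : Bool) (n l : Dir) (y : Cube) (c : Cell) : Pl :=
  ⟨(y, frame σ n l c.lab), c.pos, frame σ n l c.e⟩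

/-- Two cells are glued in heading `h`. -/
def adjH (a b : Cell) (h : Hd) : Bool :=
  decide (b.pos = a.pos + h.vec) && decide (Lb.lH a.lab a.e h = b.lab) &&
    decide (Lb.lH b.lab b.e h.opp = a.lab)

def adjB (a b : Cell) : Bool :=
  adjH a b Hd.E || adjH a b Hd.N || adjH a b Hd.W || adjH a b Hd.S

/-- Every cell of the list is glued to an earlier one. -/
def connB : List Cell → List Cell → Bool
  | _, [] => true
  | seen, c :: cs => (seen.any fun a => adjB a c) && connB (c :: seen) cs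

/-- Validity of an explicit segment. -/
structure SegOK (cells : List Cell) (s t : St) (q : ℤ × ℤ) (X Y F Z : Lb) (C : Option Lb) :
    Prop where
  lab_nodup : (cells.map Cell.lab).Nodup
  pos_nodup : (cells.map Cell.pos).Nodup
  perp : ∀ c ∈ cells, c.lab.perp c.e = true
  region : ∀ c ∈ cells, s.inF c.pos ∧ ¬ t.inF (c.pos - q)
  nest : ∀ v, t.inF (v - q) → s.inF v
  conn : ∃ c0 cs, cells = c0 :: cs ∧ connB [c0] cs = true
  entry : ∃ c ∈ cells, c.lab = X ∧ c.pos = 0 ∧ Lb.lH c.lab c.e s.head.opp = Y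
  exit : ∃ c ∈ cells, c.lab = F ∧ c.pos + t.head.vec = q ∧ Lb.lH c.lab c.e t.head = Z
  carry : ∀ k, C = some k → ∃ c ∈ cells, ∃ h : Hd, c.lab = k ∧ Lb.lH c.lab c.e h = Lb.p ∧
    s.inF (c.pos + h.vec) ∧ ¬ t.inF (c.pos + h.vec - q) ∧
    ∀ c' ∈ cells, c'.pos ≠ c.pos + h.vec

theorem adjB_glue {P : Finset Cube} {σ : Bool} {n l : Dir} {y : Cube}
    (hnl : Dir.perp n l = true) (hy : y ∈ P) {a b : Cell}
    (hpa : a.lab.perp a.e = true) (hpb : b.lab.perp b.e = true)
    (hea : y + (frame σ n l a.lab).vec ∉ P) (heb : y + (frame σ n l b.lab).vec ∉ P)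
    (hgood : GoodEdge P y (frame σ n l a.lab) (frame σ n l b.lab))
    (h : adjB a b = true) : Glue P σ (a.pl σ n l y) (b.pl σ n l y) := by
  have key : ∀ hd : Hd, adjH a b hd = true → Glue P σ (a.pl σ n l y) (b.pl σ n l y) := by
    intro hd hh
    simp only [adjH, Bool.and_eq_true, decide_eq_true_eq] at hh
    obtain ⟨⟨h1, h2⟩, h3⟩ := hh
    refine ⟨hd, h1, ?_⟩
    have e1 : dirOf σ (a.pl σ n l y) hd = frame σ n l b.lab := by
      rw [← h2]
      exact dirH_frame σ n l hnl _ _ hpa hd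
    have e2 : dirOf σ (b.pl σ n l y) hd.opp = frame σ n l a.lab := by
      rw [← h3]
      exact dirH_frame σ n l hnl _ _ hpb hd.opp
    rw [e1, e2]
    have hc := crossing hy hgood
    rw [el_exposed hea, el_exposed heb] at hc
    exact hc
  simp only [adjB, Bool.or_eq_true] at h
  rcases h with ((h | h) | h) | h
  exacts [key _ h, key _ h, key _ h, key _ h]

theorem connB_conn {P : Finset Cube} {σ : Bool} {f : Cell → Pl} {D : Cell → Prop}
    (hf : ∀ a b, D a → D b → adjB a b = true → Glue P σ (f a) (f b)) :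
    ∀ (cs seen : List Cell), (∀ c ∈ seen, D c) → (∀ c ∈ cs, D c) → connB seen cs = true →
      Conn P σ (f '' {c | c ∈ seen}) → Conn P σ (f '' {c | c ∈ seen ∨ c ∈ cs})
  | [], seen, _, _, _, h => by
    simpa using h
  | c :: cs, seen, h1, h2, h3, h => by
    simp only [connB, Bool.and_eq_true, List.any_eq_true] at h3
    obtain ⟨⟨a, ha, hadj⟩, h4⟩ := h3
    have hc : D c := h2 c (List.mem_cons_self)
    have hg := hf a c (h1 a ha) hc hadj
    have hconn : Conn P σ (f '' {x | x ∈ c :: seen}) := by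
      have e : f '' {x | x ∈ c :: seen} = f '' {x | x ∈ seen} ∪ {f c} := by
        ext p
        constructor
        · rintro ⟨x, hx, rfl⟩
          rcases List.mem_cons.1 hx with rfl | hx
          · exact Or.inr rfl
          · exact Or.inl ⟨x, hx, rfl⟩
        · rintro (⟨x, hx, rfl⟩ | hp)
          · exact ⟨x, List.mem_cons_of_mem _ hx, rfl⟩
          · exact ⟨c, List.mem_cons_self, hp.symm⟩
      rw [e]
      exact Conn.union h (Conn.singleton P σ (f c)) ⟨a, ha, rfl⟩ rfl hg
    have := connB_conn hf cs (c :: seen)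
      (fun x hx => by
        rcases List.mem_cons.1 hx with rfl | hx
        · exact hc
        · exact h1 x hx)
      (fun x hx => h2 x (List.mem_cons_of_mem _ hx)) h4 hconn
    have e : {x | x ∈ seen ∨ x ∈ c :: cs} = {x | x ∈ c :: seen ∨ x ∈ cs} := by
      ext x
      simp only [Set.mem_ofPred_eq, List.mem_cons]
      tauto
    rw [e]
    exact this

/-- An explicit segment is a piece. -/
theorem seg_piece {P : Finset Cube} {σ : Bool} {n l : Dir} {y : Cube}
    (hnl : Dir.perp n l = true) (hy : y ∈ P) {cells : List Cell} {s t : St} {q : ℤ × ℤ}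
    {X Y F Z : Lb} {C : Option Lb} (h : SegOK cells s t q X Y F Z C)
    (hexp : ∀ c ∈ cells, y + (frame σ n l c.lab).vec ∉ P)
    (hgood : ∀ A B : Lb, A.perp B = true → A ≠ Lb.p → B ≠ Lb.p →
      GoodEdge P y (frame σ n l A) (frame σ n l B))
    (hp : ∀ c ∈ cells, c.lab ≠ Lb.p) :
    Piece P σ {A | ∃ c ∈ cells, A = (y, frame σ n l c.lab)}
      (el P y (frame σ n l X) (frame σ n l Y)) s
      (el P y (frame σ n l F) (frame σ n l Z)) t
      (C.map fun k => el P y (frame σ n l k) (frame σ n l Lb.p)) := by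
  have labinj : ∀ c ∈ cells, ∀ c' ∈ cells, c.lab = c'.lab → c = c' :=
    List.inj_on_of_nodup_map h.lab_nodup
  have posinj : ∀ c ∈ cells, ∀ c' ∈ cells, c.pos = c'.pos → c = c' :=
    List.inj_on_of_nodup_map h.pos_nodup
  refine ⟨(fun c : Cell => c.pl σ n l y) '' {c | c ∈ cells}, q, ?_⟩
  have dirc : ∀ c ∈ cells, ∀ hd, dirOf σ (c.pl σ n l y) hd = frame σ n l (Lb.lH c.lab c.e hd) :=
    fun c hc hd => dirH_frame σ n l hnl _ _ (h.perp c hc) hd
  have hface : ∀ A, A ∈ {A : Face | ∃ c ∈ cells, A = (y, frame σ n l c.lab)} ↔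
      ∃ p ∈ (fun c : Cell => c.pl σ n l y) '' {c | c ∈ cells}, p.face = A := by
    intro A
    constructor
    · rintro ⟨c, hc, rfl⟩
      exact ⟨_, ⟨c, hc, rfl⟩, rfl⟩
    · rintro ⟨_, ⟨c, hc, rfl⟩, rfl⟩
      exact ⟨c, hc, rfl⟩
  have hconn : Conn P σ ((fun c : Cell => c.pl σ n l y) '' {c | c ∈ cells}) := by
    obtain ⟨c0, cs, hcs, hB⟩ := h.conn
    have := connB_conn (P := P) (σ := σ) (f := fun c : Cell => c.pl σ n l y)
      (D := fun c => c ∈ cells)
      (fun a b ha hb hab => adjB_glue hnl hy (h.perp a ha) (h.perp b hb) (hexp a ha) (hexp b hb)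
        (hgood _ _ ?_ (hp a ha) (hp b hb)) hab) cs [c0]
      (fun c hc => by rw [hcs]; rw [List.mem_singleton] at hc; rw [hc]; exact List.mem_cons_self)
      (fun c hc => by rw [hcs]; exact List.mem_cons_of_mem _ hc) hB ?_
    · have e : {c | c ∈ [c0] ∨ c ∈ cs} = {c | c ∈ cells} := by
        ext x
        rw [hcs]
        simp only [Set.mem_ofPred_eq, List.mem_cons, List.not_mem_nil, or_false]
      rw [e] at this
      exact this
    · -- perpendicular labels of glued cells
      simp only [adjB, adjH, Bool.or_eq_true, Bool.and_eq_true, decide_eq_true_eq] at hab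
      have hpa := h.perp a ha
      have hh : ∃ hd, Lb.lH a.lab a.e hd = b.lab := by
        rcases hab with ((hh | hh) | hh) | hh
        exacts [⟨_, hh.1.2⟩, ⟨_, hh.1.2⟩, ⟨_, hh.1.2⟩, ⟨_, hh.1.2⟩]
      obtain ⟨hd, hh⟩ := hh
      rw [← hh]
      have key : ∀ (X e : Lb) (hd : Hd), X.perp e = true → X.perp (Lb.lH X e hd) = true := by
        decide
      exact key _ _ _ hpa
    · have e : (fun c : Cell => c.pl σ n l y) '' {c | c ∈ [c0]} = {c0.pl σ n l y} := by
        ext p
        simp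
      rw [e]
      exact Conn.singleton P σ _
  have core : ∀ w : ℤ × ℤ, (∀ r, (C.map fun k => el P y (frame σ n l k) (frame σ n l Lb.p)) =
      some r → s.inF w ∧ ¬ t.inF (w - q) ∧
      (∀ p ∈ (fun c : Cell => c.pl σ n l y) '' {c | c ∈ cells}, p.pos ≠ w) ∧
      ∃ p ∈ (fun c : Cell => c.pl σ n l y) '' {c | c ∈ cells}, ∃ h : Hd, p.face = r.1 ∧
        dirOf σ p h = r.2 ∧ w = p.pos + h.vec) → ∃ w : ℤ × ℤ,
      (∀ A, A ∈ {A : Face | ∃ c ∈ cells, A = (y, frame σ n l c.lab)} ↔
        ∃ p ∈ (fun c : Cell => c.pl σ n l y) '' {c | c ∈ cells}, p.face = A) ∧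
      (∀ p ∈ (fun c : Cell => c.pl σ n l y) '' {c | c ∈ cells},
        ∀ p' ∈ (fun c : Cell => c.pl σ n l y) '' {c | c ∈ cells}, p.face = p'.face → p = p') ∧
      (∀ p ∈ (fun c : Cell => c.pl σ n l y) '' {c | c ∈ cells},
        ∀ p' ∈ (fun c : Cell => c.pl σ n l y) '' {c | c ∈ cells}, p.pos = p'.pos → p = p') ∧
      (∀ p ∈ (fun c : Cell => c.pl σ n l y) '' {c | c ∈ cells},
        Dir.perp p.face.2 p.east = true) ∧
      (∀ p ∈ (fun c : Cell => c.pl σ n l y) '' {c | c ∈ cells},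
        s.inF p.pos ∧ ¬ t.inF (p.pos - q)) ∧
      (∀ v, t.inF (v - q) → s.inF v) ∧
      Conn P σ ((fun c : Cell => c.pl σ n l y) '' {c | c ∈ cells}) ∧
      (∃ p ∈ (fun c : Cell => c.pl σ n l y) '' {c | c ∈ cells},
        p.face = (el P y (frame σ n l X) (frame σ n l Y)).1 ∧ p.pos = 0 ∧
        dirOf σ p s.head.opp = (el P y (frame σ n l X) (frame σ n l Y)).2) ∧
      (∃ p ∈ (fun c : Cell => c.pl σ n l y) '' {c | c ∈ cells},
        p.face = (el P y (frame σ n l F) (frame σ n l Z)).1 ∧ p.pos + t.head.vec = q ∧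
        dirOf σ p t.head = (el P y (frame σ n l F) (frame σ n l Z)).2) ∧
      (∀ r, (C.map fun k => el P y (frame σ n l k) (frame σ n l Lb.p)) = some r →
        s.inF w ∧ ¬ t.inF (w - q) ∧
        (∀ p ∈ (fun c : Cell => c.pl σ n l y) '' {c | c ∈ cells}, p.pos ≠ w) ∧
        ∃ p ∈ (fun c : Cell => c.pl σ n l y) '' {c | c ∈ cells}, ∃ h : Hd, p.face = r.1 ∧
          dirOf σ p h = r.2 ∧ w = p.pos + h.vec) := by
    intro w hw
    refine ⟨w, hface, ?_, ?_, ?_, ?_, h.nest, hconn, ?_, ?_, hw⟩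
    · rintro _ ⟨c, hc, rfl⟩ _ ⟨c', hc', rfl⟩ e
      have : c = c' := labinj c hc c' hc' (frame_inj σ n l hnl _ _ (Prod.ext_iff.1 e).2)
      rw [this]
    · rintro _ ⟨c, hc, rfl⟩ _ ⟨c', hc', rfl⟩ e
      rw [posinj c hc c' hc' e]
    · rintro _ ⟨c, hc, rfl⟩
      have := h.perp c hc
      rw [← frame_perp σ n l hnl] at this
      exact this
    · rintro _ ⟨c, hc, rfl⟩
      exact h.region c hc
    · obtain ⟨c, hc, e1, e2, e3⟩ := h.entry
      refine ⟨_, ⟨c, hc, rfl⟩, ?_, e2, ?_⟩
      · rw [← e1, el_exposed (hexp c hc)]; rfl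
      · rw [← e1, el_exposed (hexp c hc), dirc c hc, e3]
    · obtain ⟨c, hc, e1, e2, e3⟩ := h.exit
      refine ⟨_, ⟨c, hc, rfl⟩, ?_, e2, ?_⟩
      · rw [← e1, el_exposed (hexp c hc)]; rfl
      · rw [← e1, el_exposed (hexp c hc), dirc c hc, e3]
  cases hC : C with
  | none =>
    rw [hC] at core
    exact core 0 (by simp)
  | some k =>
    obtain ⟨c, hc, hd, e1, e2, e3, e4, e5⟩ := h.carry k hC
    rw [hC] at core
    refine core (c.pos + hd.vec) ?_
    intro r hr
    simp only [Option.map_some, Option.some.injEq] at hr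
    subst hr
    refine ⟨e3, e4, ?_, _, ⟨c, hc, rfl⟩, hd, ?_, ?_, rfl⟩
    · rintro _ ⟨c', hc', rfl⟩
      exact e5 c' hc'
    · rw [← e1, el_exposed (hexp c hc)]; rfl
    · rw [← e1, el_exposed (hexp c hc), dirc c hc, e2]

end Pool.Agent.Helper17.UF
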