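import Pool.Agent.Helper17.UF.Route

/-!
# Soundness of routes (project UF, MP_409f7f_co)
-/

namespace Pool.Agent.Helper17.UF

theorem Lb.perp_symm : ∀ A B : Lb, A.perp B = true → B.perp A = true := by decide

variable {P : Finset Cube} {σ : Bool} {n l : Dir} {y : Cube}

theorem facesOf_exposed {labs : List Lb} (h : ∀ X ∈ labs, y + (frame σ n l X).vec ∉ P) :
    facesOf P σ n l y labs = {A | ∃ X ∈ labs, A = (y, frame σ n l X)} := by
  ext A
  constructor
  · rintro ⟨X, hX, hA⟩
    rw [sideFaces_exposed (h X hX)] at hA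
    exact ⟨X, hX, hA⟩
  · rintro ⟨X, hX, rfl⟩
    exact ⟨X, hX, by rw [sideFaces_exposed (h X hX)]; rfl⟩

theorem seg_step (hy : NodeOK P y) (hnl : Dir.perp n l = true) {cells : List Cell} {s t : St}
    {q : ℤ × ℤ} {Z F F' Z' : Lb} {C : Option Lb} (hseg : segB cells s t q Z F F' Z' C = true)
    (hexp : ∀ c ∈ cells, y + (frame σ n l c.lab).vec ∉ P) (hp : ∀ c ∈ cells, c.lab ≠ Lb.p) :
    Piece P σ (facesOf P σ n l y (cells.map Cell.lab))
      (el P y (frame σ n l Z) (frame σ n l F)) s
      (el P y (frame σ n l F') (frame σ n l Z')) t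
      (C.map fun k => el P y (frame σ n l k) (frame σ n l Lb.p)) := by
  have e : facesOf P σ n l y (cells.map Cell.lab) =
      {A | ∃ c ∈ cells, A = (y, frame σ n l c.lab)} := by
    rw [facesOf_exposed]
    · ext A
      constructor
      · rintro ⟨X, hX, rfl⟩
        obtain ⟨c, hc, rfl⟩ := List.mem_map.1 hX
        exact ⟨c, hc, rfl⟩
      · rintro ⟨c, hc, rfl⟩
        exact ⟨c.lab, List.mem_map.2 ⟨c, hc, rfl⟩, rfl⟩
    · intro X hX
      obtain ⟨c, hc, rfl⟩ := List.mem_map.1 hX
      exact hexp c hc
  rw [e]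
  refine seg_piece hnl hy.mem (segB_ok hseg) hexp ?_ hp
  intro A B hAB _ _
  apply hy.good
  rw [frame_perp σ n l hnl]
  exact hAB

/-- The faces of a list with one more side. -/
theorem facesOf_singleton (X : Lb) :
    facesOf P σ n l y [X] = sideFaces P y (frame σ n l X) := by
  ext A
  constructor
  · rintro ⟨Y, hY, hA⟩
    rw [List.mem_singleton] at hY
    subst hY
    exact hA
  · intro hA
    exact ⟨X, List.mem_singleton.2 rfl, hA⟩

/-- The claim of a child, seen from the parent. -/
theorem kid_piece (hy : NodeOK P y) (hnl : Dir.perp n l = true) {X : Lb} (hX : X ≠ Lb.p)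
    (hXP : y + (frame σ n l X).vec ∈ P) {κ : Clm}
    (hi : X.perp (X.ordL κ.i) = true) (hj : X.perp (X.ordL κ.j) = true)
    (hg : ∀ m, κ.g = some m → X.perp (X.ordL m) = true)
    (h : BClaim P σ (y + (frame σ n l X).vec) (frame σ n l X) (frame σ n l (X.ordL Lb.s0)) κ) :
    Piece P σ (sideFaces P y (frame σ n l X))
      (el P y (frame σ n l X) (frame σ n l (X.ordL κ.i))) κ.s
      (el P y (frame σ n l X) (frame σ n l (X.ordL κ.j))) κ.t
      (κ.g.map fun m => el P y (frame σ n l X) (frame σ n l (X.ordL m))) := by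
  have key : ∀ m : Lb, X.perp (X.ordL m) = true →
      el P (y + (frame σ n l X).vec) (frame σ (frame σ n l X) (frame σ n l (X.ordL Lb.s0)) m)
        (frame σ n l X).neg = el P y (frame σ n l X) (frame σ n l (X.ordL m)) := by
    intro m hm
    rw [frame_child σ n l hnl X m hX]
    refine (el_child hXP ?_).symm
    apply hy.good
    rw [frame_perp σ n l hnl]
    exact hm
  have eb : y + (frame σ n l X).vec + (frame σ n l X).neg.vec = y := by
    rw [Dir.vec_neg]; abel
  rw [sideFaces_branch hXP]
  unfold BClaim at h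
  rw [eb, key κ.i hi, key κ.j hj] at h
  have hgg : (κ.g.map fun k => el P (y + (frame σ n l X).vec)
      (frame σ (frame σ n l X) (frame σ n l (X.ordL Lb.s0)) k) (frame σ n l X).neg) =
      (κ.g.map fun m => el P y (frame σ n l X) (frame σ n l (X.ordL m))) := by
    cases hκ : κ.g with
    | none => rfl
    | some m =>
      simp only [Option.map_some]
      rw [key m (hg m hκ)]
  rw [hgg] at h
  exact h

theorem kid_step (hy : NodeOK P y) (hnl : Dir.perp n l = true) {X : Lb} (hX : X ≠ Lb.p)
    (hXP : y + (frame σ n l X).vec ∈ P) {κ : Clm}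
    (hi : X.perp (X.ordL κ.i) = true) (hj : X.perp (X.ordL κ.j) = true)
    (hg : ∀ m, κ.g = some m → X.perp (X.ordL m) = true)
    (hW : ∀ W, fillOf X κ = some W → y + (frame σ n l W).vec ∉ P ∧ W ≠ X)
    (h : BClaim P σ (y + (frame σ n l X).vec) (frame σ n l X) (frame σ n l (X.ordL Lb.s0)) κ) :
    Piece P σ (facesOf P σ n l y ((fillOf X κ).toList ++ [X]))
      (el P y (frame σ n l X) (frame σ n l (X.ordL κ.i))) κ.s
      (el P y (frame σ n l X) (frame σ n l (X.ordL κ.j))) κ.t
      ((carryOf X κ).map fun k => el P y (frame σ n l k) (frame σ n l Lb.p)) := by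
  have hpc := kid_piece hy hnl hX hXP hi hj hg h
  cases hκ : κ.g with
  | none =>
    rw [hκ] at hpc
    have e1 : fillOf X κ = none := by simp only [fillOf, hκ]
    have e2 : carryOf X κ = none := by simp only [carryOf, hκ]
    rw [e1, e2]
    simp only [Option.toList_none, List.nil_append, Option.map_none]
    rw [facesOf_singleton]
    exact hpc
  | some m =>
    rw [hκ] at hpc
    by_cases hm : X.ordL m = Lb.p
    · have e1 : fillOf X κ = none := by simp only [fillOf, hκ, hm, if_true]
      have e2 : carryOf X κ = some X := by simp only [carryOf, hκ, hm, if_true]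
      rw [e1, e2]
      simp only [Option.toList_none, List.nil_append, Option.map_some]
      rw [facesOf_singleton]
      simp only [Option.map_some, hm] at hpc
      exact hpc
    · have e1 : fillOf X κ = some (X.ordL m) := by simp only [fillOf, hκ, hm, if_false]
      have e2 : carryOf X κ = none := by simp only [carryOf, hκ, hm, if_false]
      obtain ⟨hWP, hWX⟩ := hW _ e1
      rw [e1, e2]
      simp only [Option.toList_some, Option.map_none]
      rw [facesOf_append, facesOf_singleton, facesOf_singleton, sideFaces_exposed hWP]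
      simp only [Option.map_some] at hpc
      have hperp : X.perp (X.ordL m) = true := hg m hκ
      have hgood : GoodEdge P y (frame σ n l X) (frame σ n l (X.ordL m)) := by
        apply hy.good
        rw [frame_perp σ n l hnl]
        exact hperp
      have hcr := crossing hy.mem hgood
      rw [el_exposed hWP] at hcr
      refine hpc.fill hcr ?_ ?_
      · intro hA
        rw [sideFaces_branch hXP] at hA
        exact not_mem_Br_root hA.2
      · have := frame_perp σ n l hnl (X.ordL m) X
        simp only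
        rw [this]
        exact Lb.perp_symm _ _ hperp

/-- Soundness of a route from a state in progress. -/
theorem route_sound_aux (hy : NodeOK P y) (hnl : Dir.perp n l = true) {ex : Lb → Bool}
    (hex : ∀ X, X ≠ Lb.p → (ex X = true ↔ y + (frame σ n l X).vec ∉ P))
    {i0 j0 : Lb} {s0 t0 : St} {G : Option Lb} :
    ∀ (steps : List Step) (Z F : Lb) (cur : St) (used : List Lb) (car : Option Lb),
      routeB ex j0 t0 G steps Z F cur used car = true →
      (∀ Xκ ∈ needs steps Z, BClaim P σ (y + (frame σ n l Xκ.1).vec) (frame σ n l Xκ.1)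
        (frame σ n l (Xκ.1.ordL Lb.s0)) Xκ.2) →
      Lb.p ∉ used → Prog P σ n l y i0 s0 Z F cur used car →
      ∃ used' : List Lb, (∀ X, X ≠ Lb.p → X ∈ used') ∧ Lb.p ∉ used' ∧
        Piece P σ (facesOf P σ n l y used') (el P y (frame σ n l i0) (frame σ n l Lb.p)) s0
          (el P y (frame σ n l j0) (frame σ n l Lb.p)) t0
          (G.map fun k => el P y (frame σ n l k) (frame σ n l Lb.p))
  | [], Z, F, cur, used, car, hr, _, hp, hpr => by
    simp only [routeB, Bool.and_eq_true, decide_eq_true_eq] at hr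
    obtain ⟨⟨⟨⟨h1, h2⟩, h3⟩, h4⟩, h5⟩ := hr
    subst h1 h2 h5
    simp only [List.all_cons, List.all_nil, Bool.and_true, Bool.and_eq_true,
      decide_eq_true_eq] at h4
    obtain ⟨m0, m1, m2, m3, m4⟩ := h4
    refine ⟨used, ?_, hp, ?_⟩
    · intro X hX
      cases X
      exacts [m0, m1, m2, m3, m4, absurd rfl hX]
    · rcases hpr with ⟨rfl, _⟩ | hpr
      · exact absurd m0 (List.not_mem_nil)
      · exact hpr.weaken ⟨rfl, fun _ h => h⟩ (St.leB_le h3)
  | Step.seg s cells q F' Z' t C :: rs, Z, F, cur, used, car, hr, hn, hp, hpr => by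
    simp only [routeB, Bool.and_eq_true, decide_eq_true_eq, List.all_eq_true,
      Bool.or_eq_true] at hr
    obtain ⟨⟨⟨⟨⟨⟨h1, h2⟩, h3⟩, h4⟩, h5⟩, h6⟩, h7⟩ := hr
    have hexp : ∀ c ∈ cells, y + (frame σ n l c.lab).vec ∉ P := fun c hc =>
      (hex c.lab (h5 c hc).1.2).1 (h5 c hc).1.1
    have hst := seg_step (P := P) (σ := σ) hy hnl h4 hexp (fun c hc => (h5 c hc).1.2)
    have hd : ∀ X ∈ cells.map Cell.lab, X ∉ used := by
      intro X hX
      obtain ⟨c, hc, rfl⟩ := List.mem_map.1 hX
      exact (h5 c hc).2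
    refine route_sound_aux hy hnl hex rs Z' F' t _ _ h7 (fun Xκ hX => hn Xκ ?_) ?_
      (prog_step hy hnl hpr hst (St.leB_le h1) h2 hd h6)
    · simp only [needs]
      exact hX
    · intro hm
      rcases List.mem_append.1 hm with hm | hm
      · obtain ⟨c, hc, e⟩ := List.mem_map.1 hm
        exact (h5 c hc).1.2 e
      · exact hp hm
  | Step.kid κ :: rs, Z, F, cur, used, car, hr, hn, hp, hpr => by
    simp only [routeB, Bool.and_eq_true, decide_eq_true_eq, Bool.or_eq_true,
      Bool.not_eq_true'] at hr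
    obtain ⟨⟨⟨⟨⟨⟨⟨⟨⟨⟨h1, h2⟩, h3⟩, h4⟩, h5⟩, h6⟩, h7⟩, h8⟩, h9⟩, h10⟩, h11⟩ := hr
    have hZP : y + (frame σ n l Z).vec ∈ P := by
      by_contra hc
      rw [← hex Z h1] at hc
      rw [hc] at h2
      exact absurd h2 (by decide)
    have hFZ : Z.perp F = true := Lb.perp_symm _ _ h3
    have hi : Z.perp (Z.ordL κ.i) = true := by rw [h5]; exact hFZ
    have hg : ∀ m, κ.g = some m → Z.perp (Z.ordL m) = true := by
      intro m hm
      rw [hm] at h8
      exact h8
    have hW : ∀ W, fillOf Z κ = some W → y + (frame σ n l W).vec ∉ P ∧ W ≠ Z ∧ W ∉ used ∧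
        W ≠ Lb.p := by
      intro W hW
      rw [hW] at h9
      simp only [Bool.and_eq_true, decide_eq_true_eq] at h9
      have hWp : W ≠ Lb.p := by
        intro hWp
        unfold fillOf at hW
        cases hκ : κ.g with
        | none => rw [hκ] at hW; exact absurd hW (by simp)
        | some m =>
          rw [hκ] at hW
          by_cases hm : Z.ordL m = Lb.p
          · simp only [hm, if_true] at hW
            exact absurd hW (by simp)
          · simp only [hm, if_false, Option.some.injEq] at hW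
            exact hm (hW.trans hWp)
      exact ⟨(hex W hWp).1 h9.1.1, h9.2, h9.1.2, hWp⟩
    have hst := kid_step (P := P) (σ := σ) hy hnl h1 hZP hi h6 hg
      (fun W hw => ⟨(hW W hw).1, (hW W hw).2.1⟩)
      (hn (Z, κ) (by simp only [needs]; exact List.mem_cons_self))
    rw [h5] at hst
    have hd : ∀ X ∈ (fillOf Z κ).toList ++ [Z], X ∉ used := by
      intro X hX
      rcases List.mem_append.1 hX with hX | hX
      · rw [Option.mem_toList] at hX
        exact (hW X hX).2.2.1
      · rw [List.mem_singleton] at hX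
        rw [hX]
        exact h4
    have hpr' := prog_step hy hnl hpr hst (St.leB_le h7) h3 hd h10
    rw [List.append_assoc] at hpr'
    refine route_sound_aux hy hnl hex rs (Z.ordL κ.j) Z κ.t _ _ h11 (fun Xκ hX => hn Xκ ?_) ?_ ?_
    · simp only [needs]
      exact List.mem_cons_of_mem _ hX
    · intro hm
      rcases List.mem_append.1 hm with hm | hm
      · rw [Option.mem_toList] at hm
        exact (hW _ hm).2.2.2 rfl
      · rcases List.mem_cons.1 hm with hm | hm
        · exact h1 hm.symm
        · exact hp hm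
    · exact hpr'

/-- Soundness of routes. -/
theorem route_sound (hy : NodeOK P y) (hnl : Dir.perp n l = true) (hb : y + n.neg.vec ∈ P)
    {ex : Lb → Bool} (hex : ∀ X, X ≠ Lb.p → (ex X = true ↔ y + (frame σ n l X).vec ∉ P))
    {κ : Clm} {steps : List Step}
    (hr : routeB ex κ.j κ.t κ.g steps κ.i Lb.p κ.s [] none = true)
    (hn : ∀ Xκ ∈ needs steps κ.i, BClaim P σ (y + (frame σ n l Xκ.1).vec) (frame σ n l Xκ.1)
        (frame σ n l (Xκ.1.ordL Lb.s0)) Xκ.2) :
    BClaim P σ y n l κ := by
  obtain ⟨used, h1, h2, h3⟩ := route_sound_aux (i0 := κ.i) (s0 := κ.s) hy hnl hex steps κ.i Lb.p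
    κ.s [] none hr hn (List.not_mem_nil) (Or.inl ⟨rfl, rfl, rfl, rfl, rfl⟩)
  have e : facesOf P σ n l y used = branchFaces P (y + n.neg.vec) y := by
    rw [branchFaces_eq hy.acyc hy.mem hb]
    ext A
    constructor
    · rintro ⟨X, hX, hA⟩
      refine ⟨frame σ n l X, ?_, hA⟩
      intro hc
      have : X = Lb.p := frame_inj σ n l hnl X Lb.p hc
      rw [this] at hX
      exact h2 hX
    · rintro ⟨u, hu, hA⟩
      obtain ⟨X, rfl⟩ := frame_surj σ n l hnl u
      refine ⟨X, h1 X ?_, hA⟩
      rintro rfl
      exact hu rfl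
  rw [e] at h3
  exact h3

end Pool.Agent.Helper17.UF
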