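import Pool.Agent.Helper17.UF.Node

/-!
# Edge unfoldings of polycubes (project UF, MP_409f7f_co): geometric definitions
-/

namespace Pool.Agent.Helper17.UF

/-- Euclidean space. -/
abbrev E3 := EuclideanSpace ℝ (Fin 3)

/-- The Euclidean plane. -/
abbrev E2 := EuclideanSpace ℝ (Fin 2)

/-- The closed unit cube with lower corner `v`. -/
def unitCube (v : Cube) : Set E3 :=
  {x | ((v.1 : ℝ) ≤ x 0 ∧ x 0 ≤ v.1 + 1) ∧ ((v.2.1 : ℝ) ≤ x 1 ∧ x 1 ≤ v.2.1 + 1) ∧
    ((v.2.2 : ℝ) ≤ x 2 ∧ x 2 ≤ v.2.2 + 1)}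

/-- The unit square in which the cube `A.1` meets its neighbour in the direction `A.2`. -/
def square (A : Face) : Set E3 := unitCube A.1 ∩ unitCube (A.1 + A.2.vec)

/-- The side of the square of `A` towards the perpendicular direction `t`. -/
def sideOf (A : Face) (t : Dir) : Set E3 := square A ∩ square (A.1, t)

/-- The edges of the boundary surface: all sides of boundary squares. -/
def IsEdge (P : Finset Cube) (e : Set E3) : Prop :=
  ∃ (A : Face) (t : Dir), IsFace P A ∧ Dir.perp A.2 t = true ∧ e = sideOf A t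

/-- `P` has an edge unfolding. -/
def HasEdgeUnfolding (P : Finset Cube) : Prop :=
  ∃ (T : Set (Set E3)) (φ : Face → E3 → E2),
    (∀ e ∈ T, IsEdge P e) ∧
    (∀ A, IsFace P A → ∀ x ∈ square A, ∀ y ∈ square A, dist (φ A x) (φ A y) = dist x y) ∧
    (∀ A B, IsFace P A → IsFace P B → ∀ e, IsEdge P e → e ∉ T → e ⊆ square A → e ⊆ square B →
      ∀ x ∈ e, φ A x = φ B x) ∧
    (∀ A B, IsFace P A → IsFace P B → A ≠ B →
      Disjoint (interior (φ A '' square A)) (interior (φ B '' square B))) ∧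
    (∀ A B, IsFace P A → IsFace P B → Relation.ReflTransGen
      (fun C D => IsFace P C ∧ IsFace P D ∧
        ∃ e, IsEdge P e ∧ e ∉ T ∧ e ⊆ square C ∧ e ⊆ square D) A B)

end Pool.Agent.Helper17.UF
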