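import Pool.Agent.Helper17.UF.Cert

/-!
# Change of frame, reversal and weakening of claims (project UF, MP_409f7f_co)
-/

namespace Pool.Agent.Helper17.UF

theorem frame_act : ∀ (σ : Bool) (n l : Dir), Dir.perp n l = true → ∀ (m : Bool) (r : Fin 4)
    (X : Lb), frame (xor σ m) n (frame σ n l (Lb.s0.act m r)) X = frame σ n l (X.act m r) := by
  decide

theorem act_ne_p : ∀ (m : Bool) (r : Fin 4) (X : Lb), X ≠ Lb.p → X.act m r ≠ Lb.p := by decide

theorem perp_frame_act : ∀ (σ : Bool) (n l : Dir), Dir.perp n l = true → ∀ (m : Bool)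
    (r : Fin 4), Dir.perp n (frame σ n l (Lb.s0.act m r)) = true := by decide

variable {P : Finset Cube} {σ : Bool} {n l : Dir} {y : Cube}

/-- Change of frame. -/
theorem BClaim.act (hnl : Dir.perp n l = true) (m : Bool) (r : Fin 4) {κ : Clm}
    (h : BClaim P (xor σ m) y n (frame σ n l (Lb.s0.act m r)) κ) :
    BClaim P σ y n l (κ.act m r) := by
  unfold BClaim at h ⊢
  rw [frame_act σ n l hnl m r κ.i, frame_act σ n l hnl m r κ.j] at h
  have hg : (κ.g.map fun k => el P y (frame (xor σ m) n (frame σ n l (Lb.s0.act m r)) k) n.neg) =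
      ((κ.act m r).g.map fun k => el P y (frame σ n l k) n.neg) := by
    cases hκ : κ.g with
    | none => simp only [Clm.act, hκ, Option.map_none]
    | some k =>
      simp only [Clm.act, hκ, Option.map_some]
      rw [frame_act σ n l hnl m r k]
  rw [hg] at h
  cases m with
  | false =>
    rw [Bool.xor_false] at h
    exact h
  | true =>
    rw [Bool.xor_true] at h
    have := h.mir
    rw [Bool.not_not] at this
    exact this

/-- Reversal. -/
theorem BClaim.revIf {κ : Clm} (b : Bool) (h : BClaim P σ y n l κ) :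
    BClaim P σ y n l (κ.revIf b) := by
  cases b with
  | false => exact h
  | true => exact Piece.rev h

/-- Weakening. -/
theorem BClaim.weaken {κ τ : Clm} (h : BClaim P σ y n l κ) (hle : κ.leB τ = true) :
    BClaim P σ y n l τ := by
  simp only [Clm.leB, Bool.and_eq_true, decide_eq_true_eq, Bool.or_eq_true] at hle
  obtain ⟨⟨⟨⟨h1, h2⟩, h3⟩, h4⟩, h5⟩ := hle
  unfold BClaim at h ⊢
  have hw := Piece.weaken h (St.leB_le h3) (St.leB_le h4)
  rw [h1, h2] at hw
  rcases h5 with h5 | h5
  · rw [h5] at hw
    exact hw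
  · rw [h5]
    exact hw.forget

/-- Class of a branch in a frame. -/
noncomputable def cls (P : Finset Cube) (σ : Bool) (y : Cube) (n l : Dir) : ℕ :=
  (if y + (frame σ n l Lb.s0).vec ∈ P then 1 else 0) +
  (if y + (frame σ n l Lb.s1).vec ∈ P then 2 else 0) +
  (if y + (frame σ n l Lb.s2).vec ∈ P then 4 else 0) +
  (if y + (frame σ n l Lb.s3).vec ∈ P then 8 else 0) +
  (if y + (frame σ n l Lb.o).vec ∈ P then 16 else 0)

theorem cls_lt : cls P σ y n l < 32 := by
  unfold cls
  split_ifs <;> norm_num

theorem has_cls {X : Lb} (hX : X ≠ Lb.p) :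
    has (cls P σ y n l) X = true ↔ y + (frame σ n l X).vec ∈ P := by
  by_cases h0 : y + (frame σ n l Lb.s0).vec ∈ P <;>
  by_cases h1 : y + (frame σ n l Lb.s1).vec ∈ P <;>
  by_cases h2 : y + (frame σ n l Lb.s2).vec ∈ P <;>
  by_cases h3 : y + (frame σ n l Lb.s3).vec ∈ P <;>
  by_cases h4 : y + (frame σ n l Lb.o).vec ∈ P <;>
  · simp only [cls, h0, h1, h2, h3, h4, if_true, if_false]
    cases X
    · simp only [h0, iff_true, iff_false]; decide
    · simp only [h1, iff_true, iff_false]; decide
    · simp only [h2, iff_true, iff_false]; decide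
    · simp only [h3, iff_true, iff_false]; decide
    · simp only [h4, iff_true, iff_false]; decide
    · exact absurd rfl hX

theorem has_ext : ∀ c < 32, ∀ c' < 32, (∀ X : Lb, has c X = has c' X) → c = c' := by decide

theorem cls_eq {c : ℕ} (hc : c < 32)
    (h : ∀ X : Lb, X ≠ Lb.p → (has c X = true ↔ y + (frame σ n l X).vec ∈ P)) :
    cls P σ y n l = c := by
  apply has_ext _ cls_lt _ hc
  intro X
  by_cases hX : X = Lb.p
  · subst hX; rfl
  · rw [Bool.eq_iff_iff, has_cls hX, h X hX]

theorem imgOK_has : ∀ (m : Bool) (r : Fin 4) (c0 : ℕ), c0 < 32 → ∀ c < 32, imgOK m r c0 c = true →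
    ∀ X : Lb, has c (X.act m r) = has c0 X := by decide

/-- Class in the changed frame. -/
theorem cls_act (hnl : Dir.perp n l = true) (m : Bool) (r : Fin 4) {c0 : ℕ} (hc : c0 < 32)
    (h : imgOK m r c0 (cls P σ y n l) = true) :
    cls P (xor σ m) y n (frame σ n l (Lb.s0.act m r)) = c0 := by
  apply cls_eq hc
  intro X hX
  rw [frame_act σ n l hnl m r X, ← has_cls (act_ne_p m r X hX),
    imgOK_has m r c0 hc _ cls_lt h X]

theorem exists_canon : ∀ c < 32, ∃ c0 ∈ canon, ∃ (m : Bool) (r : Fin 4),
    imgOK m r c0 c = true := by decide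

theorem canon_lt : ∀ c ∈ canon, c < 32 := by decide

/-- Class in the mirrored frame. -/
theorem cls_mir (hnl : Dir.perp n l = true) :
    cls P (!σ) y n l = mirC (cls P σ y n l) := by
  have hlt : ∀ c < 32, mirC c < 32 := by decide
  have hm : ∀ c < 32, ∀ X : Lb, has (mirC c) X = has c (X.act true 0) := by decide
  apply cls_eq (hlt _ cls_lt)
  intro X hX
  rw [hm _ cls_lt, has_cls (act_ne_p true 0 X hX), ← frame_act σ n l hnl true 0 X]
  rw [Bool.xor_true]
  have : frame σ n l (Lb.s0.act true 0) = l := rfl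
  rw [this]

/-- The side of a class 17 branch. -/
theorem side_unique (hnl : Dir.perp n l = true) (h : cls P σ y n l = 17) {l' : Dir}
    (hnl' : Dir.perp n l' = true) (hP : y + l'.vec ∈ P) : l' = l := by
  obtain ⟨X, hX⟩ := frame_surj σ n l hnl l'
  have hXp : X ≠ Lb.p := by
    rintro rfl
    subst hX
    have key : ∀ n : Dir, Dir.perp n n.neg = false := by decide
    exact absurd hnl' (by rw [show frame σ n l Lb.p = n.neg from rfl, key n]; decide)
  have hXo : X ≠ Lb.o := by
    rintro rfl
    subst hX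
    have key : ∀ n : Dir, Dir.perp n n = false := by decide
    exact absurd hnl' (by rw [show frame σ n l Lb.o = n from rfl, key n]; decide)
  have hh : has 17 X = true := by
    rw [← h, has_cls hXp, hX]
    exact hP
  have key : ∀ X : Lb, has 17 X = true → X = Lb.s0 ∨ X = Lb.o := by decide
  rcases key X hh with rfl | rfl
  · exact hX.symm
  · exact absurd rfl hXo

end Pool.Agent.Helper17.UF
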